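import Pool.Agent.H349R2.Tet.Dens

/-!
# Task AFF: affine images
-/

namespace Pool.Agent.H349R2.Tet

open MeasureTheory ENNReal

namespace Aff

theorem lam_vert (i j : Fin 4) : lam i ((1 / 2 : ℝ) • nv j) = if i = j then 1 else 0 := by
  fin_cases i <;> fin_cases j <;> simp [lam, nv, Fin.sum_univ_three] <;> norm_num

theorem lam_sum (x : V) : ∑ i, lam i x = 1 := by
  simp [lam, nv, Fin.sum_univ_three, Fin.sum_univ_four]
  ring

theorem lam_repr (x : V) : x = ∑ i, lam i x • ((1 / 2 : ℝ) • nv i) := by
  funext k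
  simp only [Finset.sum_apply, Pi.smul_apply, smul_eq_mul]
  fin_cases k <;> simp [lam, nv, Fin.sum_univ_three, Fin.sum_univ_four] <;> ring

theorem lam_affine (i : Fin 4) (x y : V) (a b : ℝ) (hab : a + b = 1) :
    lam i (a • x + b • y) = a * lam i x + b * lam i y := by
  have : b = 1 - a := by linarith
  subst this
  simp only [lam, Fin.sum_univ_three, Pi.add_apply, Pi.smul_apply, smul_eq_mul]
  ring

theorem convex_T : Convex ℝ T := by
  intro x hx y hy a b ha hb hab i
  rw [lam_affine i x y a b hab]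
  exact add_nonneg (mul_nonneg ha (hx i)) (mul_nonneg hb (hy i))

end Aff

open Aff

theorem T_eq_hull : T = convexHull ℝ (Set.range fun i : Fin 4 => (1 / 2 : ℝ) • nv i) := by
  apply Set.Subset.antisymm
  · intro x hx
    rw [lam_repr x]
    exact (convex_convexHull ℝ _).sum_mem (fun i _ => hx i) (lam_sum x)
      (fun i _ => subset_convexHull ℝ _ ⟨i, rfl⟩)
  · apply convexHull_min _ convex_T
    rintro _ ⟨j, rfl⟩ i
    rw [lam_vert]
    split_ifs <;> norm_num

/-- all tetrahedra have the same lattice packing density; `φ A = volume A / det` version -/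
theorem tetra_affine (p : Fin 4 → V) (hp : AffineIndependent ℝ p) :
    ∃ (L : V ≃ₗ[ℝ] V) (t : V), convexHull ℝ (Set.range p) = (fun x => L x + t) '' T := by
  set v1 : Fin 3 → V := fun i => (1 / 2 : ℝ) • nv i.succ - (1 / 2 : ℝ) • nv 0 with hv1
  set v2 : Fin 3 → V := fun i => p i.succ - p 0 with hv2
  have h1 : LinearIndependent ℝ v1 := by
    rw [Fintype.linearIndependent_iff]
    intro g hg
    have e0 := congrFun hg 0
    have e1 := congrFun hg 1
    have e2 := congrFun hg 2
    simp [hv1, nv, Fin.sum_univ_three] at e0 e1 e2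
    intro i
    fin_cases i <;> simp <;> linarith
  have h2 : LinearIndependent ℝ v2 := by
    have := (affineIndependent_iff_linearIndependent_vsub ℝ p 0).1 hp
    exact this.comp (fun i : Fin 3 => (⟨i.succ, Fin.succ_ne_zero i⟩ : {x : Fin 4 // x ≠ 0}))
      (fun i j hij => Fin.succ_injective _ (by simpa using hij))
  have hcard : Fintype.card (Fin 3) = Module.finrank ℝ V := by simp
  set b1 := basisOfLinearIndependentOfCardEqFinrank h1 hcard with hb1
  set b2 := basisOfLinearIndependentOfCardEqFinrank h2 hcard with hb2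
  set L : V ≃ₗ[ℝ] V := b1.equiv b2 (Equiv.refl _) with hL
  have hLv : ∀ i, L (v1 i) = v2 i := by
    intro i
    have h3 : b1 i = v1 i := by simp [hb1]
    have h4 : b2 i = v2 i := by simp [hb2]
    rw [← h3, ← h4, hL, Module.Basis.equiv_apply]
    rfl
  set t : V := p 0 - L ((1 / 2 : ℝ) • nv 0) with ht
  have key : ∀ j : Fin 4, L ((1 / 2 : ℝ) • nv j) + t = p j := by
    intro j
    refine Fin.cases ?_ (fun i => ?_) j
    · rw [ht]; abel
    · have h5 : (1 / 2 : ℝ) • nv i.succ = v1 i + (1 / 2 : ℝ) • nv 0 := by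
        rw [hv1]; simp
      rw [h5, map_add, hLv i, ht]
      funext k
      simp only [hv2, Pi.add_apply, Pi.sub_apply]
      ring
  refine ⟨L, t, ?_⟩
  set f : V →ᵃ[ℝ] V := L.toLinearMap.toAffineMap + AffineMap.const ℝ V t with hf
  have hff : (fun x => L x + t) = f := by
    funext x
    simp [hf]
  rw [hff, T_eq_hull, AffineMap.image_convexHull, ← Set.range_comp]
  congr 1
  apply congrArg
  funext j
  rw [Function.comp_apply, ← hff]
  exact (key j).symm

namespace Aff

/-- the homeomorphism `x ↦ L x + t` -/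
noncomputable def hom (L : V ≃ₗ[ℝ] V) (t : V) : V ≃ₜ V :=
  L.toContinuousLinearEquiv.toHomeomorph.trans (Homeomorph.addRight t)

theorem hom_coe (L : V ≃ₗ[ℝ] V) (t : V) : (hom L t : V → V) = fun x => L x + t := by
  funext x
  simp [hom]

theorem lat_image (L : V ≃ₗ[ℝ] V) (b : Fin 3 → V) : lat (fun i => L (b i)) = L '' lat b := by
  ext x
  constructor
  · rintro ⟨z, rfl⟩
    refine ⟨∑ i, (z i : ℝ) • b i, ⟨z, rfl⟩, ?_⟩
    simp [map_sum]
  · rintro ⟨_, ⟨z, rfl⟩, rfl⟩
    exact ⟨z, by simp [map_sum]⟩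

theorem tr_image (A : Set V) (L : V ≃ₗ[ℝ] V) (t u : V) :
    tr ((fun x => L x + t) '' A) (L u) = (fun x => L x + t) '' (tr A u) := by
  unfold tr
  rw [Set.image_image, Set.image_image]
  refine Set.image_congr (fun x _ => ?_)
  rw [map_add]
  abel

end Aff

theorem packs_image (A : Set V) (L : V ≃ₗ[ℝ] V) (t : V) (b : Fin 3 → V) :
    Packs ((fun x => L x + t) '' A) (fun i => L (b i)) ↔ Packs A b := by
  unfold Packs
  have h1 : LinearIndependent ℝ (fun i => L (b i)) ↔ LinearIndependent ℝ b :=
    LinearMap.linearIndependent_iff L.toLinearMap (LinearEquiv.ker L)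
  rw [h1, lat_image]
  refine and_congr_right (fun _ => ?_)
  rw [Set.forall_mem_image]
  refine forall₂_congr (fun u _ => ?_)
  rw [Set.forall_mem_image]
  refine forall₂_congr (fun v _ => ?_)
  rw [L.injective.ne_iff, tr_image, tr_image, ← hom_coe, ← Homeomorph.image_interior,
    ← Homeomorph.image_interior, Set.disjoint_image_iff (hom L t).injective]

theorem ratio_image (A : Set V) (L : V ≃ₗ[ℝ] V) (t : V) (b : Fin 3 → V) (hb : dt b ≠ 0) :
    volume ((fun x => L x + t) '' A) / ENNReal.ofReal |dt (fun i => L (b i))|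
      = volume A / ENNReal.ofReal |dt b| := by
  have h1 : (fun x => L x + t) '' A = (fun x => x + t) '' (L '' A) := by
    rw [Set.image_image]
  have h2 : volume ((fun x => x + t) '' (L '' A)) = volume (L '' A) := by
    rw [Set.image_add_right, measure_preimage_add_right]
  have h3 : volume (L '' A) = ENNReal.ofReal |LinearMap.det (L : V →ₗ[ℝ] V)| * volume A := by
    have := Measure.addHaar_image_linearMap (volume : Measure V) (L : V →ₗ[ℝ] V) A
    simpa using this
  have h4 : dt (fun i => L (b i)) = LinearMap.det (L : V →ₗ[ℝ] V) * dt b := by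
    have : Matrix.of (fun i => L (b i)) =
        Matrix.of b * (LinearMap.toMatrix' (L : V →ₗ[ℝ] V)).transpose := by
      ext i j
      rw [Matrix.of_apply, Matrix.mul_apply]
      have h5 : L (b i) = (LinearMap.toMatrix' (L : V →ₗ[ℝ] V)).mulVec (b i) := by
        rw [LinearMap.toMatrix'_mulVec]
        rfl
      rw [h5, Matrix.mulVec, dotProduct]
      refine Finset.sum_congr rfl (fun k _ => ?_)
      rw [Matrix.transpose_apply, Matrix.of_apply]
      ring
    unfold dt
    rw [this, Matrix.det_mul, Matrix.det_transpose, LinearMap.det_toMatrix', mul_comm]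
  have hdet : LinearMap.det (L : V →ₗ[ℝ] V) ≠ 0 := (LinearEquiv.isUnit_det' L).ne_zero
  rw [h1, h2, h3, h4, abs_mul, ENNReal.ofReal_mul (abs_nonneg _)]
  apply ENNReal.mul_div_mul_left
  · simpa using hdet
  · exact ENNReal.ofReal_ne_top

end Pool.Agent.H349R2.Tet
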