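import Pool.Agent.H349R2.Tet.Defs

/-!
# Basic facts on three-dimensional lattices in coordinates
-/

namespace Pool.Agent.H349R2.Tet

/-- no nonzero lattice point in the interior of the cuboctahedron
`|x|_∞ ≤ 1, |x|_1 ≤ 2` -/
def Adm (b : Fin 3 → V) : Prop :=
  ∀ u ∈ lat b, u ≠ 0 → (∀ i, |u i| < 1) → 2 ≤ |u 0| + |u 1| + |u 2|

/-- the point `(x,y,z)` is a lattice point -/
def LL (b : Fin 3 → V) (x y z : ℝ) : Prop := ![x, y, z] ∈ lat b

theorem lat_add {b : Fin 3 → V} {x y : V} (hx : x ∈ lat b) (hy : y ∈ lat b) : x + y ∈ lat b := by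
  obtain ⟨z, rfl⟩ := hx
  obtain ⟨w, rfl⟩ := hy
  refine ⟨z + w, ?_⟩
  rw [← Finset.sum_add_distrib]
  refine Finset.sum_congr rfl fun i _ => ?_
  simp [add_smul]

theorem lat_neg {b : Fin 3 → V} {x : V} (hx : x ∈ lat b) : -x ∈ lat b := by
  obtain ⟨z, rfl⟩ := hx
  refine ⟨-z, ?_⟩
  rw [← Finset.sum_neg_distrib]
  refine Finset.sum_congr rfl fun i _ => ?_
  simp

theorem lat_smul {b : Fin 3 → V} {x : V} (m : ℤ) (hx : x ∈ lat b) : (m : ℝ) • x ∈ lat b := by
  obtain ⟨z, rfl⟩ := hx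
  refine ⟨fun i => m * z i, ?_⟩
  rw [Finset.smul_sum]
  refine Finset.sum_congr rfl fun i _ => ?_
  push_cast
  rw [smul_smul]

theorem LL.add {b : Fin 3 → V} {x y z x' y' z' : ℝ} (h : LL b x y z) (h' : LL b x' y' z') :
    LL b (x + x') (y + y') (z + z') := by
  have := lat_add h h'
  simpa [LL, Matrix.cons_add, Matrix.add_cons] using this

theorem LL.neg {b : Fin 3 → V} {x y z : ℝ} (h : LL b x y z) :
    LL b (-x) (-y) (-z) := by
  have := lat_neg h
  simpa [LL] using this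

theorem LL.sub {b : Fin 3 → V} {x y z x' y' z' : ℝ} (h : LL b x y z) (h' : LL b x' y' z') :
    LL b (x - x') (y - y') (z - z') := by
  have := h.add h'.neg
  simpa [sub_eq_add_neg] using this

theorem LL.smul {b : Fin 3 → V} {x y z : ℝ} (m : ℤ) (h : LL b x y z) :
    LL b (m * x) (m * y) (m * z) := by
  have := lat_smul m h
  simpa [LL] using this

theorem LL.congr {b : Fin 3 → V} {x y z x' y' z' : ℝ} (h : LL b x y z) (hx : x = x') (hy : y = y')
    (hz : z = z') : LL b x' y' z' := by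
  subst hx hy hz; exact h

theorem mem_lat_iff {b : Fin 3 → V} {x : V} : x ∈ lat b ↔ LL b (x 0) (x 1) (x 2) := by
  have : ![x 0, x 1, x 2] = x := by
    ext i; fin_cases i <;> rfl
  rw [LL, this]

theorem Adm.ge {b : Fin 3 → V} (hadm : Adm b) {x y z : ℝ} (h : LL b x y z)
    (hne : x ≠ 0 ∨ y ≠ 0 ∨ z ≠ 0) (hx : |x| < 1) (hy : |y| < 1) (hz : |z| < 1) :
    2 ≤ |x| + |y| + |z| := by
  have := hadm ![x, y, z] h ?_ ?_
  · simpa using this
  · intro h0
    have h1 := congrFun h0 0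
    have h2 := congrFun h0 1
    have h3 := congrFun h0 2
    simp at h1 h2 h3
    rcases hne with h | h | h
    · exact h h1
    · exact h h2
    · exact h h3
  · intro i
    fin_cases i <;> simpa

theorem dt_eq (b : Fin 3 → V) : dt b = b 0 0 * b 1 1 * b 2 2 - b 0 0 * b 1 2 * b 2 1
    - b 0 1 * b 1 0 * b 2 2 + b 0 1 * b 1 2 * b 2 0 + b 0 2 * b 1 0 * b 2 1
    - b 0 2 * b 1 1 * b 2 0 := by
  simp [dt, Matrix.det_fin_three]

/-- coordinatewise rescaling of a lattice basis -/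
def rf (ε : V) (b : Fin 3 → V) : Fin 3 → V := fun i j => ε j * b i j

theorem dt_rf (ε : V) (b : Fin 3 → V) : dt (rf ε b) = ε 0 * ε 1 * ε 2 * dt b := by
  rw [dt_eq, dt_eq]
  simp only [rf]
  ring

theorem LL_rf {ε : V} {b : Fin 3 → V} {x y z : ℝ} (h : LL b x y z) :
    LL (rf ε b) (ε 0 * x) (ε 1 * y) (ε 2 * z) := by
  obtain ⟨w, hw⟩ := h
  refine ⟨w, ?_⟩
  have h0 := congrFun hw 0
  have h1 := congrFun hw 1
  have h2 := congrFun hw 2
  simp [Fin.sum_univ_three] at h0 h1 h2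
  ext i
  fin_cases i
  · simp [Fin.sum_univ_three, rf, h0]; ring
  · simp [Fin.sum_univ_three, rf, h1]; ring
  · simp [Fin.sum_univ_three, rf, h2]; ring

theorem rf_rf {ε : V} (hε : ∀ i, ε i * ε i = 1) (b : Fin 3 → V) : rf ε (rf ε b) = b := by
  ext i j
  simp only [rf]
  rw [← mul_assoc, hε, one_mul]

theorem LL_rf_iff {ε : V} (hε : ∀ i, ε i * ε i = 1) {b : Fin 3 → V} {x y z : ℝ} :
    LL (rf ε b) x y z ↔ LL b (ε 0 * x) (ε 1 * y) (ε 2 * z) := by
  constructor
  · intro h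
    have := LL_rf (ε := ε) h
    rwa [rf_rf hε] at this
  · intro h
    have := LL_rf (ε := ε) h
    refine this.congr ?_ ?_ ?_
    · rw [← mul_assoc, hε, one_mul]
    · rw [← mul_assoc, hε, one_mul]
    · rw [← mul_assoc, hε, one_mul]

theorem abs_one_of {a : ℝ} (h : a * a = 1) : |a| = 1 := by
  rcases mul_self_eq_one_iff.mp h with h | h <;> simp [h]

theorem abs_dt_rf {ε : V} (hε : ∀ i, ε i * ε i = 1) (b : Fin 3 → V) :
    |dt (rf ε b)| = |dt b| := by
  rw [dt_rf, abs_mul, abs_mul, abs_mul, abs_one_of (hε 0), abs_one_of (hε 1), abs_one_of (hε 2)]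
  ring

theorem Adm.rf {ε : V} (hε : ∀ i, ε i * ε i = 1) {b : Fin 3 → V} (hadm : Adm b) :
    Adm (rf ε b) := by
  intro u hu hne h1
  rw [mem_lat_iff, LL_rf_iff hε] at hu
  have := hadm.ge hu ?_ ?_ ?_ ?_
  · simpa [abs_mul, abs_one_of (hε 0), abs_one_of (hε 1), abs_one_of (hε 2)] using this
  · by_contra hcon
    push Not at hcon
    apply hne
    have e0 : ∀ i, ε i ≠ 0 := fun i h0 => by simpa [h0] using hε i
    have h0 := (mul_eq_zero.mp hcon.1).resolve_left (e0 0)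
    have h1 := (mul_eq_zero.mp hcon.2.1).resolve_left (e0 1)
    have h2 := (mul_eq_zero.mp hcon.2.2).resolve_left (e0 2)
    ext i; fin_cases i <;> assumption
  · rw [abs_mul, abs_one_of (hε 0), one_mul]; exact h1 0
  · rw [abs_mul, abs_one_of (hε 1), one_mul]; exact h1 1
  · rw [abs_mul, abs_one_of (hε 2), one_mul]; exact h1 2

end Pool.Agent.H349R2.Tet
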