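import Pool.Agent.H349R2.Tet.Defs

/-! BONF: Bonferroni inequality for unit cubes placed at lattice points. -/

namespace Pool.Agent.H349R2.Tet

open MeasureTheory
open scoped ENNReal

theorem bonf_point {G : Type*} [AddCommGroup G] (a : G → ℝ≥0∞) (ha : ∀ g, a g = 0 ∨ a g = 1) :
    2 * ∑' g, a g ≤ 2 + ∑' g, ∑' k, (open Classical in if k = 0 then 0 else a g * a (k + g)) := by
  classical
  by_cases h : ∀ g, a g = 0
  · simp [h]
  · push Not at h
    obtain ⟨g0, hg0⟩ := h
    have h1 : a g0 = 1 := (ha g0).resolve_left hg0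
    set A := ∑' g, ite (g = g0) 0 (a g) with hA
    have e1 : ∑' g, a g = 1 + A := by
      rw [ENNReal.tsum_eq_add_tsum_ite g0, h1]
    set F : G → ℝ≥0∞ := fun g => ∑' k, if k = 0 then 0 else a g * a (k + g) with hF
    have e2 : ∑' g, F g = F g0 + ∑' g, ite (g = g0) 0 (F g) := by
      rw [ENNReal.tsum_eq_add_tsum_ite g0]
    have e3 : F g0 = A := by
      rw [hF, hA]
      simp only [h1, one_mul]
      rw [← (Equiv.addRight g0).tsum_eq (fun g => ite (g = g0) 0 (a g))]
      apply tsum_congr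
      intro k
      simp
    have e4 : A ≤ ∑' g, ite (g = g0) 0 (F g) := by
      rw [hA]
      apply ENNReal.tsum_le_tsum
      intro g
      by_cases hg : g = g0
      · simp [hg]
      · rw [if_neg hg, if_neg hg]
        have h2 := ENNReal.le_tsum (f := fun k => if k = 0 then 0 else a g * a (k + g)) (g0 - g)
        refine le_trans ?_ h2
        have h3 : g0 - g ≠ 0 := sub_ne_zero.mpr (Ne.symm hg)
        simp [h3, h1]
    rw [e1, e2, e3]
    calc 2 * (1 + A) = 2 + (A + A) := by ring
      _ ≤ 2 + (A + ∑' g, ite (g = g0) 0 (F g)) := by gcongr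

/-- the unit cube -/
def Qc : Set V := Set.pi Set.univ (fun _ => Set.Ico (0 : ℝ) 1)

theorem Qc_meas : MeasurableSet Qc := MeasurableSet.univ_pi fun _ => measurableSet_Ico

theorem Qc_vol : volume Qc = 1 := by
  unfold Qc
  rw [Real.volume_pi_Ico]
  simp

theorem Qc_inter (k : V) : volume {y : V | y ∈ Qc ∧ k + y ∈ Qc} =
    ∏ i, ENNReal.ofReal (1 - |k i|) := by
  have h : {y : V | y ∈ Qc ∧ k + y ∈ Qc} =
      Set.pi Set.univ (fun i => Set.Ico (max 0 (-k i)) (min 1 (1 - k i))) := by
    ext y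
    simp only [Set.mem_ofPred_eq, Qc, Set.mem_pi, Set.mem_univ, forall_true_left, Set.mem_Ico,
      Pi.add_apply, max_le_iff, lt_min_iff]
    constructor
    · rintro ⟨h1, h2⟩ i
      have a1 := h1 i
      have a2 := h2 i
      refine ⟨⟨a1.1, by linarith⟩, a1.2, by linarith⟩
    · intro h
      refine ⟨fun i => ⟨(h i).1.1, (h i).2.1⟩, fun i => ⟨by linarith [(h i).1.2], by linarith [(h i).2.2]⟩⟩
  rw [h, Real.volume_pi_Ico]
  apply Finset.prod_congr rfl
  intro i _
  congr 1
  rcases le_total 0 (k i) with hk | hk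
  · rw [abs_of_nonneg hk, min_eq_right (by linarith), max_eq_left (by linarith)]; ring
  · rw [abs_of_nonpos hk, min_eq_left (by linarith), max_eq_right (by linarith)]

theorem bonf (b : Fin 3 → V) (hb : dt b ≠ 0) (P : Finset V)
    (hP : ∀ x ∈ lat b, x ≠ 0 → (∀ i, |x i| < 1) → x ∈ P)
    (hP1 : ∀ x ∈ P, ∀ i, |x i| ≤ 1) :
    1 ≤ |dt b| + (1 / 2) * ∑ x ∈ P, (1 - |x 0|) * (1 - |x 1|) * (1 - |x 2|) := by
  classical
  -- the basis
  have hlin : LinearIndependent ℝ b := by
    have h1 : IsUnit (Matrix.of b) := by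
      rw [Matrix.isUnit_iff_isUnit_det]
      exact isUnit_iff_ne_zero.mpr hb
    have := Matrix.linearIndependent_rows_iff_isUnit.mpr h1
    exact this
  let B : Module.Basis (Fin 3) ℝ V := basisOfLinearIndependentOfCardEqFinrank hlin (by simp)
  have hB : (B : Fin 3 → V) = b := coe_basisOfLinearIndependentOfCardEqFinrank hlin (by simp)
  have hfd := ZSpan.isAddFundamentalDomain B (volume : Measure V)
  have hvol : volume (ZSpan.fundamentalDomain B) = ENNReal.ofReal |dt b| := by
    rw [ZSpan.volume_fundamentalDomain, hB]; rfl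
  set L := Submodule.span ℤ (Set.range B) with hL
  set F := ZSpan.fundamentalDomain B with hF
  have hinv : VAddInvariantMeasure L V volume :=
    inferInstanceAs (VAddInvariantMeasure L.toAddSubgroup V volume)
  have hlat : ∀ x : L, (x : V) ∈ lat b := by
    intro x
    obtain ⟨c, hc⟩ := (Submodule.mem_span_range_iff_exists_fun ℤ).mp x.2
    refine ⟨c, ?_⟩
    rw [← hc, hB]
    apply Finset.sum_congr rfl
    intro i _
    rw [Int.cast_smul_eq_zsmul]
  -- indicator
  let ind : V → ℝ≥0∞ := Qc.indicator (fun _ => 1)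
  have hind_meas : Measurable ind := measurable_const.indicator Qc_meas
  have hind : ∀ y, ind y = 0 ∨ ind y = 1 := by
    intro y
    by_cases hy : y ∈ Qc
    · right; simp [ind, hy]
    · left; simp [ind, hy]
  have hpt : ∀ x : V, 2 * ∑' g : L, ind (g +ᵥ x) ≤
      2 + ∑' g : L, ∑' k : L, (if k = 0 then 0 else ind (g +ᵥ x) * ind ((k + g) +ᵥ x)) := by
    intro x
    have := bonf_point (fun g : L => ind (g +ᵥ x)) (fun g => hind _)
    convert this
  have hm1 : ∀ g : L, Measurable fun x : V => ind (g +ᵥ x) := fun g =>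
    hind_meas.comp (measurable_const_vadd g)
  have hint := lintegral_mono (μ := volume.restrict F) hpt
  have e1 : ∫⁻ x in F, 2 * ∑' g : L, ind (g +ᵥ x) = 2 := by
    rw [lintegral_const_mul _ (Measurable.tsum hm1), lintegral_tsum (fun g => (hm1 g).aemeasurable),
      ← hfd.lintegral_eq_tsum'']
    have : ∫⁻ x, ind x = 1 := by
      simp only [ind]
      rw [lintegral_indicator Qc_meas]
      simp [Qc_vol]
    rw [this, mul_one]
  have e2 : ∫⁻ x in F, (2 + ∑' g : L, ∑' k : L,
      (if k = 0 then 0 else ind (g +ᵥ x) * ind ((k + g) +ᵥ x))) ≤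
      2 * ENNReal.ofReal |dt b| + ∑' k : L, (if k = 0 then 0 else
        volume {y : V | y ∈ Qc ∧ (k : V) + y ∈ Qc}) := by
    rw [lintegral_add_left measurable_const, setLIntegral_const, hvol]
    gcongr
    have hm2 : ∀ (g k : L), Measurable fun x : V =>
        (if k = 0 then 0 else ind (g +ᵥ x) * ind ((k + g) +ᵥ x) : ℝ≥0∞) := by
      intro g k
      split_ifs
      · exact measurable_const
      · exact (hm1 g).mul (hm1 (k + g))
    have hswap : ∀ x : V, ∑' g : L, ∑' k : L,
        (if k = 0 then 0 else ind (g +ᵥ x) * ind ((k + g) +ᵥ x) : ℝ≥0∞) =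
        ∑' k : L, ∑' g : L, (if k = 0 then 0 else ind (g +ᵥ x) * ind ((k + g) +ᵥ x) : ℝ≥0∞) :=
      fun x => ENNReal.tsum_comm
    simp only [hswap]
    rw [lintegral_tsum (fun k => (Measurable.tsum fun g => hm2 g k).aemeasurable)]
    apply ENNReal.tsum_le_tsum
    intro k
    rw [lintegral_tsum (fun g => (hm2 g k).aemeasurable)]
    by_cases hk : k = 0
    · simp [hk]
    · simp only [hk, if_false]
      have h1 : ∀ (g : L), ∫⁻ x in F, ind (g +ᵥ x) * ind ((k + g) +ᵥ x) =
          ∫⁻ x in F, (fun y => ind y * ind (k +ᵥ y)) (g +ᵥ x) := by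
        intro g
        apply lintegral_congr
        intro x
        show _ = ind (g +ᵥ x) * ind (k +ᵥ (g +ᵥ x))
        rw [← add_vadd]
      rw [tsum_congr h1, ← hfd.lintegral_eq_tsum'' (fun y => ind y * ind (k +ᵥ y))]
      have h2 : (fun y : V => ind y * ind (k +ᵥ y)) =
          Set.indicator {y : V | y ∈ Qc ∧ (k : V) + y ∈ Qc} (fun _ => 1) := by
        funext y
        have h3 : (k +ᵥ y : V) = (k : V) + y := rfl
        rw [h3]
        by_cases h4 : y ∈ Qc <;> by_cases h5 : (k : V) + y ∈ Qc <;> simp [ind, h4, h5]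
      rw [h2, lintegral_indicator]
      · simp
      · exact Qc_meas.inter ((measurable_const_add (k : V)) Qc_meas)
  -- the sum over the lattice
  have e3 : ∑' k : L, (if k = 0 then 0 else volume {y : V | y ∈ Qc ∧ (k : V) + y ∈ Qc}) ≤
      ENNReal.ofReal (∑ x ∈ P, (1 - |x 0|) * (1 - |x 1|) * (1 - |x 2|)) := by
    let w : V → ℝ≥0∞ := fun x => if x ∈ P then
      ENNReal.ofReal ((1 - |x 0|) * (1 - |x 1|) * (1 - |x 2|)) else 0
    have h1 : ∀ k : L, (if k = 0 then 0 else volume {y : V | y ∈ Qc ∧ (k : V) + y ∈ Qc}) ≤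
        w (k : V) := by
      intro k
      split_ifs with hk
      · exact zero_le
      · rw [Qc_inter]
        by_cases h2 : ∀ i, |(k : V) i| < 1
        · have hmem := hP k (hlat k) (fun h => hk (Subtype.ext h)) h2
          simp only [w, hmem, if_true]
          rw [← ENNReal.ofReal_prod_of_nonneg (fun i _ => by linarith [h2 i]), Fin.prod_univ_three]
        · push Not at h2
          obtain ⟨i, hi⟩ := h2
          have : ∏ i, ENNReal.ofReal (1 - |(k : V) i|) = 0 := by
            apply Finset.prod_eq_zero (Finset.mem_univ i)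
            rw [ENNReal.ofReal_eq_zero]; linarith
          rw [this]; exact zero_le
    calc ∑' k : L, (if k = 0 then 0 else volume {y : V | y ∈ Qc ∧ (k : V) + y ∈ Qc})
        ≤ ∑' k : L, w (k : V) := ENNReal.tsum_le_tsum h1
      _ ≤ ∑' x : V, w x := ENNReal.tsum_comp_le_tsum_of_injective Subtype.val_injective w
      _ = ∑ x ∈ P, w x := tsum_eq_sum (fun x hx => by simp [w, hx])
      _ = ENNReal.ofReal (∑ x ∈ P, (1 - |x 0|) * (1 - |x 1|) * (1 - |x 2|)) := by
          rw [ENNReal.ofReal_sum_of_nonneg]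
          · apply Finset.sum_congr rfl
            intro x hx
            simp [w, hx]
          · intro x hx
            have a0 := hP1 x hx 0
            have a1 := hP1 x hx 1
            have a2 := hP1 x hx 2
            exact mul_nonneg (mul_nonneg (by linarith) (by linarith)) (by linarith)
  have hsum0 : 0 ≤ ∑ x ∈ P, (1 - |x 0|) * (1 - |x 1|) * (1 - |x 2|) := by
    apply Finset.sum_nonneg
    intro x hx
    have a0 := hP1 x hx 0
    have a1 := hP1 x hx 1
    have a2 := hP1 x hx 2
    exact mul_nonneg (mul_nonneg (by linarith) (by linarith)) (by linarith)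
  have hfin : (2 : ℝ≥0∞) ≤ ENNReal.ofReal (2 * |dt b| +
      ∑ x ∈ P, (1 - |x 0|) * (1 - |x 1|) * (1 - |x 2|)) := by
    rw [ENNReal.ofReal_add (by positivity) hsum0, ENNReal.ofReal_mul (by norm_num)]
    calc (2 : ℝ≥0∞) = ∫⁻ x in F, 2 * ∑' g : L, ind (g +ᵥ x) := e1.symm
      _ ≤ _ := hint
      _ ≤ _ := e2
      _ ≤ _ := by
        gcongr
        simp
  have h2 : (2 : ℝ≥0∞) = ENNReal.ofReal 2 := by simp
  rw [h2, ENNReal.ofReal_le_ofReal_iff (by positivity)] at hfin
  linarith

end Pool.Agent.H349R2.Tet
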