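import Pool.Agent.H349R2.Tet.Basic
import Pool.Agent.H349R2.Tet.Bonf

/-!
# Corner points and the Bonferroni inequality
-/

namespace Pool.Agent.H349R2.Tet

/-- a corner point of sign class `(s0,s1,s2)` with deficits `x,y,z` -/
def Cor (b : Fin 3 → V) (s0 s1 s2 x y z : ℝ) : Prop :=
  LL b (s0 * (1 - x)) (s1 * (1 - y)) (s2 * (1 - z)) ∧ 0 < x ∧ 0 < y ∧ 0 < z ∧ x + y + z ≤ 1

theorem Cor.neg {b : Fin 3 → V} {s0 s1 s2 x y z : ℝ} (h : Cor b s0 s1 s2 x y z) :
    Cor b (-s0) (-s1) (-s2) x y z := by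
  refine ⟨h.1.neg.congr (by ring) (by ring) (by ring), h.2⟩

theorem Cor.uniq {b : Fin 3 → V} (hadm : Adm b) {s0 s1 s2 x y z x' y' z' : ℝ}
    (hs0 : s0 * s0 = 1) (hs1 : s1 * s1 = 1) (hs2 : s2 * s2 = 1)
    (h : Cor b s0 s1 s2 x y z) (h' : Cor b s0 s1 s2 x' y' z') : x = x' ∧ y = y' ∧ z = z' := by
  obtain ⟨h1, hx, hy, hz, hs⟩ := h
  obtain ⟨h1', hx', hy', hz', hs'⟩ := h'
  have h2 : LL b (s0 * (x - x')) (s1 * (y - y')) (s2 * (z - z')) :=
    (h1'.sub h1).congr (by ring) (by ring) (by ring)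
  by_contra hcon
  have ax : |x - x'| < x + x' := by rw [abs_lt]; constructor <;> linarith
  have ay : |y - y'| < y + y' := by rw [abs_lt]; constructor <;> linarith
  have az : |z - z'| < z + z' := by rw [abs_lt]; constructor <;> linarith
  have bx : |x - x'| < 1 := by rw [abs_lt]; constructor <;> linarith
  have bY : |y - y'| < 1 := by rw [abs_lt]; constructor <;> linarith
  have bz : |z - z'| < 1 := by rw [abs_lt]; constructor <;> linarith
  have ex : |s0 * (x - x')| = |x - x'| := by rw [abs_mul, abs_one_of hs0, one_mul]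
  have ey : |s1 * (y - y')| = |y - y'| := by rw [abs_mul, abs_one_of hs1, one_mul]
  have ez : |s2 * (z - z')| = |z - z'| := by rw [abs_mul, abs_one_of hs2, one_mul]
  have n0 : s0 ≠ 0 := fun h0 => by simp [h0] at hs0
  have n1 : s1 ≠ 0 := fun h0 => by simp [h0] at hs1
  have n2 : s2 ≠ 0 := fun h0 => by simp [h0] at hs2
  have := hadm.ge h2 ?_ (by rw [ex]; exact bx) (by rw [ey]; exact bY) (by rw [ez]; exact bz)
  · rw [ex, ey, ez] at this
    linarith
  · by_contra hc
    push Not at hc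
    apply hcon
    refine ⟨?_, ?_, ?_⟩
    · have := (mul_eq_zero.mp hc.1).resolve_left n0; linarith
    · have := (mul_eq_zero.mp hc.2.1).resolve_left n1; linarith
    · have := (mul_eq_zero.mp hc.2.2).resolve_left n2; linarith

theorem amgm3 {x y z : ℝ} (hx : 0 < x) (hy : 0 < y) (hz : 0 < z) (h : x + y + z ≤ 1) :
    x * y * z ≤ 1 / 27 := by
  have h1 : x * y * z ≤ ((x + y + z) / 3) ^ 3 := by
    nlinarith [mul_nonneg hx.le (sq_nonneg (y - z)), mul_nonneg hy.le (sq_nonneg (x - z)),
      mul_nonneg hz.le (sq_nonneg (x - y)), mul_nonneg (add_pos (add_pos hx hy) hz).le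
      (add_nonneg (add_nonneg (sq_nonneg (x - y)) (sq_nonneg (y - z))) (sq_nonneg (x - z)))]
  have h2 : ((x + y + z) / 3) ^ 3 ≤ (1 / 3) ^ 3 := by
    apply pow_le_pow_left₀
    · positivity
    · linarith
  calc x * y * z ≤ _ := h1
    _ ≤ _ := h2
    _ = 1 / 27 := by norm_num

/-- `R` is the weight of the sign class `(s0,s1,s2)` -/
def RC (b : Fin 3 → V) (s0 s1 s2 R : ℝ) : Prop :=
  0 ≤ R ∧ R ≤ 1 / 27 ∧ ((∃ x y z, Cor b s0 s1 s2 x y z) ∨ R = 0) ∧
    ∀ x y z, Cor b s0 s1 s2 x y z → R = x * y * z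

/-- the lattice points of the open cube in a sign class -/
def Ss (b : Fin 3 → V) (s : V) : Set V := {x | x ∈ lat b ∧ ∀ i, 0 < s i * x i ∧ s i * x i < 1}

open Classical in
/-- the lattice point of the open cube in a sign class, if present -/
noncomputable def rp (b : Fin 3 → V) (s : V) : V :=
  if h : (Ss b s).Nonempty then h.some else fun _ => 1

/-- the weight of a point -/
noncomputable def wt (x : V) : ℝ := (1 - |x 0|) * (1 - |x 1|) * (1 - |x 2|)

/-- sign vectors -/
def sv (σ : Bool × Bool × Bool) : V :=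
  ![if σ.1 then 1 else -1, if σ.2.1 then 1 else -1, if σ.2.2 then 1 else -1]

theorem sv_sq (σ : Bool × Bool × Bool) (i : Fin 3) : sv σ i * sv σ i = 1 := by
  obtain ⟨a, b, c⟩ := σ
  fin_cases i <;> cases a <;> cases b <;> cases c <;> simp [sv]

theorem Ss_cor {b : Fin 3 → V} (hadm : Adm b) {s : V} (hs : ∀ i, s i * s i = 1) {x : V}
    (hx : x ∈ Ss b s) : Cor b (s 0) (s 1) (s 2) (1 - s 0 * x 0) (1 - s 1 * x 1) (1 - s 2 * x 2) := by
  obtain ⟨h1, h2⟩ := hx
  have e : ∀ i, s i * (1 - (1 - s i * x i)) = x i := by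
    intro i
    linear_combination (x i) * hs i
  have ab : ∀ i, |x i| = s i * x i := by
    intro i
    have : |s i * x i| = |x i| := by rw [abs_mul, abs_one_of (hs i), one_mul]
    rw [← this, abs_of_pos (h2 i).1]
  have h3 := hadm x h1 ?_ ?_
  · refine ⟨?_, by linarith [(h2 0).2], by linarith [(h2 1).2], by linarith [(h2 2).2], ?_⟩
    · rw [mem_lat_iff] at h1
      exact h1.congr (e 0).symm (e 1).symm (e 2).symm
    · rw [ab 0, ab 1, ab 2] at h3
      linarith
  · intro h0
    have := (h2 0).1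
    simp [h0] at this
  · intro i
    rw [ab i]
    exact (h2 i).2

theorem Ss_subsingleton {b : Fin 3 → V} (hadm : Adm b) {s : V} (hs : ∀ i, s i * s i = 1) {x y : V}
    (hx : x ∈ Ss b s) (hy : y ∈ Ss b s) : x = y := by
  have := (Ss_cor hadm hs hx).uniq hadm (hs 0) (hs 1) (hs 2) (Ss_cor hadm hs hy)
  have n : ∀ i, s i ≠ 0 := fun i h0 => by simpa [h0] using hs i
  obtain ⟨h0, h1, h2⟩ := this
  ext i
  have key : ∀ j, 1 - s j * x j = 1 - s j * y j → x j = y j := by
    intro j hj
    have : s j * x j = s j * y j := by linarith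
    exact mul_left_cancel₀ (n j) this
  fin_cases i
  · exact key 0 h0
  · exact key 1 h1
  · exact key 2 h2

theorem rp_eq {b : Fin 3 → V} (hadm : Adm b) {s : V} (hs : ∀ i, s i * s i = 1) {x : V}
    (hx : x ∈ Ss b s) : rp b s = x := by
  have h : (Ss b s).Nonempty := ⟨x, hx⟩
  rw [rp, dif_pos h]
  exact Ss_subsingleton hadm hs h.some_mem hx

theorem wt_one : wt (fun _ => 1) = 0 := by simp [wt]

theorem wt_rp_nonneg (b : Fin 3 → V) {s : V} (hs : ∀ i, s i * s i = 1) : 0 ≤ wt (rp b s) := by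
  by_cases h : (Ss b s).Nonempty
  · rw [rp, dif_pos h]
    have h2 := h.some_mem.2
    have : ∀ i, |h.some i| < 1 := by
      intro i
      have e : |s i * h.some i| = |h.some i| := by rw [abs_mul, abs_one_of (hs i), one_mul]
      rw [← e, abs_of_pos (h2 i).1]
      exact (h2 i).2
    have h0 := this 0
    have h1 := this 1
    have h2 := this 2
    unfold wt
    have a0 : 0 ≤ 1 - |h.some 0| := by linarith
    have a1 : 0 ≤ 1 - |h.some 1| := by linarith
    have a2 : 0 ≤ 1 - |h.some 2| := by linarith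
    positivity
  · rw [rp, dif_neg h, wt_one]

theorem abs_rp_le (b : Fin 3 → V) {s : V} (hs : ∀ i, s i * s i = 1) (i : Fin 3) :
    |rp b s i| ≤ 1 := by
  by_cases h : (Ss b s).Nonempty
  · rw [rp, dif_pos h]
    have h2 := h.some_mem.2
    have e : |s i * h.some i| = |h.some i| := by rw [abs_mul, abs_one_of (hs i), one_mul]
    rw [← e, abs_of_pos (h2 i).1]
    exact (h2 i).2.le
  · rw [rp, dif_neg h]; simp

theorem Cor_Ss {b : Fin 3 → V} {s : V} (hs : ∀ i, s i * s i = 1) {x y z : ℝ}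
    (h : Cor b (s 0) (s 1) (s 2) x y z) :
    ![s 0 * (1 - x), s 1 * (1 - y), s 2 * (1 - z)] ∈ Ss b s := by
  obtain ⟨h1, hx, hy, hz, hsum⟩ := h
  refine ⟨h1, ?_⟩
  intro i
  fin_cases i
  · have : s 0 * (s 0 * (1 - x)) = 1 - x := by linear_combination (1 - x) * hs 0
    constructor <;> simp [this] <;> linarith
  · have : s 1 * (s 1 * (1 - y)) = 1 - y := by linear_combination (1 - y) * hs 1
    constructor <;> simp [this] <;> linarith
  · have : s 2 * (s 2 * (1 - z)) = 1 - z := by linear_combination (1 - z) * hs 2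
    constructor <;> simp [this] <;> linarith

theorem RC_rp {b : Fin 3 → V} (hadm : Adm b) {s : V} (hs : ∀ i, s i * s i = 1) :
    RC b (s 0) (s 1) (s 2) (wt (rp b s)) := by
  have key : ∀ x y z, Cor b (s 0) (s 1) (s 2) x y z → wt (rp b s) = x * y * z := by
    intro x y z h
    rw [rp_eq hadm hs (Cor_Ss hs h)]
    obtain ⟨h1, hx, hy, hz, hsum⟩ := h
    unfold wt
    have e0 : |s 0 * (1 - x)| = 1 - x := by
      rw [abs_mul, abs_one_of (hs 0), one_mul, abs_of_nonneg (by linarith)]
    have e1 : |s 1 * (1 - y)| = 1 - y := by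
      rw [abs_mul, abs_one_of (hs 1), one_mul, abs_of_nonneg (by linarith)]
    have e2 : |s 2 * (1 - z)| = 1 - z := by
      rw [abs_mul, abs_one_of (hs 2), one_mul, abs_of_nonneg (by linarith)]
    simp only [Matrix.cons_val_zero, Matrix.cons_val_one, Matrix.cons_val]
    rw [e0, e1, e2]
    ring
  refine ⟨wt_rp_nonneg b hs, ?_, ?_, key⟩
  · by_cases h : (Ss b s).Nonempty
    · have := Ss_cor hadm hs h.some_mem
      rw [key _ _ _ this]
      exact amgm3 this.2.1 this.2.2.1 this.2.2.2.1 this.2.2.2.2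
    · rw [rp, dif_neg h, wt_one]; norm_num
  · by_cases h : (Ss b s).Nonempty
    · left
      exact ⟨_, _, _, Ss_cor hadm hs h.some_mem⟩
    · right
      rw [rp, dif_neg h, wt_one]

theorem RC.neg_eq {b : Fin 3 → V} {s0 s1 s2 R R' : ℝ} (h : RC b s0 s1 s2 R)
    (h' : RC b (-s0) (-s1) (-s2) R') : R = R' := by
  obtain ⟨_, _, h3, h4⟩ := h
  obtain ⟨_, _, h3', h4'⟩ := h'
  rcases h3 with ⟨x, y, z, hc⟩ | h3
  · rw [h4 _ _ _ hc, h4' _ _ _ hc.neg]
  · rcases h3' with ⟨x, y, z, hc⟩ | h3'
    · have := hc.neg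
      simp only [neg_neg] at this
      rw [h4' _ _ _ hc, h4 _ _ _ this]
    · rw [h3, h3']

theorem bonf4 (b : Fin 3 → V) (hb : dt b ≠ 0) (hadm : Adm b) :
    ∃ R0 R1 R2 R3 : ℝ, RC b 1 1 1 R0 ∧ RC b (-1) 1 1 R1 ∧ RC b 1 (-1) 1 R2 ∧ RC b 1 1 (-1) R3 ∧
      1 ≤ |dt b| + (R0 + R1 + R2 + R3) := by
  classical
  set P : Finset V := (Finset.univ : Finset (Bool × Bool × Bool)).image (fun σ => rp b (sv σ))
    with hPdef
  have h1 := bonf b hb P ?_ ?_
  · have hsum : ∑ x ∈ P, (1 - |x 0|) * (1 - |x 1|) * (1 - |x 2|)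
        ≤ ∑ σ : Bool × Bool × Bool, wt (rp b (sv σ)) := by
      rw [hPdef]
      have := Finset.sum_image_le_of_nonneg (s := (Finset.univ : Finset (Bool × Bool × Bool)))
        (g := fun σ => rp b (sv σ)) (f := wt) ?_
      · exact this
      · intro u hu
        rw [Finset.mem_image] at hu
        obtain ⟨σ, _, rfl⟩ := hu
        exact wt_rp_nonneg b (sv_sq σ)
    have key := fun σ => RC_rp hadm (sv_sq σ) (b := b)
    have k0 := key (true, true, true)
    have k0' := key (false, false, false)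
    have k1 := key (false, true, true)
    have k1' := key (true, false, false)
    have k2 := key (true, false, true)
    have k2' := key (false, true, false)
    have k3 := key (true, true, false)
    have k3' := key (false, false, true)
    simp only [Fintype.sum_prod_type, Fintype.sum_bool] at hsum
    simp [sv] at k0 k0' k1 k1' k2 k2' k3 k3' hsum
    have e0 := k0.neg_eq k0'
    have e1 := k1.neg_eq (by simpa using k1')
    have e2 := k2.neg_eq (by simpa using k2')
    have e3 := k3.neg_eq (by simpa using k3')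
    refine ⟨_, _, _, _, k0, k1, k2, k3, ?_⟩
    linarith
  · intro x hx hne hlt
    have hge := hadm x hx hne hlt
    have h0 := hlt 0
    have h1 := hlt 1
    have h2 := hlt 2
    rw [hPdef, Finset.mem_image]
    refine ⟨(decide (0 < x 0), decide (0 < x 1), decide (0 < x 2)), Finset.mem_univ _, ?_⟩
    apply rp_eq hadm (sv_sq _)
    refine ⟨hx, ?_⟩
    have habs : ∀ t : ℝ, 0 < |t| → |t| < 1 → 0 < (if decide (0 < t) = true then 1 else -1) * t ∧
        (if decide (0 < t) = true then 1 else -1) * t < 1 := by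
      intro t ht ht1
      rcases lt_or_ge 0 t with h | h
      · simp only [h, decide_true, if_true, one_mul, true_and]
        rwa [abs_of_pos h] at ht1
      · have h' : ¬ (0 < t) := not_lt.mpr h
        simp only [h', decide_false, Bool.false_eq_true, if_false]
        rw [abs_of_nonpos h] at ht ht1
        constructor <;> linarith
    intro i
    fin_cases i
    · exact habs (x 0) (by linarith) h0
    · exact habs (x 1) (by linarith) h1
    · exact habs (x 2) (by linarith) h2
  · intro x hx i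
    rw [hPdef, Finset.mem_image] at hx
    obtain ⟨σ, _, rfl⟩ := hx
    exact abs_rp_le b (sv_sq σ) i

end Pool.Agent.H349R2.Tet
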