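import Pool.Agent.H349R2.Tet.Corner1

/-!
# Three corner points: the index of the sublattice they generate
-/

namespace Pool.Agent.H349R2.Tet

/-! ### real inequalities for `D0` -/

theorem D0_ge (n1 n2 n3 o12 o13 o21 o23 o31 o32 : ℝ)
    (hn1 : 0 ≤ n1) (hn2 : 0 ≤ n2) (hn3 : 0 ≤ n3) (h12 : 0 ≤ o12) (h13 : 0 ≤ o13)
    (h21 : 0 ≤ o21) (h23 : 0 ≤ o23) (h31 : 0 ≤ o31) (h32 : 0 ≤ o32)
    (hr1 : n1 + o12 + o13 ≤ 1) (hr2 : n2 + o21 + o23 ≤ 1) (hr3 : n3 + o31 + o32 ≤ 1) :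
    2 * n1 * n2 * n3 ≤ D0 n1 n2 n3 o12 o13 o21 o23 o31 o32 := by
  obtain ⟨s1, hs1⟩ : ∃ s, s = 1 - n1 - o12 - o13 := ⟨_, rfl⟩
  obtain ⟨s2, hs2⟩ : ∃ s, s = 1 - n2 - o21 - o23 := ⟨_, rfl⟩
  obtain ⟨s3, hs3⟩ : ∃ s, s = 1 - n3 - o31 - o32 := ⟨_, rfl⟩
  have p1 : 0 ≤ s1 := by linarith
  have p2 : 0 ≤ s2 := by linarith
  have p3 : 0 ≤ s3 := by linarith
  have e1 : 1 - n1 = s1 + o12 + o13 := by linarith
  have e2 : 1 - n2 = s2 + o21 + o23 := by linarith
  have e3 : 1 - n3 = s3 + o31 + o32 := by linarith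
  have e12 : 1 - o12 = s1 + n1 + o13 := by linarith
  have e13 : 1 - o13 = s1 + n1 + o12 := by linarith
  have e21 : 1 - o21 = s2 + n2 + o23 := by linarith
  have e23 : 1 - o23 = s2 + n2 + o21 := by linarith
  have e31 : 1 - o31 = s3 + n3 + o32 := by linarith
  have e32 : 1 - o32 = s3 + n3 + o31 := by linarith
  unfold D0
  rw [e1, e2, e3, e12, e13, e21, e23, e31, e32]
  rw [← sub_nonneg]
  ring_nf
  positivity

theorem D0_le (n1 n2 n3 o12 o13 o21 o23 o31 o32 : ℝ)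
    (hn1 : 0 ≤ n1) (hn2 : 0 ≤ n2) (hn3 : 0 ≤ n3) (h12 : 0 ≤ o12) (h13 : 0 ≤ o13)
    (h21 : 0 ≤ o21) (h23 : 0 ≤ o23) (h31 : 0 ≤ o31) (h32 : 0 ≤ o32)
    (hr1 : n1 + o12 + o13 ≤ 1) (hr2 : n2 + o21 + o23 ≤ 1) (hr3 : n3 + o31 + o32 ≤ 1) :
    D0 n1 n2 n3 o12 o13 o21 o23 o31 o32 ≤ 4 := by
  obtain ⟨s1, hs1⟩ : ∃ s, s = 1 - n1 - o12 - o13 := ⟨_, rfl⟩
  obtain ⟨s2, hs2⟩ : ∃ s, s = 1 - n2 - o21 - o23 := ⟨_, rfl⟩
  obtain ⟨s3, hs3⟩ : ∃ s, s = 1 - n3 - o31 - o32 := ⟨_, rfl⟩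
  have p1 : 0 ≤ s1 := by linarith
  have p2 : 0 ≤ s2 := by linarith
  have p3 : 0 ≤ s3 := by linarith
  have e1 : 1 - n1 = s1 + o12 + o13 := by linarith
  have e2 : 1 - n2 = s2 + o21 + o23 := by linarith
  have e3 : 1 - n3 = s3 + o31 + o32 := by linarith
  have e12 : 1 - o12 = s1 + n1 + o13 := by linarith
  have e13 : 1 - o13 = s1 + n1 + o12 := by linarith
  have e21 : 1 - o21 = s2 + n2 + o23 := by linarith
  have e23 : 1 - o23 = s2 + n2 + o21 := by linarith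
  have e31 : 1 - o31 = s3 + n3 + o32 := by linarith
  have e32 : 1 - o32 = s3 + n3 + o31 := by linarith
  have e4 : (4 : ℝ) = 4 * ((n1 + o12 + o13 + s1) * (n2 + o21 + o23 + s2) * (n3 + o31 + o32 + s3)) := by
    have f1 : n1 + o12 + o13 + s1 = 1 := by linarith
    have f2 : n2 + o21 + o23 + s2 = 1 := by linarith
    have f3 : n3 + o31 + o32 + s3 = 1 := by linarith
    rw [f1, f2, f3]; norm_num
  unfold D0
  rw [e1, e2, e3, e12, e13, e21, e23, e31, e32]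
  rw [e4, ← sub_nonneg]
  ring_nf
  positivity

theorem lemC (n1 n2 n3 o12 o13 o21 o23 o31 o32 : ℝ)
    (hn1 : 0 ≤ n1) (hn2 : 0 ≤ n2) (hn3 : 0 ≤ n3) (h12 : 0 ≤ o12) (h13 : 0 ≤ o13)
    (h21 : 0 ≤ o21) (h23 : 0 ≤ o23) (h31 : 0 ≤ o31) (h32 : 0 ≤ o32)
    (hr1 : n1 + o12 + o13 ≤ 1) (hr2 : n2 + o21 + o23 ≤ 1) (hr3 : n3 + o31 + o32 ≤ 1)
    (hY : o12 + o13 + o21 + o23 + o31 + o32 ≤ 1) :
    1 ≤ D0 n1 n2 n3 o12 o13 o21 o23 o31 o32 := by
  -- E1 + E2 >= 1
  have q12 : o12 ≤ 1 := by linarith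
  have q13 : o13 ≤ 1 := by linarith
  have q21 : o21 ≤ 1 := by linarith
  have q23 : o23 ≤ 1 := by linarith
  have q31 : o31 ≤ 1 := by linarith
  have q32 : o32 ≤ 1 := by linarith
  have prod3 : ∀ a b c : ℝ, 0 ≤ a → 0 ≤ b → 0 ≤ c → a ≤ 1 → b ≤ 1 → c ≤ 1 →
      1 - a - b - c ≤ (1 - a) * (1 - b) * (1 - c) := by
    intro a b c ha hb hc ha1 hb1 hc1
    nlinarith [mul_nonneg ha hb, mul_nonneg (mul_nonneg ha hb) (sub_nonneg.mpr hc1),
      mul_nonneg ha hc, mul_nonneg hb hc]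
  have E1 := prod3 o12 o23 o31 h12 h23 h31 q12 q23 q31
  have E2 := prod3 o13 o21 o32 h13 h21 h32 q13 q21 q32
  have m1 : 0 ≤ 1 - n1 := by linarith
  have m2 : 0 ≤ 1 - n2 := by linarith
  have m3 : 0 ≤ 1 - n3 := by linarith
  have w1 : 1 - o23 - o32 ≤ (1 - o23) * (1 - o32) := by nlinarith [mul_nonneg h23 h32]
  have w2 : 1 - o13 - o31 ≤ (1 - o13) * (1 - o31) := by nlinarith [mul_nonneg h13 h31]
  have w3 : 1 - o12 - o21 ≤ (1 - o12) * (1 - o21) := by nlinarith [mul_nonneg h12 h21]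
  have k1 := mul_le_mul_of_nonneg_left w1 m1
  have k2 := mul_le_mul_of_nonneg_left w2 m2
  have k3 := mul_le_mul_of_nonneg_left w3 m3
  have key : (1 - n1) * (1 - n2) * (1 - n3) ≤ (1 - n1) * (1 - o23 - o32)
      + (1 - n2) * (1 - o13 - o31) + (1 - n3) * (1 - o12 - o21) := by
    -- minimum of the three
    have aux : ∀ a b c x y z : ℝ, 0 ≤ a → a ≤ 1 → 0 ≤ b → b ≤ 1 → 0 ≤ c → c ≤ 1 → a ≤ b → a ≤ c →
        x ≤ 1 → y ≤ 1 → z ≤ 1 → x + y + z ≤ 1 →
        a * b * c ≤ a * (1 - x) + b * (1 - y) + c * (1 - z) := by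
      intro a b c x y z ha ha1 hb hb1 hc hc1 hab hac hx hy hz hs
      have h1 : a * b * c ≤ a := by
        have h0 : b * c ≤ 1 := mul_le_one₀ hb1 hc hc1
        have := mul_le_mul_of_nonneg_left h0 ha
        linarith
      have h2 := mul_nonneg (sub_nonneg.mpr hab) (sub_nonneg.mpr hy)
      have h3 := mul_nonneg (sub_nonneg.mpr hac) (sub_nonneg.mpr hz)
      have h4 := mul_nonneg ha (sub_nonneg.mpr hs)
      linarith
    rcases le_total n1 n2 with a | a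
    · rcases le_total n2 n3 with c | c
      · have := aux (1 - n3) (1 - n2) (1 - n1) (o12 + o21) (o13 + o31) (o23 + o32) m3 (by linarith) m2
          (by linarith) m1 (by linarith) (by linarith) (by linarith) (by linarith) (by linarith)
          (by linarith) (by linarith)
        linarith
      · have := aux (1 - n2) (1 - n1) (1 - n3) (o13 + o31) (o23 + o32) (o12 + o21) m2 (by linarith) m1
          (by linarith) m3 (by linarith) (by linarith) (by linarith) (by linarith) (by linarith)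
          (by linarith) (by linarith)
        linarith
    · rcases le_total n1 n3 with c | c
      · have := aux (1 - n3) (1 - n2) (1 - n1) (o12 + o21) (o13 + o31) (o23 + o32) m3 (by linarith) m2
          (by linarith) m1 (by linarith) (by linarith) (by linarith) (by linarith) (by linarith)
          (by linarith) (by linarith)
        linarith
      · have := aux (1 - n1) (1 - n2) (1 - n3) (o23 + o32) (o13 + o31) (o12 + o21) m1 (by linarith) m2
          (by linarith) m3 (by linarith) (by linarith) (by linarith) (by linarith) (by linarith)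
          (by linarith) (by linarith)
        linarith
  unfold D0
  linarith

/-- used for the exclusion of index three -/
theorem flip_ineq (n1 n2 n3 o12 o13 o21 o23 o31 o32 : ℝ)
    (hn1 : 0 < n1) (hn2 : 0 < n2) (hn3 : 0 < n3) (h12 : 0 < o12) (h13 : 0 < o13)
    (h21 : 0 < o21) (h23 : 0 < o23) (h31 : 0 < o31) (h32 : 0 < o32)
    (hr1 : n1 + o12 + o13 ≤ 1) (hr2 : n2 + o21 + o23 ≤ 1) (hr3 : n3 + o31 + o32 ≤ 1)
    (hS : 1 / 18 - 1 / 1000 ≤ n1 * o12 * o13 + n2 * o21 * o23 + n3 * o31 * o32) :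
    |3 - n1 - o21 - o31| + |-1 + o12 + n2 - o32| + |-1 + o13 - o23 + n3| < 6 := by
  have key : o32 + o23 - n2 - o21 - n3 - o31 - n1 - o12 - o13 < 1 := by
    by_contra hcon
    push Not at hcon
    have t1 : n1 * o12 * o13 ≤ (n1 + o12 + o13) / 27 := by
      have h := amgm3 hn1 h12 h13 hr1
      have hh : n1 * o12 * o13 ≤ ((n1 + o12 + o13) / 3) ^ 3 := by
        nlinarith [mul_nonneg hn1.le (sq_nonneg (o12 - o13)), mul_nonneg h12.le (sq_nonneg (n1 - o13)),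
          mul_nonneg h13.le (sq_nonneg (n1 - o12)),
          mul_nonneg (add_pos (add_pos hn1 h12) h13).le
          (add_nonneg (add_nonneg (sq_nonneg (n1 - o12)) (sq_nonneg (o12 - o13)))
            (sq_nonneg (n1 - o13)))]
      have h2 : ((n1 + o12 + o13) / 3) ^ 3 ≤ (n1 + o12 + o13) / 27 := by
        have hρ : 0 ≤ n1 + o12 + o13 := by positivity
        have : (n1 + o12 + o13) ^ 3 ≤ (n1 + o12 + o13) := by
          have := pow_le_one₀ hρ hr1 (n := 2)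
          nlinarith
        nlinarith
      linarith
    have aux : ∀ a b c : ℝ, 0 < a → 0 < b → 0 < c → a + b + c ≤ 1 →
        a * b * c ≤ (a + b) / 16 := by
      intro a b c ha hb hc h
      have h1 : 4 * (a * b) ≤ (a + b) ^ 2 := by nlinarith [sq_nonneg (a - b)]
      have h2 : 4 * (a * b * c) ≤ (a + b) ^ 2 * (1 - (a + b)) := by
        have : 4 * (a * b) * c ≤ (a + b) ^ 2 * (1 - (a + b)) := by
          apply mul_le_mul h1 (by linarith) hc.le (by positivity)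
        linarith
      have h3 : (a + b) * (1 - (a + b)) ≤ 1 / 4 := by nlinarith [sq_nonneg (a + b - 1 / 2)]
      have h4 : (a + b) ^ 2 * (1 - (a + b)) ≤ (a + b) * (1 / 4) := by
        have := mul_le_mul_of_nonneg_left h3 (by positivity : 0 ≤ a + b)
        nlinarith
      linarith
    have t2 := aux n2 o21 o23 hn2 h21 h23 hr2
    have t3 := aux n3 o31 o32 hn3 h31 h32 hr3
    linarith
  have p1 : 0 < 3 - n1 - o21 - o31 := by linarith
  rw [abs_of_pos p1]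
  rcases abs_cases (-1 + o12 + n2 - o32) with ⟨e1, _⟩ | ⟨e1, _⟩ <;>
  rcases abs_cases (-1 + o13 - o23 + n3) with ⟨e2, _⟩ | ⟨e2, _⟩ <;>
  rw [e1, e2] <;> linarith

end Pool.Agent.H349R2.Tet
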