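import Pool.Agent.H349R2.Tet.Defs

/-! INDEX: integer determinant and a mod `q` relation. -/

namespace Pool.Agent.H349R2.Tet

open MeasureTheory

theorem index_lemma (b p : Fin 3 → V) (hp : ∀ i, p i ∈ lat b) :
    ∃ m : ℤ, dt p = m * dt b ∧
      ∀ q : ℕ, q.Prime → (q : ℤ) ∣ m →
        ∃ θ : Fin 3 → ℤ, (∃ i, ¬ (q : ℤ) ∣ θ i) ∧
          (∑ i, ((θ i : ℝ) / (q : ℝ)) • p i) ∈ lat b := by
  choose Z hZ using hp
  let M : Matrix (Fin 3) (Fin 3) ℤ := Matrix.of Z
  have hmat : Matrix.of p = (M.map (fun z : ℤ => (z : ℝ))) * Matrix.of b := by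
    ext i j
    rw [Matrix.mul_apply, Matrix.of_apply, hZ i]
    simp [M, Finset.sum_apply]
  refine ⟨M.det, ?_, ?_⟩
  · unfold dt
    rw [hmat, Matrix.det_mul]
    congr 1
    have := (Int.castRingHom ℝ).map_det M
    simpa using this.symm
  · intro q hq hdvd
    have : Fact q.Prime := ⟨hq⟩
    let N : Matrix (Fin 3) (Fin 3) (ZMod q) := M.map (fun z : ℤ => (z : ZMod q))
    have hdet : N.det = 0 := by
      have h1 := (Int.castRingHom (ZMod q)).map_det M
      have h2 : ((M.det : ℤ) : ZMod q) = 0 := (ZMod.intCast_zmod_eq_zero_iff_dvd _ _).mpr hdvd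
      have h3 : N.det = ((M.det : ℤ) : ZMod q) := by simpa using h1.symm
      rw [h3, h2]
    obtain ⟨v, hv0, hv⟩ := Matrix.exists_vecMul_eq_zero_iff.mpr hdet
    let θ : Fin 3 → ℤ := fun i => ((v i).val : ℤ)
    have hθ : ∀ i, ((θ i : ℤ) : ZMod q) = v i := by
      intro i
      simp [θ]
    refine ⟨θ, ?_, ?_⟩
    · by_contra hcon
      push Not at hcon
      apply hv0
      funext i
      rw [← hθ i]
      exact (ZMod.intCast_zmod_eq_zero_iff_dvd _ _).mpr (hcon i)
    · have hdiv : ∀ j, (q : ℤ) ∣ ∑ i, θ i * Z i j := by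
        intro j
        rw [← ZMod.intCast_zmod_eq_zero_iff_dvd]
        have h1 := congrFun hv j
        rw [Matrix.vecMul, dotProduct] at h1
        push_cast
        simp only [hθ]
        simpa [N, M] using h1
      choose w hw using hdiv
      refine ⟨w, ?_⟩
      have hq0 : (q : ℝ) ≠ 0 := by exact_mod_cast hq.ne_zero
      funext k
      simp only [Finset.sum_apply, Pi.smul_apply, smul_eq_mul]
      have h1 : ∀ i, p i k = ∑ j, (Z i j : ℝ) * b j k := by
        intro i
        rw [hZ i]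
        simp [Finset.sum_apply]
      simp only [h1]
      have h2 : ∀ j, ((w j : ℤ) : ℝ) = (∑ i, (θ i : ℝ) * (Z i j : ℝ)) / q := by
        intro j
        have h3 : ((∑ i, θ i * Z i j : ℤ) : ℝ) = ((q : ℤ) * w j : ℤ) := by rw [hw j]
        push_cast at h3
        rw [h3]
        field_simp
      simp only [h2, Finset.mul_sum, Finset.sum_div, Finset.sum_mul]
      rw [Finset.sum_comm]
      apply Finset.sum_congr rfl
      intro j _
      apply Finset.sum_congr rfl
      intro i _
      ring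

end Pool.Agent.H349R2.Tet
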