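import Pool.Agent.H349R2.Tet.Corner2
import Pool.Agent.H349R2.Tet.Index

/-!
# Three corner points: the index is 1 or 2
-/

namespace Pool.Agent.H349R2.Tet

theorem Adm.absurd {b : Fin 3 → V} (hadm : Adm b) {x y z : ℝ} (h : LL b x y z)
    (hne : x ≠ 0 ∨ y ≠ 0 ∨ z ≠ 0) (hx : |x| < 1) (hy : |y| < 1) (hz : |z| < 1)
    (hs : |x| + |y| + |z| < 2) : False := by
  have := hadm.ge h hne hx hy hz
  linarith

theorem idx (b : Fin 3 → V) {x1 y1 z1 x2 y2 z2 x3 y3 z3 : ℝ} (h1 : LL b x1 y1 z1)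
    (h2 : LL b x2 y2 z2) (h3 : LL b x3 y3 z3) :
    ∃ m : ℤ, x1 * y2 * z3 - x1 * z2 * y3 - y1 * x2 * z3 + y1 * z2 * x3 + z1 * x2 * y3
        - z1 * y2 * x3 = m * dt b ∧
      ∀ q : ℕ, q.Prime → (q : ℤ) ∣ m →
        ∃ t1 t2 t3 : ℤ, (¬ (q : ℤ) ∣ t1 ∨ ¬ (q : ℤ) ∣ t2 ∨ ¬ (q : ℤ) ∣ t3) ∧
          LL b ((t1 * x1 + t2 * x2 + t3 * x3) / q) ((t1 * y1 + t2 * y2 + t3 * y3) / q)
            ((t1 * z1 + t2 * z2 + t3 * z3) / q) := by
  obtain ⟨m, hm, hq⟩ := index_lemma b ![![x1, y1, z1], ![x2, y2, z2], ![x3, y3, z3]] (by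
    intro i; fin_cases i
    · exact h1
    · exact h2
    · exact h3)
  refine ⟨m, ?_, ?_⟩
  · rw [← hm, dt_eq]
    simp
  · intro q hp hdiv
    obtain ⟨θ, hθ, hmem⟩ := hq q hp hdiv
    refine ⟨θ 0, θ 1, θ 2, ?_, ?_⟩
    · obtain ⟨i, hi⟩ := hθ
      fin_cases i
      · exact Or.inl hi
      · exact Or.inr (Or.inl hi)
      · exact Or.inr (Or.inr hi)
    · rw [mem_lat_iff] at hmem
      simp only [Fin.sum_univ_three, Pi.add_apply, Pi.smul_apply, smul_eq_mul,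
        Matrix.cons_val_zero, Matrix.cons_val_one, Matrix.cons_val] at hmem
      exact hmem.congr (by ring) (by ring) (by ring)

theorem idx_two {b : Fin 3 → V} {x1 y1 z1 x2 y2 z2 x3 y3 z3 : ℝ} (h1 : LL b x1 y1 z1)
    (h2 : LL b x2 y2 z2) (h3 : LL b x3 y3 z3) {t1 t2 t3 : ℤ}
    (ht : ¬ (2 : ℤ) ∣ t1 ∨ ¬ (2 : ℤ) ∣ t2 ∨ ¬ (2 : ℤ) ∣ t3)
    (h : LL b ((t1 * x1 + t2 * x2 + t3 * x3) / 2) ((t1 * y1 + t2 * y2 + t3 * y3) / 2)
            ((t1 * z1 + t2 * z2 + t3 * z3) / 2)) :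
    ∃ e1 e2 e3 : ℝ, (e1 = 0 ∨ e1 = 1) ∧ (e2 = 0 ∨ e2 = 1) ∧ (e3 = 0 ∨ e3 = 1) ∧
      (e1 ≠ 0 ∨ e2 ≠ 0 ∨ e3 ≠ 0) ∧
      LL b ((e1 * x1 + e2 * x2 + e3 * x3) / 2) ((e1 * y1 + e2 * y2 + e3 * y3) / 2)
            ((e1 * z1 + e2 * z2 + e3 * z3) / 2) := by
  have key : ∀ t : ℤ, ∃ k e : ℤ, t = 2 * k + e ∧ (e = 0 ∨ e = 1) ∧ (¬ (2 : ℤ) ∣ t → e ≠ 0) := by
    intro t
    refine ⟨t / 2, t % 2, (Int.mul_ediv_add_emod t 2).symm, Int.emod_two_eq_zero_or_one t, ?_⟩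
    intro h h0
    exact h (Int.dvd_of_emod_eq_zero h0)
  obtain ⟨k1, e1, r1, c1, d1⟩ := key t1
  obtain ⟨k2, e2, r2, c2, d2⟩ := key t2
  obtain ⟨k3, e3, r3, c3, d3⟩ := key t3
  refine ⟨e1, e2, e3, by exact_mod_cast c1, by exact_mod_cast c2, by exact_mod_cast c3, ?_, ?_⟩
  · rcases ht with ht | ht | ht
    · left; exact_mod_cast d1 ht
    · right; left; exact_mod_cast d2 ht
    · right; right; exact_mod_cast d3 ht
  · have := ((h.sub (h1.smul k1)).sub (h2.smul k2)).sub (h3.smul k3)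
    refine this.congr ?_ ?_ ?_ <;>
    · rw [r1, r2, r3]; push_cast; ring

theorem idx_three {b : Fin 3 → V} {x1 y1 z1 x2 y2 z2 x3 y3 z3 : ℝ} (h1 : LL b x1 y1 z1)
    (h2 : LL b x2 y2 z2) (h3 : LL b x3 y3 z3) {t1 t2 t3 : ℤ}
    (ht : ¬ (3 : ℤ) ∣ t1 ∨ ¬ (3 : ℤ) ∣ t2 ∨ ¬ (3 : ℤ) ∣ t3)
    (h : LL b ((t1 * x1 + t2 * x2 + t3 * x3) / 3) ((t1 * y1 + t2 * y2 + t3 * y3) / 3)
            ((t1 * z1 + t2 * z2 + t3 * z3) / 3)) :
    ∃ e1 e2 e3 : ℝ, (e1 = 0 ∨ e1 = 1 ∨ e1 = -1) ∧ (e2 = 0 ∨ e2 = 1 ∨ e2 = -1) ∧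
      (e3 = 0 ∨ e3 = 1 ∨ e3 = -1) ∧ (e1 ≠ 0 ∨ e2 ≠ 0 ∨ e3 ≠ 0) ∧
      LL b ((e1 * x1 + e2 * x2 + e3 * x3) / 3) ((e1 * y1 + e2 * y2 + e3 * y3) / 3)
            ((e1 * z1 + e2 * z2 + e3 * z3) / 3) := by
  have key : ∀ t : ℤ, ∃ k e : ℤ, t = 3 * k + e ∧ (e = 0 ∨ e = 1 ∨ e = -1) ∧
      (¬ (3 : ℤ) ∣ t → e ≠ 0) := by
    intro t
    have hmod : t % 3 = 0 ∨ t % 3 = 1 ∨ t % 3 = 2 := by omega
    rcases hmod with h | h | h
    · exact ⟨t / 3, 0, by omega, by simp, fun h' => absurd (Int.dvd_of_emod_eq_zero h) h'⟩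
    · exact ⟨t / 3, 1, by omega, by simp, fun _ => by norm_num⟩
    · exact ⟨t / 3 + 1, -1, by omega, by simp, fun _ => by norm_num⟩
  obtain ⟨k1, e1, r1, c1, d1⟩ := key t1
  obtain ⟨k2, e2, r2, c2, d2⟩ := key t2
  obtain ⟨k3, e3, r3, c3, d3⟩ := key t3
  refine ⟨e1, e2, e3, by exact_mod_cast c1, by exact_mod_cast c2, by exact_mod_cast c3, ?_, ?_⟩
  · rcases ht with ht | ht | ht
    · left; exact_mod_cast d1 ht
    · right; left; exact_mod_cast d2 ht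
    · right; right; exact_mod_cast d3 ht
  · have := ((h.sub (h1.smul k1)).sub (h2.smul k2)).sub (h3.smul k3)
    refine this.congr ?_ ?_ ?_ <;>
    · rw [r1, r2, r3]; push_cast; ring

section

variable {b : Fin 3 → V} (hadm : Adm b) {n1 n2 n3 o12 o13 o21 o23 o31 o32 : ℝ}
  (h1 : Cor b (-1) 1 1 n1 o12 o13) (h2 : Cor b 1 (-1) 1 o21 n2 o23)
  (h3 : Cor b 1 1 (-1) o31 o32 n3)

include hadm in
/-- the half of a corner is not a lattice point -/
theorem half_one {s0 s1 s2 x y z : ℝ} (hs0 : s0 * s0 = 1) (hs1 : s1 * s1 = 1)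
    (hs2 : s2 * s2 = 1) (h : 0 < x ∧ 0 < y ∧ 0 < z ∧ x + y + z ≤ 1)
    (h' : LL b (s0 * (1 - x) / 2) (s1 * (1 - y) / 2) (s2 * (1 - z) / 2)) : False := by
  obtain ⟨hx, hy, hz, hs⟩ := h
  have e : ∀ s t : ℝ, s * s = 1 → t < 1 → |s * (1 - t) / 2| = (1 - t) / 2 := by
    intro s t hs ht
    rw [abs_div, abs_mul, abs_one_of hs, one_mul, abs_of_pos (by linarith)]
    norm_num
  have e0 := e s0 x hs0 (by linarith)
  have e1 := e s1 y hs1 (by linarith)
  have e2 := e s2 z hs2 (by linarith)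
  refine hadm.absurd h' ?_ ?_ ?_ ?_ ?_
  · left
    intro h0
    rw [h0, abs_zero] at e0
    linarith
  · rw [e0]; linarith
  · rw [e1]; linarith
  · rw [e2]; linarith
  · rw [e0, e1, e2]; linarith

include hadm in
theorem half_combo
    (q1 : 0 < n1 ∧ 0 < o12 ∧ 0 < o13 ∧ n1 + o12 + o13 ≤ 1)
    (q2 : 0 < o21 ∧ 0 < n2 ∧ 0 < o23 ∧ o21 + n2 + o23 ≤ 1)
    {e1 e2 : ℝ} (c1 : e1 = 0 ∨ e1 = 1) (c2 : e2 = 0 ∨ e2 = 1) (hne : e1 ≠ 0 ∨ e2 ≠ 0)
    (h : LL b ((e1 * (-(1 - n1)) + e2 * (1 - o21)) / 2) ((e1 * (1 - o12) + e2 * (-(1 - n2))) / 2)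
      ((e1 * (1 - o13) + e2 * (1 - o23)) / 2)) : False := by
  rcases c1 with rfl | rfl <;> rcases c2 with rfl | rfl
  · simp at hne
  · exact half_one hadm (s0 := 1) (s1 := -1) (s2 := 1) (by norm_num) (by norm_num) (by norm_num) q2
      (h.congr (by ring) (by ring) (by ring))
  · exact half_one hadm (s0 := -1) (s1 := 1) (s2 := 1) (by norm_num) (by norm_num) (by norm_num) q1
      (h.congr (by ring) (by ring) (by ring))
  · have h' : LL b ((n1 - o21) / 2) ((n2 - o12) / 2) ((2 - o13 - o23) / 2) :=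
      h.congr (by ring) (by ring) (by ring)
    obtain ⟨a1, a2, a3, a4⟩ := q1
    obtain ⟨b1, b2, b3, b4⟩ := q2
    have i1 : |(n1 - o21) / 2| < 1 / 2 := by rw [abs_lt]; constructor <;> linarith
    have i2 : |(n2 - o12) / 2| < 1 / 2 := by rw [abs_lt]; constructor <;> linarith
    have i3 : |(2 - o13 - o23) / 2| < 1 := by rw [abs_lt]; constructor <;> linarith
    refine hadm.absurd h' ?_ (by linarith) (by linarith) i3 (by linarith)
    right; right
    have : 0 < (2 - o13 - o23) / 2 := by linarith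
    exact this.ne'

include hadm in
/-- half-integral combinations -/
theorem half_triple
    (q1 : 0 < n1 ∧ 0 < o12 ∧ 0 < o13 ∧ n1 + o12 + o13 ≤ 1)
    (q2 : 0 < o21 ∧ 0 < n2 ∧ 0 < o23 ∧ o21 + n2 + o23 ≤ 1)
    (q3 : 0 < o31 ∧ 0 < o32 ∧ 0 < n3 ∧ o31 + o32 + n3 ≤ 1)
    {e1 e2 e3 : ℝ} (c1 : e1 = 0 ∨ e1 = 1) (c2 : e2 = 0 ∨ e2 = 1) (c3 : e3 = 0 ∨ e3 = 1)
    (hne : e1 ≠ 0 ∨ e2 ≠ 0 ∨ e3 ≠ 0)
    (h : LL b ((e1 * (-(1 - n1)) + e2 * (1 - o21) + e3 * (1 - o31)) / 2)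
      ((e1 * (1 - o12) + e2 * (-(1 - n2)) + e3 * (1 - o32)) / 2)
      ((e1 * (1 - o13) + e2 * (1 - o23) + e3 * (-(1 - n3))) / 2)) :
    LL b ((1 + n1 - o21 - o31) / 2) ((1 + n2 - o12 - o32) / 2) ((1 + n3 - o13 - o23) / 2) := by
  rcases c3 with rfl | rfl
  · exfalso
    refine half_combo hadm q1 q2 c1 c2 ?_ (h.congr (by ring) (by ring) (by ring))
    rcases hne with h | h | h
    · exact Or.inl h
    · exact Or.inr h
    · simp at h
  · obtain ⟨a1, a2, a3, a4⟩ := q1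
    obtain ⟨b1, b2, b3, b4⟩ := q2
    rcases c1 with rfl | rfl <;> rcases c2 with rfl | rfl
    · exact (half_one hadm (s0 := 1) (s1 := 1) (s2 := -1) (by norm_num) (by norm_num) (by norm_num)
        q3 (h.congr (by ring) (by ring) (by ring))).elim
    · exfalso
      obtain ⟨d1, d2, d3, d4⟩ := q3
      have h' : LL b ((2 - o21 - o31) / 2) ((n2 - o32) / 2) ((n3 - o23) / 2) :=
        h.congr (by ring) (by ring) (by ring)
      have i1 : |(n2 - o32) / 2| < 1 / 2 := by rw [abs_lt]; constructor <;> linarith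
      have i2 : |(n3 - o23) / 2| < 1 / 2 := by rw [abs_lt]; constructor <;> linarith
      have i3 : |(2 - o21 - o31) / 2| < 1 := by rw [abs_lt]; constructor <;> linarith
      refine hadm.absurd h' ?_ i3 (by linarith) (by linarith) (by linarith)
      left
      have : 0 < (2 - o21 - o31) / 2 := by linarith
      exact this.ne'
    · exfalso
      obtain ⟨d1, d2, d3, d4⟩ := q3
      have h' : LL b ((n1 - o31) / 2) ((2 - o12 - o32) / 2) ((n3 - o13) / 2) :=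
        h.congr (by ring) (by ring) (by ring)
      have i1 : |(n1 - o31) / 2| < 1 / 2 := by rw [abs_lt]; constructor <;> linarith
      have i2 : |(n3 - o13) / 2| < 1 / 2 := by rw [abs_lt]; constructor <;> linarith
      have i3 : |(2 - o12 - o32) / 2| < 1 := by rw [abs_lt]; constructor <;> linarith
      refine hadm.absurd h' ?_ (by linarith) i3 (by linarith) (by linarith)
      right; left
      have : 0 < (2 - o12 - o32) / 2 := by linarith
      exact this.ne'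
    · exact h.congr (by ring) (by ring) (by ring)

include hadm in
/-- the centre cannot be halved -/
theorem no_quarter
    (q1 : 0 < n1 ∧ 0 < o12 ∧ 0 < o13 ∧ n1 + o12 + o13 ≤ 1)
    (q2 : 0 < o21 ∧ 0 < n2 ∧ 0 < o23 ∧ o21 + n2 + o23 ≤ 1)
    (q3 : 0 < o31 ∧ 0 < o32 ∧ 0 < n3 ∧ o31 + o32 + n3 ≤ 1)
    (p1 : LL b (-(1 - n1)) (1 - o12) (1 - o13)) (p2 : LL b (1 - o21) (-(1 - n2)) (1 - o23))
    {e1 e2 : ℝ} (c1 : e1 = 0 ∨ e1 = 1) (c2 : e2 = 0 ∨ e2 = 1)
    (h : LL b ((e1 * (-(1 - n1)) + e2 * (1 - o21) + 1 * ((1 + n1 - o21 - o31) / 2)) / 2)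
      ((e1 * (1 - o12) + e2 * (-(1 - n2)) + 1 * ((1 + n2 - o12 - o32) / 2)) / 2)
      ((e1 * (1 - o13) + e2 * (1 - o23) + 1 * ((1 + n3 - o13 - o23) / 2)) / 2)) : False := by
  obtain ⟨a1, a2, a3, a4⟩ := q1
  obtain ⟨b1, b2, b3, b4⟩ := q2
  obtain ⟨d1, d2, d3, d4⟩ := q3
  rcases c1 with rfl | rfl <;> rcases c2 with rfl | rfl
  · have h' : LL b ((1 + n1 - o21 - o31) / 4) ((1 + n2 - o12 - o32) / 4)
        ((1 + n3 - o13 - o23) / 4) := h.congr (by ring) (by ring) (by ring)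
    have i1 : |(1 + n1 - o21 - o31) / 4| < 1 / 2 := by rw [abs_lt]; constructor <;> linarith
    have i2 : |(1 + n2 - o12 - o32) / 4| < 1 / 2 := by rw [abs_lt]; constructor <;> linarith
    have i3 : |(1 + n3 - o13 - o23) / 4| < 1 / 2 := by rw [abs_lt]; constructor <;> linarith
    refine hadm.absurd h' ?_ (by linarith) (by linarith) (by linarith) (by linarith)
    by_contra hc
    push Not at hc
    obtain ⟨c1, c2, c3⟩ := hc
    linarith
  · have h' : LL b ((-1 + n1 + o21 - o31) / 4) ((3 - n2 - o12 - o32) / 4)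
        ((-1 + n3 - o13 + o23) / 4) := (h.sub p2).congr (by ring) (by ring) (by ring)
    have i1 : |(-1 + n1 + o21 - o31) / 4| < 1 / 2 := by rw [abs_lt]; constructor <;> linarith
    have i2 : |(3 - n2 - o12 - o32) / 4| < 3 / 4 := by rw [abs_lt]; constructor <;> linarith
    have i3 : |(-1 + n3 - o13 + o23) / 4| < 1 / 2 := by rw [abs_lt]; constructor <;> linarith
    refine hadm.absurd h' ?_ (by linarith) (by linarith) (by linarith) (by linarith)
    right; left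
    have : 0 < (3 - n2 - o12 - o32) / 4 := by linarith
    exact this.ne'
  · have h' : LL b ((3 - n1 - o21 - o31) / 4) ((-1 + n2 + o12 - o32) / 4)
        ((-1 + n3 + o13 - o23) / 4) := (h.sub p1).congr (by ring) (by ring) (by ring)
    have i1 : |(3 - n1 - o21 - o31) / 4| < 3 / 4 := by rw [abs_lt]; constructor <;> linarith
    have i2 : |(-1 + n2 + o12 - o32) / 4| < 1 / 2 := by rw [abs_lt]; constructor <;> linarith
    have i3 : |(-1 + n3 + o13 - o23) / 4| < 1 / 2 := by rw [abs_lt]; constructor <;> linarith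
    refine hadm.absurd h' ?_ (by linarith) (by linarith) (by linarith) (by linarith)
    left
    have : 0 < (3 - n1 - o21 - o31) / 4 := by linarith
    exact this.ne'
  · have h' : LL b ((1 - n1 + o21 - o31) / 4) ((1 - n2 + o12 - o32) / 4)
        ((-3 + n3 + o13 + o23) / 4) :=
      ((h.sub p1).sub p2).congr (by ring) (by ring) (by ring)
    have i1 : |(1 - n1 + o21 - o31) / 4| < 1 / 2 := by rw [abs_lt]; constructor <;> linarith
    have i2 : |(1 - n2 + o12 - o32) / 4| < 1 / 2 := by rw [abs_lt]; constructor <;> linarith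
    have i3 : |(-3 + n3 + o13 + o23) / 4| < 3 / 4 := by rw [abs_lt]; constructor <;> linarith
    refine hadm.absurd h' ?_ (by linarith) (by linarith) (by linarith) (by linarith)
    right; right
    have : (-3 + n3 + o13 + o23) / 4 < 0 := by linarith
    exact this.ne

include hadm in
/-- no third-integral combinations -/
theorem no_third
    (q1 : 0 < n1 ∧ 0 < o12 ∧ 0 < o13 ∧ n1 + o12 + o13 ≤ 1)
    (q2 : 0 < o21 ∧ 0 < n2 ∧ 0 < o23 ∧ o21 + n2 + o23 ≤ 1)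
    (q3 : 0 < o31 ∧ 0 < o32 ∧ 0 < n3 ∧ o31 + o32 + n3 ≤ 1)
    (hD : 0 < D0 n1 n2 n3 o12 o13 o21 o23 o31 o32)
    (hS : 1 / 18 - 1 / 1000 ≤ n1 * o12 * o13 + n2 * o21 * o23 + n3 * o31 * o32)
    {e1 e2 e3 : ℝ} (c1 : e1 = 0 ∨ e1 = 1 ∨ e1 = -1) (c2 : e2 = 0 ∨ e2 = 1 ∨ e2 = -1)
    (c3 : e3 = 0 ∨ e3 = 1 ∨ e3 = -1)
    (hne : e1 ≠ 0 ∨ e2 ≠ 0 ∨ e3 ≠ 0)
    (h : LL b ((e1 * (-(1 - n1)) + e2 * (1 - o21) + e3 * (1 - o31)) / 3)
      ((e1 * (1 - o12) + e2 * (-(1 - n2)) + e3 * (1 - o32)) / 3)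
      ((e1 * (1 - o13) + e2 * (1 - o23) + e3 * (-(1 - n3))) / 3)) : False := by
  have f1 := flip_ineq n1 n2 n3 o12 o13 o21 o23 o31 o32 q1.1 q2.2.1 q3.2.2.1 q1.2.1 q1.2.2.1 q2.1
    q2.2.2.1 q3.1 q3.2.1 (by linarith [q1.2.2.2]) (by linarith [q2.2.2.2]) (by linarith [q3.2.2.2])
    (by linarith)
  have f2 := flip_ineq n2 n1 n3 o21 o23 o12 o13 o32 o31 q2.2.1 q1.1 q3.2.2.1 q2.1 q2.2.2.1 q1.2.1
    q1.2.2.1 q3.2.1 q3.1 (by linarith [q2.2.2.2]) (by linarith [q1.2.2.2]) (by linarith [q3.2.2.2])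
    (by linarith)
  have f3 := flip_ineq n3 n2 n1 o32 o31 o23 o21 o13 o12 q3.2.2.1 q2.2.1 q1.1 q3.2.1 q3.1 q2.2.2.1
    q2.1 q1.2.2.1 q1.2.1 (by linarith [q3.2.2.2]) (by linarith [q2.2.2.2]) (by linarith [q1.2.2.2])
    (by linarith)
  obtain ⟨a1, a2, a3, a4⟩ := q1
  obtain ⟨b1, b2, b3, b4⟩ := q2
  obtain ⟨d1, d2, d3, d4⟩ := q3
  set X := e1 * (-(1 - n1)) + e2 * (1 - o21) + e3 * (1 - o31) with hX
  set Y := e1 * (1 - o12) + e2 * (-(1 - n2)) + e3 * (1 - o32) with hY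
  set Z := e1 * (1 - o13) + e2 * (1 - o23) + e3 * (-(1 - n3)) with hZ
  have l1 : |e1| ≤ 1 := by rcases c1 with rfl | rfl | rfl <;> norm_num
  have l2 : |e2| ≤ 1 := by rcases c2 with rfl | rfl | rfl <;> norm_num
  have l3 : |e3| ≤ 1 := by rcases c3 with rfl | rfl | rfl <;> norm_num
  have bnd : ∀ e t : ℝ, |e| ≤ 1 → 0 < t → t < 1 → |e * (1 - t)| ≤ 1 - t := by
    intro e t he ht ht1
    rw [abs_mul, abs_of_pos (by linarith : 0 < 1 - t)]
    have := mul_le_mul_of_nonneg_right he (by linarith : 0 ≤ 1 - t)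
    linarith
  have bndn : ∀ e t : ℝ, |e| ≤ 1 → 0 < t → t < 1 → |e * (-(1 - t))| ≤ 1 - t := by
    intro e t he ht ht1
    rw [mul_neg, abs_neg]
    exact bnd e t he ht ht1
  have uX : |X| ≤ |e1 * (-(1 - n1))| + |e2 * (1 - o21)| + |e3 * (1 - o31)| := abs_add_three _ _ _
  have uY : |Y| ≤ |e1 * (1 - o12)| + |e2 * (-(1 - n2))| + |e3 * (1 - o32)| := abs_add_three _ _ _
  have uZ : |Z| ≤ |e1 * (1 - o13)| + |e2 * (1 - o23)| + |e3 * (-(1 - n3))| := abs_add_three _ _ _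
  have x1 := bndn e1 n1 l1 a1 (by linarith)
  have x2 := bnd e2 o21 l2 b1 (by linarith)
  have x3 := bnd e3 o31 l3 d1 (by linarith)
  have y1 := bnd e1 o12 l1 a2 (by linarith)
  have y2 := bndn e2 n2 l2 b2 (by linarith)
  have y3 := bnd e3 o32 l3 d2 (by linarith)
  have z1 := bnd e1 o13 l1 a3 (by linarith)
  have z2 := bnd e2 o23 l2 b3 (by linarith)
  have z3 := bndn e3 n3 l3 d3 (by linarith)
  have hX3 : |X / 3| < 1 := by rw [abs_div]; norm_num; linarith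
  have hY3 : |Y / 3| < 1 := by rw [abs_div]; norm_num; linarith
  have hZ3 : |Z / 3| < 1 := by rw [abs_div]; norm_num; linarith
  have tot : |X| + |Y| + |Z| < 6 := by
    rcases eq_or_ne e1 0 with g1 | g1
    · rw [g1] at uX uY uZ
      simp only [zero_mul, abs_zero, zero_add] at uX uY uZ
      linarith
    rcases eq_or_ne e2 0 with g2 | g2
    · rw [g2] at uX uY uZ
      simp only [zero_mul, abs_zero, add_zero] at uX uY uZ
      linarith
    rcases eq_or_ne e3 0 with g3 | g3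
    · rw [g3] at uX uY uZ
      simp only [zero_mul, abs_zero, add_zero] at uX uY uZ
      linarith
    have c1' := c1.resolve_left g1
    have c2' := c2.resolve_left g2
    have c3' := c3.resolve_left g3
    have s1 : |1 + n1 - o21 - o31| < 2 := by rw [abs_lt]; constructor <;> linarith
    have s2 : |1 + n2 - o12 - o32| < 2 := by rw [abs_lt]; constructor <;> linarith
    have s3 : |1 + n3 - o13 - o23| < 2 := by rw [abs_lt]; constructor <;> linarith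
    have eqa : ∀ s t : ℝ, s = t ∨ s = -t → |s| = |t| := by
      intro s t h
      rcases h with h | h
      · rw [h]
      · rw [h, abs_neg]
    rcases c1' with w1 | w1 <;> rcases c2' with w2 | w2 <;> rcases c3' with w3 | w3 <;>
      rw [w1, w2, w3] at hX hY hZ
    · rw [eqa X (1 + n1 - o21 - o31) (by left; rw [hX]; ring),
        eqa Y (1 + n2 - o12 - o32) (by left; rw [hY]; ring),
        eqa Z (1 + n3 - o13 - o23) (by left; rw [hZ]; ring)]
      linarith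
    · rw [eqa X (-1 + o31 - o21 + n1) (by left; rw [hX]; ring),
        eqa Y (-1 + o32 + n2 - o12) (by left; rw [hY]; ring),
        eqa Z (3 - n3 - o23 - o13) (by left; rw [hZ]; ring)]
      linarith
    · rw [eqa X (-1 + o21 + n1 - o31) (by left; rw [hX]; ring),
        eqa Y (3 - n2 - o12 - o32) (by left; rw [hY]; ring),
        eqa Z (-1 + o23 - o13 + n3) (by left; rw [hZ]; ring)]
      linarith
    · rw [eqa X (3 - n1 - o21 - o31) (by right; rw [hX]; ring),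
        eqa Y (-1 + o12 + n2 - o32) (by right; rw [hY]; ring),
        eqa Z (-1 + o13 - o23 + n3) (by right; rw [hZ]; ring)]
      linarith
    · rw [eqa X (3 - n1 - o21 - o31) (by left; rw [hX]; ring),
        eqa Y (-1 + o12 + n2 - o32) (by left; rw [hY]; ring),
        eqa Z (-1 + o13 - o23 + n3) (by left; rw [hZ]; ring)]
      linarith
    · rw [eqa X (-1 + o21 + n1 - o31) (by right; rw [hX]; ring),
        eqa Y (3 - n2 - o12 - o32) (by right; rw [hY]; ring),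
        eqa Z (-1 + o23 - o13 + n3) (by right; rw [hZ]; ring)]
      linarith
    · rw [eqa X (-1 + o31 - o21 + n1) (by right; rw [hX]; ring),
        eqa Y (-1 + o32 + n2 - o12) (by right; rw [hY]; ring),
        eqa Z (3 - n3 - o23 - o13) (by right; rw [hZ]; ring)]
      linarith
    · rw [eqa X (1 + n1 - o21 - o31) (by right; rw [hX]; ring),
        eqa Y (1 + n2 - o12 - o32) (by right; rw [hY]; ring),
        eqa Z (1 + n3 - o13 - o23) (by right; rw [hZ]; ring)]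
      linarith
  refine hadm.absurd h ?_ hX3 hY3 hZ3 ?_
  · by_contra hc
    push Not at hc
    obtain ⟨v1, v2, v3⟩ := hc
    have v1' : X = 0 := by linarith
    have v2' : Y = 0 := by linarith
    have v3' : Z = 0 := by linarith
    have w1 : e1 * D0 n1 n2 n3 o12 o13 o21 o23 o31 o32 = 0 := by
      have : e1 * D0 n1 n2 n3 o12 o13 o21 o23 o31 o32
          = X * ((1 - n2) * (1 - n3) - (1 - o23) * (1 - o32))
          - Y * ((1 - o21) * (-(1 - n3)) - (1 - o23) * (1 - o31))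
          + Z * ((1 - o21) * (1 - o32) + (1 - n2) * (1 - o31)) := by
        rw [hX, hY, hZ]; unfold D0; ring
      rw [this, v1', v2', v3']; ring
    have w2 : e2 * D0 n1 n2 n3 o12 o13 o21 o23 o31 o32 = 0 := by
      have : e2 * D0 n1 n2 n3 o12 o13 o21 o23 o31 o32
          = -(X * ((1 - o12) * (-(1 - n3)) - (1 - o13) * (1 - o32)))
          + Y * ((-(1 - n1)) * (-(1 - n3)) - (1 - o13) * (1 - o31))
          - Z * ((-(1 - n1)) * (1 - o32) - (1 - o12) * (1 - o31)) := by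
        rw [hX, hY, hZ]; unfold D0; ring
      rw [this, v1', v2', v3']; ring
    have w3 : e3 * D0 n1 n2 n3 o12 o13 o21 o23 o31 o32 = 0 := by
      have : e3 * D0 n1 n2 n3 o12 o13 o21 o23 o31 o32
          = X * ((1 - o12) * (1 - o23) - (1 - o13) * (-(1 - n2)))
          - Y * ((-(1 - n1)) * (1 - o23) - (1 - o13) * (1 - o21))
          + Z * ((-(1 - n1)) * (-(1 - n2)) - (1 - o12) * (1 - o21)) := by
        rw [hX, hY, hZ]; unfold D0; ring
      rw [this, v1', v2', v3']; ring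
    rcases hne with g | g | g
    · exact (mul_ne_zero g hD.ne') w1
    · exact (mul_ne_zero g hD.ne') w2
    · exact (mul_ne_zero g hD.ne') w3
  · rw [abs_div, abs_div, abs_div]
    norm_num
    linarith

end

end Pool.Agent.H349R2.Tet
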