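import Pool.Agent.H349R2.Tet.Defs

/-! LEMA -/

namespace Pool.Agent.H349R2.Tet

private theorem amgm3 (x y z : ℝ) (hx : 0 ≤ x) (hy : 0 ≤ y) (hz : 0 ≤ z) (h : x + y + z ≤ 1) :
    27 * (x * y * z) ≤ x + y + z := by
  have h1 : 27 * (x * y * z) ≤ (x + y + z) ^ 3 := by
    nlinarith [mul_nonneg hx (sq_nonneg (y - z)), mul_nonneg hy (sq_nonneg (x - z)),
      mul_nonneg hz (sq_nonneg (x - y)), mul_nonneg hx (sq_nonneg (x - y)),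
      mul_nonneg hy (sq_nonneg (x - y)), mul_nonneg hx (sq_nonneg (x - z)),
      mul_nonneg hz (sq_nonneg (x - z)), mul_nonneg hy (sq_nonneg (y - z)),
      mul_nonneg hz (sq_nonneg (y - z))]
  have h0 : 0 ≤ x + y + z := by positivity
  have h2 : (x + y + z) ^ 3 ≤ x + y + z := by
    have : (x + y + z) ^ 2 ≤ 1 := by nlinarith
    nlinarith
  linarith

private theorem prod_lb (e1 e2 e3 E : ℝ) (h1 : 0 ≤ e1) (h2 : 0 ≤ e2) (h3 : 0 ≤ e3)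
    (g1 : e1 ≤ 1) (g2 : e2 ≤ 1) (g3 : e3 ≤ 1) (hE : e1 + e2 + e3 = 1 + E / 2) :
    2 + E ≤ (1 + e1) * (1 + e2) * (1 + e3) := by
  have key : e1 + e2 + e3 - 1 ≤ e1 * e2 + e1 * e3 + e2 * e3 + e1 * e2 * e3 := by
    have a := mul_nonneg (mul_nonneg (sub_nonneg.2 g1) (sub_nonneg.2 g2)) (sub_nonneg.2 g3)
    nlinarith [mul_nonneg (mul_nonneg h1 h2) h3, a]
  nlinarith

private theorem cross (B A A' β : ℝ) (h1 : B ≤ β) (h2 : -β ≤ B) :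
    -(β * (A ^ 2 + A' ^ 2)) ≤ 2 * (B * A * A') := by
  nlinarith [mul_nonneg (sub_nonneg.2 h1) (sq_nonneg (A - A')),
    mul_nonneg (by linarith : 0 ≤ β + B) (sq_nonneg (A + A'))]

private theorem sqB (B R : ℝ) (h1 : B ≤ R / 4) (h2 : -(R / 4) ≤ B) : B ^ 2 ≤ R ^ 2 / 16 := by
  nlinarith

private theorem finR (R : ℝ) (h0 : 0 ≤ R) (h2 : R ≤ 2) : 0 ≤ R - 3 * R ^ 2 / 8 - R ^ 3 / 32 := by
  have h : R - 3 * R ^ 2 / 8 - R ^ 3 / 32 = R * (1 - 3 * R / 8 - R ^ 2 / 32) := by ring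
  rw [h]
  apply mul_nonneg h0
  nlinarith

private theorem prodB (B1 B2 B3 R : ℝ) (b1u : B1 ≤ R / 4) (b1l : -(R / 4) ≤ B1)
    (b2u : B2 ≤ R / 4) (b2l : -(R / 4) ≤ B2) (b3u : B3 ≤ R / 4) (b3l : -(R / 4) ≤ B3) :
    -(R ^ 3 / 64) ≤ B1 * B2 * B3 := by
  have h12 : |B1 * B2 * B3| ≤ R / 4 * (R / 4) * (R / 4) := by
    rw [abs_mul, abs_mul]
    have a1 : |B1| ≤ R / 4 := abs_le.2 ⟨b1l, b1u⟩
    have a2 : |B2| ≤ R / 4 := abs_le.2 ⟨b2l, b2u⟩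
    have a3 : |B3| ≤ R / 4 := abs_le.2 ⟨b3l, b3u⟩
    have hR : 0 ≤ R / 4 := le_trans (abs_nonneg _) a1
    gcongr
  have h := (abs_le.1 h12).1
  have h' : R / 4 * (R / 4) * (R / 4) = R ^ 3 / 64 := by ring
  rw [h'] at h
  exact h

private theorem combine (D e1 e2 e3 B1 B2 B3 A1 A2 A3 R : ℝ)
    (id : 2 * D = (1 + e1) * (1 + e2) * (1 + e3) - (1 + e1) * B1 ^ 2 - (1 + e2) * B2 ^ 2
        - (1 + e3) * B3 ^ 2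
        + ((1 + e1) * A1 ^ 2 + (1 + e2) * A2 ^ 2 + (1 + e3) * A3 ^ 2) + 2 * (B1 * B2 * B3)
        + (2 * (B3 * A1 * A2) + 2 * (B1 * A2 * A3) + 2 * (B2 * A1 * A3)))
    (hP : 2 + R ≤ (1 + e1) * (1 + e2) * (1 + e3))
    (c3 : -(R / 4 * (A1 ^ 2 + A2 ^ 2)) ≤ 2 * (B3 * A1 * A2))
    (c1 : -(R / 4 * (A2 ^ 2 + A3 ^ 2)) ≤ 2 * (B1 * A2 * A3))
    (c2 : -(R / 4 * (A1 ^ 2 + A3 ^ 2)) ≤ 2 * (B2 * A1 * A3))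
    (sA1 : 0 ≤ (1 + e1 - R / 2) * A1 ^ 2) (sA2 : 0 ≤ (1 + e2 - R / 2) * A2 ^ 2)
    (sA3 : 0 ≤ (1 + e3 - R / 2) * A3 ^ 2)
    (q1 : 0 ≤ (1 - e1) * B1 ^ 2) (q2 : 0 ≤ (1 - e2) * B2 ^ 2) (q3 : 0 ≤ (1 - e3) * B3 ^ 2)
    (sB : B1 ^ 2 + B2 ^ 2 + B3 ^ 2 ≤ 3 * R ^ 2 / 16)
    (pB : -(R ^ 3 / 64) ≤ B1 * B2 * B3) (fin : 0 ≤ R - 3 * R ^ 2 / 8 - R ^ 3 / 32) : 1 ≤ D := by
  linarith

theorem lemA (n1 n2 n3 o12 o13 o21 o23 o31 o32 : ℝ)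
    (hn1 : 0 ≤ n1) (hn2 : 0 ≤ n2) (hn3 : 0 ≤ n3) (h12 : 0 ≤ o12) (h13 : 0 ≤ o13)
    (h21 : 0 ≤ o21) (h23 : 0 ≤ o23) (h31 : 0 ≤ o31) (h32 : 0 ≤ o32)
    (hr1 : n1 + o12 + o13 ≤ 1) (hr2 : n2 + o21 + o23 ≤ 1) (hr3 : n3 + o31 + o32 ≤ 1)
    (hC1 : o21 + o31 ≤ 1) (hC2 : o12 + o32 ≤ 1) (hC3 : o13 + o23 ≤ 1)
    (ha1 : n1 ≤ o21 + o31) (ha2 : n2 ≤ o12 + o32) (ha3 : n3 ≤ o13 + o23)
    (ha : (o21 + o31 - n1) + (o12 + o32 - n2) + (o13 + o23 - n3) ≤ 1)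
    (hS : 5 / 54 - 1 / 1000 ≤ n1 * o12 * o13 + n2 * o21 * o23 + n3 * o31 * o32
      + (o21 + o31 - n1) * (o12 + o32 - n2) * (o13 + o23 - n3)) :
    1 ≤ D0 n1 n2 n3 o12 o13 o21 o23 o31 o32 := by
  have p1 := amgm3 n1 o12 o13 hn1 h12 h13 hr1
  have p2 := amgm3 n2 o21 o23 hn2 h21 h23 hr2
  have p3 := amgm3 n3 o31 o32 hn3 h31 h32 hr3
  have p0 := amgm3 (o21 + o31 - n1) (o12 + o32 - n2) (o13 + o23 - n3) (by linarith)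
    (by linarith) (by linarith) ha
  obtain ⟨r1, hr1'⟩ : ∃ r1, r1 = 1 - (n1 + o12 + o13) := ⟨_, rfl⟩
  obtain ⟨r2, hr2'⟩ : ∃ r2, r2 = 1 - (n2 + o21 + o23) := ⟨_, rfl⟩
  obtain ⟨r3, hr3'⟩ : ∃ r3, r3 = 1 - (n3 + o31 + o32) := ⟨_, rfl⟩
  obtain ⟨r0, hr0'⟩ : ∃ r0, r0 = 1 - ((o21 + o31 - n1) + (o12 + o32 - n2) + (o13 + o23 - n3)) :=
    ⟨_, rfl⟩
  obtain ⟨R, hR⟩ : ∃ R, R = r0 + r1 + r2 + r3 := ⟨_, rfl⟩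
  have k1 : 0 ≤ r1 := by linarith
  have k2 : 0 ≤ r2 := by linarith
  have k3 : 0 ≤ r3 := by linarith
  have k0 : 0 ≤ r0 := by linarith
  have hR0 : 0 ≤ R := by linarith
  have hR2 : R ≤ 2 := by linarith
  obtain ⟨B1, hB1⟩ : ∃ B, B = ((n3 - o13) + (n2 - o12)) / 2 := ⟨_, rfl⟩
  obtain ⟨B2, hB2⟩ : ∃ B, B = ((n3 - o23) + (n1 - o21)) / 2 := ⟨_, rfl⟩
  obtain ⟨B3, hB3⟩ : ∃ B, B = ((n2 - o32) + (n1 - o31)) / 2 := ⟨_, rfl⟩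
  obtain ⟨A1, hA1⟩ : ∃ A, A = ((n3 - o13) - (n2 - o12)) / 2 := ⟨_, rfl⟩
  obtain ⟨A2, hA2⟩ : ∃ A, A = ((n1 - o21) - (n3 - o23)) / 2 := ⟨_, rfl⟩
  obtain ⟨A3, hA3⟩ : ∃ A, A = ((n2 - o32) - (n1 - o31)) / 2 := ⟨_, rfl⟩
  have b1 : B1 = -(r2 + r3 - r0 - r1) / 4 := by rw [hB1]; linarith
  have b2 : B2 = -(r1 + r3 - r0 - r2) / 4 := by rw [hB2]; linarith
  have b3 : B3 = -(r1 + r2 - r0 - r3) / 4 := by rw [hB3]; linarith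
  have b1u : B1 ≤ R / 4 := by linarith
  have b1l : -(R / 4) ≤ B1 := by linarith
  have b2u : B2 ≤ R / 4 := by linarith
  have b2l : -(R / 4) ≤ B2 := by linarith
  have b3u : B3 ≤ R / 4 := by linarith
  have b3l : -(R / 4) ≤ B3 := by linarith
  obtain ⟨e1, he1⟩ : ∃ e, e = 1 - (o21 + o31) := ⟨_, rfl⟩
  obtain ⟨e2, he2⟩ : ∃ e, e = 1 - (o12 + o32) := ⟨_, rfl⟩
  obtain ⟨e3, he3⟩ : ∃ e, e = 1 - (o13 + o23) := ⟨_, rfl⟩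
  have f1 : 0 ≤ e1 := by linarith
  have f2 : 0 ≤ e2 := by linarith
  have f3 : 0 ≤ e3 := by linarith
  have g1 : e1 ≤ 1 := by linarith
  have g2 : e2 ≤ 1 := by linarith
  have g3 : e3 ≤ 1 := by linarith
  have hE : e1 + e2 + e3 = 1 + R / 2 := by linarith
  have hP := prod_lb e1 e2 e3 R f1 f2 f3 g1 g2 g3 hE
  have id : 2 * D0 n1 n2 n3 o12 o13 o21 o23 o31 o32
      = (1 + e1) * (1 + e2) * (1 + e3) - (1 + e1) * B1 ^ 2 - (1 + e2) * B2 ^ 2 - (1 + e3) * B3 ^ 2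
        + ((1 + e1) * A1 ^ 2 + (1 + e2) * A2 ^ 2 + (1 + e3) * A3 ^ 2) + 2 * (B1 * B2 * B3)
        + (2 * (B3 * A1 * A2) + 2 * (B1 * A2 * A3) + 2 * (B2 * A1 * A3)) := by
    rw [hB1, hB2, hB3, hA1, hA2, hA3, he1, he2, he3, D0]
    ring
  have c3 := cross B3 A1 A2 (R / 4) b3u b3l
  have c1 := cross B1 A2 A3 (R / 4) b1u b1l
  have c2 := cross B2 A1 A3 (R / 4) b2u b2l
  have sA1 : 0 ≤ (1 + e1 - R / 2) * A1 ^ 2 := mul_nonneg (by linarith) (sq_nonneg _)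
  have sA2 : 0 ≤ (1 + e2 - R / 2) * A2 ^ 2 := mul_nonneg (by linarith) (sq_nonneg _)
  have sA3 : 0 ≤ (1 + e3 - R / 2) * A3 ^ 2 := mul_nonneg (by linarith) (sq_nonneg _)
  -- squares of B
  have q1 : 0 ≤ (1 - e1) * B1 ^ 2 := mul_nonneg (by linarith) (sq_nonneg _)
  have q2 : 0 ≤ (1 - e2) * B2 ^ 2 := mul_nonneg (by linarith) (sq_nonneg _)
  have q3 : 0 ≤ (1 - e3) * B3 ^ 2 := mul_nonneg (by linarith) (sq_nonneg _)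
  have sB : B1 ^ 2 + B2 ^ 2 + B3 ^ 2 ≤ 3 * R ^ 2 / 16 := by
    have h1 := sqB B1 R b1u b1l
    have h2 := sqB B2 R b2u b2l
    have h3 := sqB B3 R b3u b3l
    clear p0 p1 p2 p3 hS id c1 c2 c3 sA1 sA2 sA3 hP
    linarith
  have pB := prodB B1 B2 B3 R b1u b1l b2u b2l b3u b3l
  have fin := finR R hR0 hR2
  exact combine _ e1 e2 e3 B1 B2 B3 A1 A2 A3 R id hP c3 c1 c2 sA1 sA2 sA3 q1 q2 q3 sB pB fin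

end Pool.Agent.H349R2.Tet
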