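import Pool.Agent.H349R2.Tet.Defs

/-!
# The inequality `lemB` (helper143)
-/

namespace Pool.Agent.H349R2.Tet

namespace LemBAux

/-- the polynomial certificate, in barycentric coordinates of the triangle -/
theorem cert (x y z : ℝ) (hx : 0 ≤ x) (hy : 0 ≤ y) (hz : 0 ≤ z) (h : z = 1 - x - y) :
    1 / 50000 ≤ (1 / 18 - 1 / 1000) * (1 - (x / 2 + y / 2))
      - (1 - (x / 2 + y / 2)) * (y / 2) * (1 - y / 2) ^ 2 / 4
      - x / 2 * ((16 / 25 - x / 2) * (1 - (x / 2 + y / 2))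
        - (3 / 5 - x / 2) * (27 / 50 - (x / 2 + y / 2) * (x / 2) * (y / 2))) := by
  have h0 : 0 ≤ (20939/1800000*y^13 + 123841/900000*x^1*y^12 + 427189/600000*x^2*y^11 + 1945327/900000*x^3*y^10 + 197069/45000*x^4*y^9 + 324163/50000*x^5*y^8 + 2295629/300000*x^6*y^7 + 1160977/150000*x^7*y^6 + 1355827/200000*x^8*y^5 + 870401/180000*x^9*y^4 + 4626179/1800000*x^10*y^3 + 278057/300000*x^11*y^2 + 179641/900000*x^12*y^1 + 4333/225000*x^13) := by positivity
  have h1 : 0 ≤ (265057/1800000*y^12 + 875503/600000*x^1*y^11 + 936601/150000*x^2*y^10 + 1380677/90000*x^3*y^9 + 494201/20000*x^4*y^8 + 2978883/100000*x^5*y^7 + 4815839/150000*x^6*y^6 + 1693029/50000*x^7*y^5 + 1238677/40000*x^8*y^4 + 7491233/360000*x^9*y^3 + 686813/75000*x^10*y^2 + 21877/9375*x^11*y^1 + 117283/450000*x^12)*z^1 := by positivity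
  have h2 : 0 ≤ (85969/100000*y^11 + 352367/50000*x^1*y^10 + 240717/10000*x^2*y^9 + 222163/5000*x^3*y^8 + 499877/10000*x^4*y^7 + 563241/12500*x^5*y^6 + 1363957/25000*x^6*y^5 + 364901/5000*x^7*y^4 + 1359777/20000*x^8*y^3 + 381417/10000*x^9*y^2 + 586017/50000*x^10*y^1 + 4767/3125*x^11)*z^2 := by positivity
  have h3 : 0 ≤ (696613/225000*y^10 + 234569/11250*x^1*y^9 + 549701/10000*x^2*y^8 + 2040133/30000*x^3*y^7 + 1091839/30000*x^4*y^6 + 1081703/50000*x^5*y^5 + 2144989/30000*x^6*y^4 + 3473983/30000*x^7*y^3 + 890501/10000*x^8*y^2 + 3053977/90000*x^9*y^1 + 146561/28125*x^10)*z^3 := by positivity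
  have h4 : 0 ≤ (1398901/180000*y^9 + 433163/10000*x^1*y^8 + 1761379/20000*x^2*y^7 + 2038589/30000*x^3*y^6 + 51289/20000*x^4*y^5 + 230307/10000*x^5*y^4 + 6961003/60000*x^6*y^3 + 1325877/10000*x^7*y^2 + 642463/10000*x^8*y^1 + 530119/45000*x^9)*z^4 := by positivity
  have h5 : 0 ≤ (1455201/100000*y^8 + 6904383/100000*x^1*y^7 + 5851839/50000*x^2*y^6 + 3979703/50000*x^3*y^5 + 771239/20000*x^4*y^4 + 9742131/100000*x^5*y^3 + 449204/3125*x^6*y^2 + 542713/6250*x^7*y^1 + 949863/50000*x^8)*z^5 := by positivity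
  have h6 : 0 ≤ (792313/37500*y^7 + 6671357/75000*x^1*y^6 + 3565457/25000*x^2*y^5 + 1913807/15000*x^3*y^4 + 1842407/15000*x^4*y^3 + 866033/6250*x^5*y^2 + 1719683/18750*x^6*y^1 + 217372/9375*x^7)*z^6 := by positivity
  have h7 : 0 ≤ (3624977/150000*y^6 + 4655029/50000*x^1*y^5 + 1487927/10000*x^2*y^4 + 4568483/30000*x^3*y^3 + 661751/5000*x^4*y^2 + 2062977/25000*x^5*y^1 + 423619/18750*x^6)*z^7 := by positivity
  have h8 : 0 ≤ (4333827/200000*y^5 + 1525401/20000*x^1*y^4 + 4616679/40000*x^2*y^3 + 2139127/20000*x^3*y^2 + 1287301/20000*x^4*y^1 + 455619/25000*x^5)*z^8 := by positivity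
  have h9 : 0 ≤ (5357677/360000*y^4 + 16568233/360000*x^1*y^3 + 887563/15000*x^2*y^2 + 225772/5625*x^3*y^1 + 1089613/90000*x^4)*z^9 := by positivity
  have h10 : 0 ≤ (6764027/900000*y^3 + 2836501/150000*x^1*y^2 + 2644801/150000*x^2*y^1 + 176311/28125*x^3)*z^10 := by positivity
  have h11 : 0 ≤ (130697/50000*y^2 + 233969/50000*x^1*y^1 + 14409/6250*x^2)*z^11 := by positivity
  have h12 : 0 ≤ (62627/112500*y^1 + 117829/225000*x^1)*z^12 := by positivity
  have h13 : 0 ≤ (24541/450000)*z^13 := by positivity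
  have hsum := add_nonneg h0 (add_nonneg h1 (add_nonneg h2 (add_nonneg h3 (add_nonneg h4 (add_nonneg h5 (add_nonneg h6 (add_nonneg h7 (add_nonneg h8 (add_nonneg h9 (add_nonneg h10 (add_nonneg h11 (add_nonneg h12 (h13)))))))))))))
  refine le_of_sub_nonneg (hsum.trans_eq ?_)
  subst h
  ring

theorem core (a b d : ℝ) (ha : 0 ≤ a) (hb : 0 ≤ b) (hd : 0 ≤ d) (_hab : a + b ≤ 1)
    (hbd : b + d ≤ 1)
    (hG : 1 / 18 - 1 / 1000 ≤ a * b * (1 - a - b) + d * (1 - d) ^ 2 / 4) :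
    (1 - a) * (1 - b - d) + (b + d) * b * d ≤ 27 / 50 := by
  by_contra hF
  push Not at hF
  have hs0 : 0 ≤ 1 - (b + d) := by linarith
  have hbd4 : b * d ≤ (b + d) ^ 2 / 4 := by nlinarith [sq_nonneg (b - d)]
  have hsbd : (b + d) * b * d ≤ (b + d) ^ 3 / 4 := by
    have := mul_le_mul_of_nonneg_left hbd4 (by linarith : 0 ≤ b + d)
    calc (b + d) * b * d = (b + d) * (b * d) := by ring
      _ ≤ _ := this
      _ = (b + d) ^ 3 / 4 := by ring
  have hs : b + d ≤ 1 / 2 := by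
    by_contra hh
    push Not at hh
    have h1 : (1 - a) * (1 - b - d) ≤ 1 - (b + d) := by nlinarith
    have h2 : 0 ≤ (b + d - 1 / 2) * (1 - (b + d)) * (b + d + 3 / 2) := by
      apply mul_nonneg (mul_nonneg (by linarith) hs0) (by linarith)
    nlinarith
  have h1 : (1 / 18 - 1 / 1000) * (1 - (b + d)) ≤
      (a * b * (1 - a - b) + d * (1 - d) ^ 2 / 4) * (1 - (b + d)) :=
    mul_le_mul_of_nonneg_right hG hs0
  -- tangent line
  have h2 : a * (1 - a - b) ≤ 16 / 25 - b - (3 / 5 - b) * (1 - a) := by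
    nlinarith [sq_nonneg ((1 - a) - 4 / 5)]
  have h3 : b * (a * (1 - a - b)) * (1 - (b + d)) ≤
      b * (16 / 25 - b - (3 / 5 - b) * (1 - a)) * (1 - (b + d)) :=
    mul_le_mul_of_nonneg_right (mul_le_mul_of_nonneg_left h2 hb) hs0
  have h4 : (3 / 5 - b) * (27 / 50 - (b + d) * b * d) ≤
      (3 / 5 - b) * ((1 - a) * (1 - b - d)) :=
    mul_le_mul_of_nonneg_left (by linarith) (by linarith)
  have h5 := mul_le_mul_of_nonneg_left h4 hb
  have h6 := cert (2 * b) (2 * d) (1 - 2 * b - 2 * d) (by linarith) (by linarith) (by linarith) rfl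
  have e1 : 2 * b / 2 = b := by ring
  have e2 : 2 * d / 2 = d := by ring
  rw [e1, e2] at h6
  linarith

theorem amgm3 (x y z : ℝ) (hx : 0 ≤ x) (hy : 0 ≤ y) (hz : 0 ≤ z) (h : x + y + z ≤ 1) :
    x * y * z ≤ 1 / 27 := by
  have h1 : y * z ≤ (y + z) ^ 2 / 4 := by nlinarith [sq_nonneg (y - z)]
  have h2 : x * (y * z) ≤ x * ((y + z) ^ 2 / 4) := mul_le_mul_of_nonneg_left h1 hx
  have h3 : (y + z) ^ 2 ≤ (1 - x) ^ 2 := by
    apply pow_le_pow_left₀ (by linarith) (by linarith)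
  have h4 : x * ((y + z) ^ 2 / 4) ≤ x * ((1 - x) ^ 2 / 4) :=
    mul_le_mul_of_nonneg_left (by linarith) hx
  have hx1 : x ≤ 1 := by linarith
  nlinarith [mul_nonneg (by linarith : (0:ℝ) ≤ 4 / 3 - x) (sq_nonneg (x - 1 / 3))]

/-- the product of three numbers bounded by the first one -/
theorem prod_le (x y z : ℝ) (hy : 0 ≤ y) (hz : 0 ≤ z) (hx : 0 ≤ x)
    (h : x + y + z ≤ 1) : x * y * z ≤ y * (1 - y) ^ 2 / 4 := by
  have h1 : x * z ≤ (x + z) ^ 2 / 4 := by nlinarith [sq_nonneg (x - z)]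
  have h3 : (x + z) ^ 2 ≤ (1 - y) ^ 2 := by
    apply pow_le_pow_left₀ (by linarith) (by linarith)
  have h4 : y * (x * z) ≤ y * ((1 - y) ^ 2 / 4) :=
    mul_le_mul_of_nonneg_left (by linarith) hy
  nlinarith

end LemBAux

open LemBAux in
theorem lemB (n1 n2 n3 o12 o13 o21 o23 o31 o32 : ℝ)
    (hn1 : 0 ≤ n1) (hn2 : 0 ≤ n2) (hn3 : 0 ≤ n3) (h12 : 0 ≤ o12) (h13 : 0 ≤ o13)
    (h21 : 0 ≤ o21) (h23 : 0 ≤ o23) (h31 : 0 ≤ o31) (h32 : 0 ≤ o32)
    (hr1 : n1 + o12 + o13 ≤ 1) (hr2 : n2 + o21 + o23 ≤ 1) (hr3 : n3 + o31 + o32 ≤ 1)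
    (hd : o21 + o31 ≤ n1)
    (hS : 5 / 54 - 1 / 1000 ≤ n1 * o12 * o13 + n2 * o21 * o23 + n3 * o31 * o32) :
    23 / 25 ≤ D0 n1 n2 n3 o12 o13 o21 o23 o31 o32 := by
  have hp1 : n1 * o12 * o13 ≤ 1 / 27 := amgm3 _ _ _ hn1 h12 h13 hr1
  have hp2 : n2 * o21 * o23 ≤ n2 * o21 * (1 - n2 - o21) :=
    mul_le_mul_of_nonneg_left (by linarith) (mul_nonneg hn2 h21)
  have hp3 : n3 * o31 * o32 ≤ n3 * o31 * (1 - n3 - o31) :=
    mul_le_mul_of_nonneg_left (by linarith) (mul_nonneg hn3 h31)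
  have hq2 : n2 * o21 * o23 ≤ o21 * (1 - o21) ^ 2 / 4 :=
    prod_le _ _ _ h21 h23 hn2 (by linarith)
  have hq3 : n3 * o31 * o32 ≤ o31 * (1 - o31) ^ 2 / 4 :=
    prod_le _ _ _ h31 h32 hn3 (by linarith)
  have hs1 : o21 + o31 ≤ 1 := by linarith
  have k1 := core n2 o21 o31 hn2 h21 h31 (by linarith) hs1 (by linarith)
  have k2 := core n3 o31 o21 hn3 h31 h21 (by linarith) (by linarith) (by linarith)
  -- the three coefficients
  set A11 : ℝ := (1 - n2) * (1 - n3) - (1 - o23) * (1 - o32) with hA11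
  set A12 : ℝ := (1 - o23) * (1 - o31) + (1 - n3) * (1 - o21) with hA12
  set A13 : ℝ := (1 - o21) * (1 - o32) + (1 - n2) * (1 - o31) with hA13
  have hD : D0 n1 n2 n3 o12 o13 o21 o23 o31 o32 =
      -(1 - n1) * A11 + (1 - o12) * A12 + (1 - o13) * A13 := by
    simp only [hA11, hA12, hA13, D0]
    ring
  have g2 : 0 ≤ 1 - n2 := by linarith
  have g3 : 0 ≤ 1 - n3 := by linarith
  have g21 : 0 ≤ 1 - o21 := by linarith
  have g31 : 0 ≤ 1 - o31 := by linarith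
  have g23 : 0 ≤ 1 - o23 := by linarith
  have g32 : 0 ≤ 1 - o32 := by linarith
  have a12 : 0 ≤ A12 := by positivity
  have a13 : 0 ≤ A13 := by positivity
  -- monotonicity in `o23`, `o32`
  have hX : n2 + o21 ≤ 1 - o23 := by linarith
  have hZ : n3 + o31 ≤ 1 - o32 := by linarith
  have hXZ : (n2 + o21) * (n3 + o31) ≤ (1 - o23) * (1 - o32) :=
    mul_le_mul hX hZ (by linarith) g23
  have hs0 : 0 ≤ o21 + o31 := by linarith
  have hs' : 0 ≤ 1 - (o21 + o31) := by linarith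
  have m1 : (n2 + o21) * (1 - o31) ≤ (1 - o23) * (1 - o31) :=
    mul_le_mul_of_nonneg_right hX g31
  have m2 : (1 - o21) * (n3 + o31) ≤ (1 - o21) * (1 - o32) :=
    mul_le_mul_of_nonneg_left hZ g21
  have m3 : (1 - (o21 + o31)) * ((n2 + o21) * (n3 + o31)) ≤
      (1 - (o21 + o31)) * ((1 - o23) * (1 - o32)) := mul_le_mul_of_nonneg_left hXZ hs'
  have m4 : (o21 + o31) * ((1 - o21) * (n3 + o31)) ≤ (o21 + o31) * ((1 - o21) * (1 - o32)) :=
    mul_le_mul_of_nonneg_left m2 hs0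
  have m5 : (o21 + o31) * ((n2 + o21) * (1 - o31)) ≤ (o21 + o31) * ((1 - o23) * (1 - o31)) :=
    mul_le_mul_of_nonneg_left m1 hs0
  rw [hD]
  rcases le_total A12 A13 with hc | hc
  · -- `A13` is the larger one
    have b1 : o12 * A12 + o13 * A13 ≤ (1 - n1) * A13 := by
      have : o12 * A12 ≤ o12 * A13 := mul_le_mul_of_nonneg_left hc h12
      have h' : (o12 + o13) * A13 ≤ (1 - n1) * A13 :=
        mul_le_mul_of_nonneg_right (by linarith) a13
      linarith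
    have b2 : 0 ≤ A11 + A13 := by
      have e1 : o21 * (1 - o32) ≤ (1 - n2) * (2 - n3 - o31) := by
        have : (1 - n2) * (1 + o32) ≤ (1 - n2) * (2 - n3 - o31) :=
          mul_le_mul_of_nonneg_left (by linarith) g2
        have h'' : o21 * (1 + o32) ≤ (1 - n2) * (1 + o32) :=
          mul_le_mul_of_nonneg_right (by linarith) (by linarith)
        linarith [mul_nonneg h21 h32]
      have e2 : 0 ≤ o23 * (1 - o32) := mul_nonneg h23 g32
      simp only [hA11, hA13]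
      linarith
    have b3 : (1 - n1) * (A11 + A13) ≤ (1 - (o21 + o31)) * (A11 + A13) :=
      mul_le_mul_of_nonneg_right (by linarith) b2
    have b4 : 2 * (1 - ((1 - n2) * (1 - o21 - o31) + (o21 + o31) * o21 * o31)) ≤
        A12 + (o21 + o31) * A13 - (1 - (o21 + o31)) * A11 := by
      have e0 : 0 ≤ n3 * o21 * (1 - (o21 + o31)) :=
        mul_nonneg (mul_nonneg hn3 h21) hs'
      simp only [hA11, hA12, hA13]
      linarith
    linarith
  · have b1 : o12 * A12 + o13 * A13 ≤ (1 - n1) * A12 := by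
      have : o13 * A13 ≤ o13 * A12 := mul_le_mul_of_nonneg_left hc h13
      have h' : (o12 + o13) * A12 ≤ (1 - n1) * A12 :=
        mul_le_mul_of_nonneg_right (by linarith) a12
      linarith
    have b2 : 0 ≤ A11 + A12 := by
      have e1 : o31 * (1 - o23) ≤ (1 - n3) * (2 - n2 - o21) := by
        have : (1 - n3) * (1 + o23) ≤ (1 - n3) * (2 - n2 - o21) :=
          mul_le_mul_of_nonneg_left (by linarith) g3
        have h'' : o31 * (1 + o23) ≤ (1 - n3) * (1 + o23) :=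
          mul_le_mul_of_nonneg_right (by linarith) (by linarith)
        linarith [mul_nonneg h31 h23]
      have e2 : 0 ≤ o32 * (1 - o23) := mul_nonneg h32 g23
      simp only [hA11, hA12]
      linarith
    have b3 : (1 - n1) * (A11 + A12) ≤ (1 - (o21 + o31)) * (A11 + A12) :=
      mul_le_mul_of_nonneg_right (by linarith) b2
    have b4 : 2 * (1 - ((1 - n3) * (1 - o31 - o21) + (o31 + o21) * o31 * o21)) ≤
        (o21 + o31) * A12 + A13 - (1 - (o21 + o31)) * A11 := by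
      have e0 : 0 ≤ n2 * o31 * (1 - (o21 + o31)) :=
        mul_nonneg (mul_nonneg hn2 h31) hs'
      simp only [hA11, hA12, hA13]
      linarith
    linarith

end Pool.Agent.H349R2.Tet
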