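import Pool.Agent.H349R2.Tet.Corner3
import Pool.Agent.H349R2.Tet.LemA
import Pool.Agent.H349R2.Tet.LemB

/-!
# The structure of dense admissible lattices
-/

namespace Pool.Agent.H349R2.Tet

/-- three corner points generating a sublattice of index two -/
def Good (b : Fin 3 → V) : Prop := ∃ n1 n2 n3 o12 o13 o21 o23 o31 o32 : ℝ,
  (0 < n1 ∧ 0 < n2 ∧ 0 < n3 ∧ 0 < o12 ∧ 0 < o13 ∧ 0 < o21 ∧ 0 < o23 ∧ 0 < o31 ∧ 0 < o32) ∧
  (n1 + o12 + o13 ≤ 1 ∧ n2 + o21 + o23 ≤ 1 ∧ n3 + o31 + o32 ≤ 1) ∧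
  (n1 + o21 + o31 ≤ 1 ∧ n2 + o12 + o32 ≤ 1 ∧ n3 + o13 + o23 ≤ 1) ∧
  1 + (o12 + o13 + o21 + o23 + o31 + o32) ≤ n1 + n2 + n3 ∧
  1 - |dt b| - 1 / 27 ≤ n1 * o12 * o13 + n2 * o21 * o23 + n3 * o31 * o32 ∧
  D0 n1 n2 n3 o12 o13 o21 o23 o31 o32 = 2 * |dt b| ∧
  LL b (-(1 - n1)) (1 - o12) (1 - o13) ∧ LL b (1 - o21) (-(1 - n2)) (1 - o23) ∧
  LL b (1 - o31) (1 - o32) (-(1 - n3)) ∧
  LL b ((1 + n1 - o21 - o31) / 2) ((1 + n2 - o12 - o32) / 2) ((1 + n3 - o13 - o23) / 2)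

section

variable {b : Fin 3 → V} {n1 n2 n3 o12 o13 o21 o23 o31 o32 : ℝ}

theorem pair_sum (hadm : Adm b)
    (q1 : 0 < n1 ∧ 0 < o12 ∧ 0 < o13 ∧ n1 + o12 + o13 ≤ 1)
    (q2 : 0 < o21 ∧ 0 < n2 ∧ 0 < o23 ∧ o21 + n2 + o23 ≤ 1)
    (h : LL b (n1 - o21) (n2 - o12) (2 - o13 - o23)) : o13 + o23 ≤ 1 := by
  by_contra hc
  push Not at hc
  obtain ⟨a1, a2, a3, a4⟩ := q1
  obtain ⟨b1, b2, b3, b4⟩ := q2
  have i1 : |n1 - o21| < n1 + o21 := by rw [abs_lt]; constructor <;> linarith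
  have i2 : |n2 - o12| < n2 + o12 := by rw [abs_lt]; constructor <;> linarith
  have p : 0 < 2 - o13 - o23 := by linarith
  have i3 : |2 - o13 - o23| = 2 - o13 - o23 := abs_of_pos p
  refine hadm.absurd h (Or.inr (Or.inr p.ne')) (by linarith) (by linarith) (by linarith)
    (by linarith)

/-- the index is one or two -/
theorem triple1 (hadm : Adm b) (hb : dt b ≠ 0) (hlow : 23 / 27 ≤ |dt b|)
    (h1 : Cor b (-1) 1 1 n1 o12 o13) (h2 : Cor b 1 (-1) 1 o21 n2 o23)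
    (h3 : Cor b 1 1 (-1) o31 o32 n3)
    (hS : 1 / 18 - 1 / 1000 ≤ n1 * o12 * o13 + n2 * o21 * o23 + n3 * o31 * o32) :
    D0 n1 n2 n3 o12 o13 o21 o23 o31 o32 = |dt b| ∨
    (D0 n1 n2 n3 o12 o13 o21 o23 o31 o32 = 2 * |dt b| ∧
      LL b ((1 + n1 - o21 - o31) / 2) ((1 + n2 - o12 - o32) / 2) ((1 + n3 - o13 - o23) / 2)) := by
  obtain ⟨p1, q1⟩ := h1
  obtain ⟨p2, q2⟩ := h2
  obtain ⟨p3, q3⟩ := h3
  replace p1 : LL b (-(1 - n1)) (1 - o12) (1 - o13) := p1.congr (by ring) (by ring) (by ring)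
  replace p2 : LL b (1 - o21) (-(1 - n2)) (1 - o23) := p2.congr (by ring) (by ring) (by ring)
  replace p3 : LL b (1 - o31) (1 - o32) (-(1 - n3)) := p3.congr (by ring) (by ring) (by ring)
  have hDge := D0_ge n1 n2 n3 o12 o13 o21 o23 o31 o32 q1.1.le q2.2.1.le q3.2.2.1.le q1.2.1.le
    q1.2.2.1.le q2.1.le q2.2.2.1.le q3.1.le q3.2.1.le q1.2.2.2 (by linarith [q2.2.2.2])
    (by linarith [q3.2.2.2])
  have hDle := D0_le n1 n2 n3 o12 o13 o21 o23 o31 o32 q1.1.le q2.2.1.le q3.2.2.1.le q1.2.1.le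
    q1.2.2.1.le q2.1.le q2.2.2.1.le q3.1.le q3.2.1.le q1.2.2.2 (by linarith [q2.2.2.2])
    (by linarith [q3.2.2.2])
  have hDpos : 0 < D0 n1 n2 n3 o12 o13 o21 o23 o31 o32 := by
    have : 0 < 2 * n1 * n2 * n3 := by
      have := q1.1; have := q2.2.1; have := q3.2.2.1; positivity
    linarith
  obtain ⟨m, hm, hq⟩ := idx b p1 p2 p3
  have hm' : D0 n1 n2 n3 o12 o13 o21 o23 o31 o32 = m * dt b := by
    rw [← hm]; unfold D0; ring
  have hda : 0 < |dt b| := abs_pos.mpr hb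
  have hmabs : D0 n1 n2 n3 o12 o13 o21 o23 o31 o32 = (|m| : ℤ) * |dt b| := by
    rw [Int.cast_abs, ← abs_mul, ← hm', abs_of_pos hDpos]
  have hmpos : 0 < |m| := by
    rw [abs_pos]
    rintro rfl
    rw [Int.cast_zero, zero_mul] at hm'
    linarith
  have hmle : |m| ≤ 4 := by
    by_contra hc
    push Not at hc
    have h5 : (5 : ℝ) ≤ (|m| : ℤ) := by exact_mod_cast hc
    have := mul_le_mul_of_nonneg_right h5 hda.le
    linarith
  -- evenness gives the centre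
  have heven : (2 : ℤ) ∣ m → LL b ((1 + n1 - o21 - o31) / 2) ((1 + n2 - o12 - o32) / 2)
      ((1 + n3 - o13 - o23) / 2) := by
    intro h2m
    obtain ⟨t1, t2, t3, ht, hl⟩ := hq 2 Nat.prime_two (by exact_mod_cast h2m)
    obtain ⟨e1, e2, e3, c1, c2, c3, hne, hh⟩ := idx_two p1 p2 p3 (by exact_mod_cast ht)
      (hl.congr (by norm_num) (by norm_num) (by norm_num))
    exact half_triple hadm q1 q2 q3 c1 c2 c3 hne hh
  have hcases : |m| = 1 ∨ |m| = 2 ∨ |m| = 3 ∨ |m| = 4 := by omega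
  rcases hcases with hk | hk | hk | hk
  · left
    rw [hmabs, hk]; norm_num
  · right
    refine ⟨by rw [hmabs, hk]; norm_num, heven ?_⟩
    rw [← dvd_abs, hk]
  · exfalso
    obtain ⟨t1, t2, t3, ht, hl⟩ := hq 3 Nat.prime_three (by
      rw [← dvd_abs, hk]; norm_num)
    obtain ⟨e1, e2, e3, c1, c2, c3, hne, hh⟩ := idx_three p1 p2 p3 (by exact_mod_cast ht)
      (hl.congr (by norm_num) (by norm_num) (by norm_num))
    exact no_third hadm q1 q2 q3 hDpos hS c1 c2 c3 hne hh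
  · exfalso
    have h2m : (2 : ℤ) ∣ m := by rw [← dvd_abs, hk]; norm_num
    have u0 := heven h2m
    obtain ⟨m', hmm, hq'⟩ := idx b p1 p2 u0
    have hm2 : (m : ℝ) * dt b = 2 * (m' * dt b) := by
      rw [← hm', ← hmm]; unfold D0; ring
    have hm3 : (m : ℝ) = 2 * m' := by
      have : ((m : ℝ) - 2 * m') * dt b = 0 := by linarith
      rcases mul_eq_zero.mp this with h | h
      · linarith
      · exact absurd h hb
    have hm4 : m = 2 * m' := by exact_mod_cast hm3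
    have hm5 : (2 : ℤ) ∣ m' := by
      have : |m'| = 2 := by
        rw [hm4, abs_mul] at hk
        norm_num at hk
        linarith
      rw [← dvd_abs, this]
    obtain ⟨t1, t2, t3, ht, hl⟩ := hq' 2 Nat.prime_two (by exact_mod_cast hm5)
    obtain ⟨e1, e2, e3, c1, c2, c3, hne, hh⟩ := idx_two p1 p2 u0 (by exact_mod_cast ht)
      (hl.congr (by norm_num) (by norm_num) (by norm_num))
    rcases c3 with rfl | rfl
    · refine half_combo hadm q1 q2 c1 c2 ?_ (hh.congr (by ring) (by ring) (by ring))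
      rcases hne with h | h | h
      · exact Or.inl h
      · exact Or.inr h
      · simp at h
    · exact no_quarter hadm q1 q2 q3 p1 p2 c1 c2 hh

theorem good_of (hadm : Adm b)
    (h1 : Cor b (-1) 1 1 n1 o12 o13) (h2 : Cor b 1 (-1) 1 o21 n2 o23)
    (h3 : Cor b 1 1 (-1) o31 o32 n3)
    (hS : 1 - |dt b| - 1 / 27 ≤ n1 * o12 * o13 + n2 * o21 * o23 + n3 * o31 * o32)
    (hD : D0 n1 n2 n3 o12 o13 o21 o23 o31 o32 = 2 * |dt b|)
    (hu : LL b ((1 + n1 - o21 - o31) / 2) ((1 + n2 - o12 - o32) / 2)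
      ((1 + n3 - o13 - o23) / 2)) : Good b := by
  obtain ⟨p1, q1⟩ := h1
  obtain ⟨p2, q2⟩ := h2
  obtain ⟨p3, q3⟩ := h3
  replace p1 : LL b (-(1 - n1)) (1 - o12) (1 - o13) := p1.congr (by ring) (by ring) (by ring)
  replace p2 : LL b (1 - o21) (-(1 - n2)) (1 - o23) := p2.congr (by ring) (by ring) (by ring)
  replace p3 : LL b (1 - o31) (1 - o32) (-(1 - n3)) := p3.congr (by ring) (by ring) (by ring)
  have C3 : o13 + o23 ≤ 1 := pair_sum hadm q1 q2 ((p1.add p2).congr (by ring) (by ring) (by ring))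
  obtain ⟨a1, a2, a3, a4⟩ := q1
  obtain ⟨b1, b2, b3, b4⟩ := q2
  obtain ⟨d1, d2, d3, d4⟩ := q3
  have C2 : o12 + o32 ≤ 1 := by
    by_contra hc
    push Not at hc
    have h : LL b (n1 - o31) (2 - o12 - o32) (n3 - o13) :=
      (p1.add p3).congr (by ring) (by ring) (by ring)
    have i1 : |n1 - o31| < n1 + o31 := by rw [abs_lt]; constructor <;> linarith
    have i2 : |n3 - o13| < n3 + o13 := by rw [abs_lt]; constructor <;> linarith
    have p : 0 < 2 - o12 - o32 := by linarith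
    have i3 : |2 - o12 - o32| = 2 - o12 - o32 := abs_of_pos p
    refine hadm.absurd h (Or.inr (Or.inl p.ne')) (by linarith) (by linarith) (by linarith)
      (by linarith)
  have C1 : o21 + o31 ≤ 1 := by
    by_contra hc
    push Not at hc
    have h : LL b (2 - o21 - o31) (n2 - o32) (n3 - o23) :=
      (p2.add p3).congr (by ring) (by ring) (by ring)
    have i1 : |n2 - o32| < n2 + o32 := by rw [abs_lt]; constructor <;> linarith
    have i2 : |n3 - o23| < n3 + o23 := by rw [abs_lt]; constructor <;> linarith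
    have p : 0 < 2 - o21 - o31 := by linarith
    have i3 : |2 - o21 - o31| = 2 - o21 - o31 := abs_of_pos p
    refine hadm.absurd h (Or.inl p.ne') (by linarith) (by linarith) (by linarith)
      (by linarith)
  -- the norm of the centre
  have hXY : 1 + (o12 + o13 + o21 + o23 + o31 + o32) ≤ n1 + n2 + n3 := by
    have e1 : |(1 + n1 - o21 - o31) / 2| = (1 + n1 - o21 - o31) / 2 := abs_of_pos (by linarith)
    have e2 : |(1 + n2 - o12 - o32) / 2| = (1 + n2 - o12 - o32) / 2 := abs_of_pos (by linarith)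
    have e3 : |(1 + n3 - o13 - o23) / 2| = (1 + n3 - o13 - o23) / 2 := abs_of_pos (by linarith)
    have p : 0 < (1 + n1 - o21 - o31) / 2 := by linarith
    have := hadm.ge hu (Or.inl p.ne') (by linarith) (by linarith) (by linarith)
    linarith
  refine ⟨n1, n2, n3, o12, o13, o21, o23, o31, o32, ⟨a1, b2, d3, a2, a3, b1, b3, d1, d2⟩,
    ⟨a4, by linarith, by linarith⟩, ⟨?_, ?_, ?_⟩, hXY, hS, hD, p1, p2, p3, hu⟩
  · by_contra hc
    push Not at hc
    have h : LL b ((3 - n1 - o21 - o31) / 2) ((-1 + o12 + n2 - o32) / 2)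
        ((-1 + o13 - o23 + n3) / 2) := (hu.sub p1).congr (by ring) (by ring) (by ring)
    have p : 0 < (3 - n1 - o21 - o31) / 2 := by linarith
    have i1 : |(3 - n1 - o21 - o31) / 2| = (3 - n1 - o21 - o31) / 2 := abs_of_pos p
    have i2 : |(-1 + o12 + n2 - o32) / 2| < 1 := by rw [abs_lt]; constructor <;> linarith
    have i3 : |(-1 + o13 - o23 + n3) / 2| < 1 := by rw [abs_lt]; constructor <;> linarith
    refine hadm.absurd h (Or.inl p.ne') (by linarith) i2 i3 ?_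
    rw [i1]
    rcases abs_cases ((-1 + o12 + n2 - o32) / 2) with ⟨e1, _⟩ | ⟨e1, _⟩ <;>
    rcases abs_cases ((-1 + o13 - o23 + n3) / 2) with ⟨e2, _⟩ | ⟨e2, _⟩ <;>
    rw [e1, e2] <;> linarith
  · by_contra hc
    push Not at hc
    have h : LL b ((-1 + n1 + o21 - o31) / 2) ((3 - n2 - o12 - o32) / 2)
        ((-1 + o23 - o13 + n3) / 2) := (hu.sub p2).congr (by ring) (by ring) (by ring)
    have p : 0 < (3 - n2 - o12 - o32) / 2 := by linarith
    have i1 : |(3 - n2 - o12 - o32) / 2| = (3 - n2 - o12 - o32) / 2 := abs_of_pos p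
    have i2 : |(-1 + n1 + o21 - o31) / 2| < 1 := by rw [abs_lt]; constructor <;> linarith
    have i3 : |(-1 + o23 - o13 + n3) / 2| < 1 := by rw [abs_lt]; constructor <;> linarith
    refine hadm.absurd h (Or.inr (Or.inl p.ne')) i2 (by linarith) i3 ?_
    rw [i1]
    rcases abs_cases ((-1 + n1 + o21 - o31) / 2) with ⟨e1, _⟩ | ⟨e1, _⟩ <;>
    rcases abs_cases ((-1 + o23 - o13 + n3) / 2) with ⟨e2, _⟩ | ⟨e2, _⟩ <;>
    rw [e1, e2] <;> linarith
  · by_contra hc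
    push Not at hc
    have h : LL b ((-1 + n1 + o31 - o21) / 2) ((-1 + n2 + o32 - o12) / 2)
        ((3 - n3 - o13 - o23) / 2) := (hu.sub p3).congr (by ring) (by ring) (by ring)
    have p : 0 < (3 - n3 - o13 - o23) / 2 := by linarith
    have i1 : |(3 - n3 - o13 - o23) / 2| = (3 - n3 - o13 - o23) / 2 := abs_of_pos p
    have i2 : |(-1 + n1 + o31 - o21) / 2| < 1 := by rw [abs_lt]; constructor <;> linarith
    have i3 : |(-1 + n2 + o32 - o12) / 2| < 1 := by rw [abs_lt]; constructor <;> linarith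
    refine hadm.absurd h (Or.inr (Or.inr p.ne')) i2 i3 (by linarith) ?_
    rw [i1]
    rcases abs_cases ((-1 + n1 + o31 - o21) / 2) with ⟨e1, _⟩ | ⟨e1, _⟩ <;>
    rcases abs_cases ((-1 + n2 + o32 - o12) / 2) with ⟨e2, _⟩ | ⟨e2, _⟩ <;>
    rw [e1, e2] <;> linarith

/-- either the structure we want, or index one and a dominance relation -/
theorem triple2 (hadm : Adm b) (hb : dt b ≠ 0) (hup : |dt b| ≤ 49 / 54 + 1 / 1000)
    (h1 : Cor b (-1) 1 1 n1 o12 o13) (h2 : Cor b 1 (-1) 1 o21 n2 o23)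
    (h3 : Cor b 1 1 (-1) o31 o32 n3) :
    Good b ∨ (D0 n1 n2 n3 o12 o13 o21 o23 o31 o32 < 1 ∧
      (o21 + o31 ≤ n1 ∨ o12 + o32 ≤ n2 ∨ o13 + o23 ≤ n3)) := by
  obtain ⟨R0, R1, R2, R3, r0, r1, r2, r3, hR⟩ := bonf4 b hb hadm
  have g1 := r1.2.2.2 _ _ _ h1
  have g2 := r2.2.2.2 _ _ _ h2
  have g3 := r3.2.2.2 _ _ _ h3
  have k0 := r0.2.1
  have k1 := r1.2.1
  have k2 := r2.2.1
  have k3 := r3.2.1
  have hS : 1 - |dt b| - 1 / 27 ≤ n1 * o12 * o13 + n2 * o21 * o23 + n3 * o31 * o32 := by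
    rw [g1, g2, g3] at hR; linarith
  rcases triple1 hadm hb (by linarith) h1 h2 h3 (by linarith) with hD | ⟨hD, hu⟩
  · right
    refine ⟨by rw [hD]; linarith, ?_⟩
    by_contra hc
    push Not at hc
    obtain ⟨w1, w2, w3⟩ := hc
    obtain ⟨p1, q1⟩ := h1
    obtain ⟨p2, q2⟩ := h2
    obtain ⟨p3, q3⟩ := h3
    replace p1 : LL b (-(1 - n1)) (1 - o12) (1 - o13) := p1.congr (by ring) (by ring) (by ring)
    replace p2 : LL b (1 - o21) (-(1 - n2)) (1 - o23) := p2.congr (by ring) (by ring) (by ring)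
    replace p3 : LL b (1 - o31) (1 - o32) (-(1 - n3)) := p3.congr (by ring) (by ring) (by ring)
    have C3 : o13 + o23 ≤ 1 :=
      pair_sum hadm q1 q2 ((p1.add p2).congr (by ring) (by ring) (by ring))
    obtain ⟨a1, a2, a3, a4⟩ := q1
    obtain ⟨b1, b2, b3, b4⟩ := q2
    obtain ⟨d1, d2, d3, d4⟩ := q3
    have C2 : o12 + o32 ≤ 1 := by
      by_contra hc
      push Not at hc
      have h : LL b (n1 - o31) (2 - o12 - o32) (n3 - o13) :=
        (p1.add p3).congr (by ring) (by ring) (by ring)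
      have i1 : |n1 - o31| < n1 + o31 := by rw [abs_lt]; constructor <;> linarith
      have i2 : |n3 - o13| < n3 + o13 := by rw [abs_lt]; constructor <;> linarith
      have p : 0 < 2 - o12 - o32 := by linarith
      have i3 : |2 - o12 - o32| = 2 - o12 - o32 := abs_of_pos p
      refine hadm.absurd h (Or.inr (Or.inl p.ne')) (by linarith) (by linarith) (by linarith)
        (by linarith)
    have C1 : o21 + o31 ≤ 1 := by
      by_contra hc
      push Not at hc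
      have h : LL b (2 - o21 - o31) (n2 - o32) (n3 - o23) :=
        (p2.add p3).congr (by ring) (by ring) (by ring)
      have i1 : |n2 - o32| < n2 + o32 := by rw [abs_lt]; constructor <;> linarith
      have i2 : |n3 - o23| < n3 + o23 := by rw [abs_lt]; constructor <;> linarith
      have p : 0 < 2 - o21 - o31 := by linarith
      have i3 : |2 - o21 - o31| = 2 - o21 - o31 := abs_of_pos p
      refine hadm.absurd h (Or.inl p.ne') (by linarith) (by linarith) (by linarith)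
        (by linarith)
    have hq : LL b (1 + n1 - o21 - o31) (1 + n2 - o12 - o32) (1 + n3 - o13 - o23) :=
      ((p1.add p2).add p3).congr (by ring) (by ring) (by ring)
    have e1 : |1 + n1 - o21 - o31| = 1 + n1 - o21 - o31 := abs_of_pos (by linarith)
    have e2 : |1 + n2 - o12 - o32| = 1 + n2 - o12 - o32 := abs_of_pos (by linarith)
    have e3 : |1 + n3 - o13 - o23| = 1 + n3 - o13 - o23 := abs_of_pos (by linarith)
    have p : 0 < 1 + n1 - o21 - o31 := by linarith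
    have hge := hadm.ge hq (Or.inl p.ne') (by linarith) (by linarith) (by linarith)
    rw [e1, e2, e3] at hge
    have hc0 : Cor b 1 1 1 (o21 + o31 - n1) (o12 + o32 - n2) (o13 + o23 - n3) :=
      ⟨hq.congr (by ring) (by ring) (by ring), by linarith, by linarith, by linarith,
        by linarith⟩
    have g0 := r0.2.2.2 _ _ _ hc0
    have := lemA n1 n2 n3 o12 o13 o21 o23 o31 o32 a1.le b2.le d3.le a2.le a3.le b1.le b3.le d1.le
      d2.le a4 (by linarith) (by linarith) C1 C2 C3 w1.le w2.le w3.le (by linarith)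
      (by rw [g0, g1, g2, g3] at hR; linarith)
    rw [hD] at this
    linarith
  · left
    exact good_of hadm h1 h2 h3 hS hD hu

theorem lemB' (n1 n2 n3 o12 o13 o21 o23 o31 o32 : ℝ)
    (hn1 : 0 ≤ n1) (hn2 : 0 ≤ n2) (hn3 : 0 ≤ n3) (h12 : 0 ≤ o12) (h13 : 0 ≤ o13)
    (h21 : 0 ≤ o21) (h23 : 0 ≤ o23) (h31 : 0 ≤ o31) (h32 : 0 ≤ o32)
    (hr1 : n1 + o12 + o13 ≤ 1) (hr2 : n2 + o21 + o23 ≤ 1) (hr3 : n3 + o31 + o32 ≤ 1)
    (hd : o21 + o31 ≤ n1 ∨ o12 + o32 ≤ n2 ∨ o13 + o23 ≤ n3)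
    (hS : 5 / 54 - 1 / 1000 ≤ n1 * o12 * o13 + n2 * o21 * o23 + n3 * o31 * o32) :
    23 / 25 ≤ D0 n1 n2 n3 o12 o13 o21 o23 o31 o32 := by
  rcases hd with hd | hd | hd
  · exact lemB _ _ _ _ _ _ _ _ _ hn1 hn2 hn3 h12 h13 h21 h23 h31 h32 hr1 hr2 hr3 hd hS
  · have := lemB n2 n1 n3 o21 o23 o12 o13 o32 o31 hn2 hn1 hn3 h21 h23 h12 h13 h32 h31
      (by linarith) (by linarith) (by linarith) (by linarith) (by linarith)
    have e : D0 n2 n1 n3 o21 o23 o12 o13 o32 o31 = D0 n1 n2 n3 o12 o13 o21 o23 o31 o32 := by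
      unfold D0; ring
    rwa [e] at this
  · have := lemB n3 n2 n1 o32 o31 o23 o21 o13 o12 hn3 hn2 hn1 h32 h31 h23 h21 h13 h12
      (by linarith) (by linarith) (by linarith) (by linarith) (by linarith)
    have e : D0 n3 n2 n1 o32 o31 o23 o21 o13 o12 = D0 n1 n2 n3 o12 o13 o21 o23 o31 o32 := by
      unfold D0; ring
    rwa [e] at this

end

/-- the case without a corner of class `(1,1,1)` -/
theorem caseB {b : Fin 3 → V} (hadm : Adm b) (hb : dt b ≠ 0)
    (hup : |dt b| ≤ 49 / 54 + 1 / 1000) {R0 R1 R2 R3 : ℝ} (r0 : RC b 1 1 1 R0)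
    (r1 : RC b (-1) 1 1 R1) (r2 : RC b 1 (-1) 1 R2) (r3 : RC b 1 1 (-1) R3)
    (hR : 1 ≤ |dt b| + (R0 + R1 + R2 + R3)) (hR0 : R0 = 0) : Good b := by
  have k1 := r1.2.1
  have k2 := r2.2.1
  have k3 := r3.2.1
  obtain ⟨n1, o12, o13, h1⟩ := r1.2.2.1.resolve_right (by intro h; linarith)
  obtain ⟨o21, n2, o23, h2⟩ := r2.2.2.1.resolve_right (by intro h; linarith)
  obtain ⟨o31, o32, n3, h3⟩ := r3.2.2.1.resolve_right (by intro h; linarith)
  have g1 := r1.2.2.2 _ _ _ h1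
  have g2 := r2.2.2.2 _ _ _ h2
  have g3 := r3.2.2.2 _ _ _ h3
  have hS : 1 - |dt b| ≤ n1 * o12 * o13 + n2 * o21 * o23 + n3 * o31 * o32 := by
    rw [g1, g2, g3, hR0] at hR; linarith
  rcases triple1 hadm hb (by linarith) h1 h2 h3 (by linarith) with hD | ⟨hD, hu⟩
  · rcases triple2 hadm hb hup h1 h2 h3 with h | ⟨_, hd⟩
    · exact h
    · exfalso
      obtain ⟨_, a1, a2, a3, a4⟩ := h1
      obtain ⟨_, b1, b2, b3, b4⟩ := h2
      obtain ⟨_, d1, d2, d3, d4⟩ := h3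
      have := lemB' n1 n2 n3 o12 o13 o21 o23 o31 o32 a1.le b2.le d3.le a2.le a3.le b1.le b3.le
        d1.le d2.le a4 (by linarith) (by linarith) hd (by linarith)
      rw [hD] at this
      linarith
  · exact good_of hadm h1 h2 h3 (by linarith) hD hu

end Pool.Agent.H349R2.Tet
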