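import Pool.Agent.H349R2.Tet.Corner4

/-!
# The structure theorem
-/

namespace Pool.Agent.H349R2.Tet

theorem Cor_rf {ε : V} (hε : ∀ i, ε i * ε i = 1) {b : Fin 3 → V} {s0 s1 s2 x y z : ℝ} :
    Cor (rf ε b) s0 s1 s2 x y z ↔ Cor b (ε 0 * s0) (ε 1 * s1) (ε 2 * s2) x y z := by
  unfold Cor
  rw [LL_rf_iff hε]
  simp only [mul_assoc]

theorem RC_rf {ε : V} (hε : ∀ i, ε i * ε i = 1) {b : Fin 3 → V} {s0 s1 s2 R : ℝ} :
    RC (rf ε b) s0 s1 s2 R ↔ RC b (ε 0 * s0) (ε 1 * s1) (ε 2 * s2) R := by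
  unfold RC
  simp only [Cor_rf hε]

theorem RC.neg {b : Fin 3 → V} {s0 s1 s2 R : ℝ} (h : RC b s0 s1 s2 R) :
    RC b (-s0) (-s1) (-s2) R := by
  obtain ⟨h1, h2, h3, h4⟩ := h
  refine ⟨h1, h2, ?_, ?_⟩
  · rcases h3 with ⟨x, y, z, h⟩ | h
    · exact Or.inl ⟨x, y, z, h.neg⟩
    · exact Or.inr h
  · intro x y z h
    have := h.neg
    simp only [neg_neg] at this
    exact h4 _ _ _ this

/-- the reflection in the first coordinate -/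
def e1 : V := ![-1, 1, 1]
/-- the reflection in the second coordinate -/
def e2 : V := ![1, -1, 1]
/-- the reflection in the third coordinate -/
def e3 : V := ![1, 1, -1]

theorem e1_sq (i : Fin 3) : e1 i * e1 i = 1 := by fin_cases i <;> simp [e1]
theorem e2_sq (i : Fin 3) : e2 i * e2 i = 1 := by fin_cases i <;> simp [e2]
theorem e3_sq (i : Fin 3) : e3 i * e3 i = 1 := by fin_cases i <;> simp [e3]

theorem dt_rf_ne {ε : V} (hε : ∀ i, ε i * ε i = 1) {b : Fin 3 → V} (hb : dt b ≠ 0) :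
    dt (rf ε b) ≠ 0 := by
  rw [← abs_pos, abs_dt_rf hε]
  exact abs_pos.mpr hb

/-- the combinatorial core -/
theorem dominance (a1 a2 a3 b1 b2 b3 c1 c2 c3 d1 d2 d3 : ℝ)
    (ha : 0 < a1 ∧ 0 < a2 ∧ 0 < a3 ∧ a1 + a2 + a3 ≤ 1)
    (hb : 0 < b1 ∧ 0 < b2 ∧ 0 < b3 ∧ b1 + b2 + b3 ≤ 1)
    (hc : 0 < c1 ∧ 0 < c2 ∧ 0 < c3 ∧ c1 + c2 + c3 ≤ 1)
    (hd : 0 < d1 ∧ 0 < d2 ∧ 0 < d3 ∧ d1 + d2 + d3 ≤ 1)
    (LA : 1 < c2 + c3 + d1 + d3 + b1 + b2) (LC : 1 < a2 + a3 + b1 + b3 + d1 + d2)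
    (LD : 1 < b2 + b3 + a1 + a3 + c1 + c2) (LB : 1 < d2 + d3 + c1 + c3 + a1 + a2)
    (hA : d1 + b1 ≤ c1 ∨ c2 + b2 ≤ d2 ∨ c3 + d3 ≤ b3)
    (hC : b1 + d1 ≤ a1 ∨ a2 + d2 ≤ b2 ∨ a3 + b3 ≤ d3)
    (hD : a1 + c1 ≤ b1 ∨ b2 + c2 ≤ a2 ∨ b3 + a3 ≤ c3)
    (hB : c1 + a1 ≤ d1 ∨ d2 + a2 ≤ c2 ∨ d3 + c3 ≤ a3) : False := by
  obtain ⟨_, _, _, _⟩ := ha
  obtain ⟨_, _, _, _⟩ := hb
  obtain ⟨_, _, _, _⟩ := hc
  obtain ⟨_, _, _, _⟩ := hd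
  rcases hA with hA | hA | hA <;> rcases hC with hC | hC | hC <;>
    rcases hD with hD | hD | hD <;> rcases hB with hB | hB | hB <;> linarith

theorem structure_thm {b : Fin 3 → V} (hadm : Adm b) (hb : dt b ≠ 0)
    (hup : |dt b| ≤ 49 / 54 + 1 / 1000) :
    ∃ ε : V, (∀ i, ε i = 1 ∨ ε i = -1) ∧ Good (rf ε b) := by
  obtain ⟨R0, R1, R2, R3, r0, r1, r2, r3, hR⟩ := bonf4 b hb hadm
  have hup1 : |dt (rf e1 b)| ≤ 49 / 54 + 1 / 1000 := by rwa [abs_dt_rf e1_sq]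
  have hup2 : |dt (rf e2 b)| ≤ 49 / 54 + 1 / 1000 := by rwa [abs_dt_rf e2_sq]
  have hup3 : |dt (rf e3 b)| ≤ 49 / 54 + 1 / 1000 := by rwa [abs_dt_rf e3_sq]
  have hs1 : ∀ i, e1 i = 1 ∨ e1 i = -1 := by intro i; fin_cases i <;> simp [e1]
  have hs2 : ∀ i, e2 i = 1 ∨ e2 i = -1 := by intro i; fin_cases i <;> simp [e2]
  have hs3 : ∀ i, e3 i = 1 ∨ e3 i = -1 := by intro i; fin_cases i <;> simp [e3]
  have hrf1 : rf (fun _ => (1 : ℝ)) b = b := by ext i j; simp [rf]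
  by_cases z0 : R0 = 0
  · refine ⟨fun _ => 1, fun _ => Or.inl rfl, ?_⟩
    rw [hrf1]
    exact caseB hadm hb hup r0 r1 r2 r3 hR z0
  by_cases z1 : R1 = 0
  · refine ⟨e1, hs1, ?_⟩
    refine caseB (R0 := R1) (R1 := R0) (R2 := R3) (R3 := R2) (hadm.rf e1_sq)
      (dt_rf_ne e1_sq hb) hup1 ?_ ?_ ?_ ?_ ?_ z1
    · rw [RC_rf e1_sq]; simpa [e1] using r1
    · rw [RC_rf e1_sq]; simpa [e1] using r0
    · rw [RC_rf e1_sq]; simpa [e1] using r3.neg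
    · rw [RC_rf e1_sq]; simpa [e1] using r2.neg
    · rw [abs_dt_rf e1_sq]; linarith
  by_cases z2 : R2 = 0
  · refine ⟨e2, hs2, ?_⟩
    refine caseB (R0 := R2) (R1 := R3) (R2 := R0) (R3 := R1) (hadm.rf e2_sq)
      (dt_rf_ne e2_sq hb) hup2 ?_ ?_ ?_ ?_ ?_ z2
    · rw [RC_rf e2_sq]; simpa [e2] using r2
    · rw [RC_rf e2_sq]; simpa [e2] using r3.neg
    · rw [RC_rf e2_sq]; simpa [e2] using r0
    · rw [RC_rf e2_sq]; simpa [e2] using r1.neg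
    · rw [abs_dt_rf e2_sq]; linarith
  by_cases z3 : R3 = 0
  · refine ⟨e3, hs3, ?_⟩
    refine caseB (R0 := R3) (R1 := R2) (R2 := R1) (R3 := R0) (hadm.rf e3_sq)
      (dt_rf_ne e3_sq hb) hup3 ?_ ?_ ?_ ?_ ?_ z3
    · rw [RC_rf e3_sq]; simpa [e3] using r3
    · rw [RC_rf e3_sq]; simpa [e3] using r2.neg
    · rw [RC_rf e3_sq]; simpa [e3] using r1.neg
    · rw [RC_rf e3_sq]; simpa [e3] using r0
    · rw [abs_dt_rf e3_sq]; linarith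
  obtain ⟨a1, a2, a3, hA⟩ := r0.2.2.1.resolve_right z0
  obtain ⟨c1, c2, c3, hC⟩ := r1.2.2.1.resolve_right z1
  obtain ⟨d1, d2, d3, hD⟩ := r2.2.2.1.resolve_right z2
  obtain ⟨b1, b2, b3, hB⟩ := r3.2.2.1.resolve_right z3
  rcases triple2 hadm hb hup hC hD hB with h | ⟨DA, tA⟩
  · refine ⟨fun _ => 1, fun _ => Or.inl rfl, ?_⟩
    rw [hrf1]; exact h
  rcases triple2 (hadm.rf e1_sq) (dt_rf_ne e1_sq hb) hup1
    (n1 := a1) (o12 := a2) (o13 := a3) (o21 := b1) (n2 := b2) (o23 := b3) (o31 := d1)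
    (o32 := d2) (n3 := d3) (by rw [Cor_rf e1_sq]; simpa [e1] using hA)
    (by rw [Cor_rf e1_sq]; simpa [e1] using hB.neg)
    (by rw [Cor_rf e1_sq]; simpa [e1] using hD.neg) with h | ⟨DC, tC⟩
  · exact ⟨e1, hs1, h⟩
  rcases triple2 (hadm.rf e2_sq) (dt_rf_ne e2_sq hb) hup2
    (n1 := b1) (o12 := b2) (o13 := b3) (o21 := a1) (n2 := a2) (o23 := a3) (o31 := c1)
    (o32 := c2) (n3 := c3) (by rw [Cor_rf e2_sq]; simpa [e2] using hB.neg)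
    (by rw [Cor_rf e2_sq]; simpa [e2] using hA)
    (by rw [Cor_rf e2_sq]; simpa [e2] using hC.neg) with h | ⟨DD, tD⟩
  · exact ⟨e2, hs2, h⟩
  rcases triple2 (hadm.rf e3_sq) (dt_rf_ne e3_sq hb) hup3
    (n1 := d1) (o12 := d2) (o13 := d3) (o21 := c1) (n2 := c2) (o23 := c3) (o31 := a1)
    (o32 := a2) (n3 := a3) (by rw [Cor_rf e3_sq]; simpa [e3] using hD.neg)
    (by rw [Cor_rf e3_sq]; simpa [e3] using hC.neg)
    (by rw [Cor_rf e3_sq]; simpa [e3] using hA) with h | ⟨DB, tB⟩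
  · exact ⟨e3, hs3, h⟩
  exfalso
  obtain ⟨_, qa1, qa2, qa3, qa4⟩ := hA
  obtain ⟨_, qb1, qb2, qb3, qb4⟩ := hB
  obtain ⟨_, qc1, qc2, qc3, qc4⟩ := hC
  obtain ⟨_, qd1, qd2, qd3, qd4⟩ := hD
  refine dominance a1 a2 a3 b1 b2 b3 c1 c2 c3 d1 d2 d3 ⟨qa1, qa2, qa3, qa4⟩ ⟨qb1, qb2, qb3, qb4⟩
    ⟨qc1, qc2, qc3, qc4⟩ ⟨qd1, qd2, qd3, qd4⟩ ?_ ?_ ?_ ?_ tA tC tD tB
  · by_contra hcon
    push Not at hcon
    have := lemC c1 d2 b3 c2 c3 d1 d3 b1 b2 qc1.le qd2.le qb3.le qc2.le qc3.le qd1.le qd3.le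
      qb1.le qb2.le (by linarith) (by linarith) (by linarith) (by linarith)
    linarith
  · by_contra hcon
    push Not at hcon
    have := lemC a1 b2 d3 a2 a3 b1 b3 d1 d2 qa1.le qb2.le qd3.le qa2.le qa3.le qb1.le qb3.le
      qd1.le qd2.le (by linarith) (by linarith) (by linarith) (by linarith)
    linarith
  · by_contra hcon
    push Not at hcon
    have := lemC b1 a2 c3 b2 b3 a1 a3 c1 c2 qb1.le qa2.le qc3.le qb2.le qb3.le qa1.le qa3.le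
      qc1.le qc2.le (by linarith) (by linarith) (by linarith) (by linarith)
    linarith
  · by_contra hcon
    push Not at hcon
    have := lemC d1 c2 a3 d2 d3 c1 c3 a1 a2 qd1.le qc2.le qa3.le qd2.le qd3.le qc1.le qc3.le
      qa1.le qa2.le (by linarith) (by linarith) (by linarith) (by linarith)
    linarith

end Pool.Agent.H349R2.Tet
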