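import Mathlib

/-!
# Lattice packings of tetrahedra and of a slightly truncated tetrahedron: definitions
-/

namespace Pool.Agent.H349R2.Tet

open MeasureTheory

/-- three-dimensional space, with Lebesgue measure -/
abbrev V := Fin 3 → ℝ

/-- the set of integer combinations of `b 0`, `b 1`, `b 2` -/
def lat (b : Fin 3 → V) : Set V := {x | ∃ z : Fin 3 → ℤ, x = ∑ i, (z i : ℝ) • b i}

/-- the determinant of the matrix with rows `b 0`, `b 1`, `b 2` -/
noncomputable def dt (b : Fin 3 → V) : ℝ := (Matrix.of b).det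

/-- four vectors with sum zero -/
def nv : Fin 4 → V := ![![1, 1, 1], ![1, -1, -1], ![-1, 1, -1], ![-1, -1, 1]]

/-- barycentric coordinates with respect to the tetrahedron with vertices `nv i / 2` -/
noncomputable def lam (i : Fin 4) (x : V) : ℝ := ((∑ j, nv i j * x j) + 1 / 2) / 2

/-- the regular tetrahedron with vertices `nv i / 2` -/
def T : Set V := {x | ∀ i, 0 ≤ lam i x}

/-- the truncated body `K c` -/
def K (c : ℝ) : Set V :=
  {x | (∀ i, 0 ≤ lam i x) ∧ ∀ i j, i ≠ j → c * (3 * lam i x - 2) ≤ lam j x}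

/-- the translates of the interior of `A` by `0` and `u` meet -/
def Ov (A : Set V) (u : V) : Prop := ∃ x ∈ interior A, x - u ∈ interior A

/-- the determinant polynomial of three corner points -/
def D0 (n1 n2 n3 o12 o13 o21 o23 o31 o32 : ℝ) : ℝ :=
  -((1 - n1) * (1 - n2) * (1 - n3)) + (1 - o12) * (1 - o23) * (1 - o31)
    + (1 - o13) * (1 - o21) * (1 - o32) + (1 - n1) * (1 - o23) * (1 - o32)
    + (1 - n2) * (1 - o13) * (1 - o31) + (1 - n3) * (1 - o12) * (1 - o21)

end Pool.Agent.H349R2.Tet
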