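import Pool.Agent.H349R2.Tet.Defs

/-!
# Lattice packing density
-/

namespace Pool.Agent.H349R2.Tet

open MeasureTheory ENNReal

/-- the Euclidean ball of radius `r` centred at the origin -/
def Bl (r : ℝ) : Set V := {x | x 0 ^ 2 + x 1 ^ 2 + x 2 ^ 2 ≤ r ^ 2}

/-- the translate of `A` by `u` -/
def tr (A : Set V) (u : V) : Set V := (fun x => x + u) '' A

/-- `b` is a basis of `ℝ³` and the translates of `A` by the points of the lattice generated by `b`
have pairwise disjoint interiors -/
def Packs (A : Set V) (b : Fin 3 → V) : Prop :=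
  LinearIndependent ℝ b ∧ ∀ u ∈ lat b, ∀ v ∈ lat b, u ≠ v →
    Disjoint (interior (tr A u)) (interior (tr A v))

/-- the (upper) density of the family of the translates of `A` by the points of the lattice
generated by `b` -/
noncomputable def dens (A : Set V) (b : Fin 3 → V) : ℝ≥0∞ :=
  Filter.limsup (fun r : ℝ => (∑' u : lat b, volume (tr A u.1 ∩ Bl r)) / volume (Bl r))
    Filter.atTop

/-- the lattice packing density of `A` -/
noncomputable def deltaL (A : Set V) : ℝ≥0∞ :=
  ⨆ (b : Fin 3 → V) (_ : Packs A b), dens A b

end Pool.Agent.H349R2.Tet
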