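import Pool.Agent.H349R2.Tet.Dens

/-!
# The density of a lattice arrangement
-/

namespace Pool.Agent.H349R2.Tet

open MeasureTheory ENNReal Filter Topology
open scoped Pointwise

theorem bl_measurable (r : ℝ) : MeasurableSet (Bl r) := by
  have : IsClosed (Bl r) := by
    unfold Bl
    exact isClosed_le (by fun_prop) (by fun_prop)
  exact this.measurableSet

/-- the square of the Euclidean norm, triangle inequality -/
theorem bl_add {r s : ℝ} (hr : 0 ≤ r) (hs : 0 ≤ s) {x y : V} (hx : x ∈ Bl r) (hy : y ∈ Bl s) :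
    x + y ∈ Bl (r + s) := by
  simp only [Bl, Set.mem_setOf_eq, Pi.add_apply] at *
  have hcs : (x 0 * y 0 + x 1 * y 1 + x 2 * y 2) ≤ r * s := by
    have h1 : (x 0 * y 0 + x 1 * y 1 + x 2 * y 2) ^ 2
        ≤ (x 0 ^ 2 + x 1 ^ 2 + x 2 ^ 2) * (y 0 ^ 2 + y 1 ^ 2 + y 2 ^ 2) := by
      nlinarith [sq_nonneg (x 0 * y 1 - x 1 * y 0), sq_nonneg (x 0 * y 2 - x 2 * y 0),
        sq_nonneg (x 1 * y 2 - x 2 * y 1)]
    have h2 : (x 0 ^ 2 + x 1 ^ 2 + x 2 ^ 2) * (y 0 ^ 2 + y 1 ^ 2 + y 2 ^ 2)
        ≤ r ^ 2 * s ^ 2 := by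
      apply mul_le_mul hx hy (by positivity) (by positivity)
    have h3 : (x 0 * y 0 + x 1 * y 1 + x 2 * y 2) ^ 2 ≤ (r * s) ^ 2 := by
      rw [mul_pow]; exact h1.trans h2
    exact le_of_sq_le_sq h3 (by positivity) |>.trans le_rfl
  nlinarith [hx, hy, hcs]

theorem bl_neg {r : ℝ} {x : V} (hx : x ∈ Bl r) : -x ∈ Bl r := by
  simp only [Bl, Set.mem_setOf_eq, Pi.neg_apply] at *
  nlinarith [hx]

theorem bl_smul {s : ℝ} (hs : 0 < s) : Bl s = s • Bl 1 := by
  ext x
  rw [Set.mem_smul_set_iff_inv_smul_mem₀ hs.ne']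
  simp only [Bl, Set.mem_setOf_eq, Pi.smul_apply, smul_eq_mul]
  have h : (s⁻¹ * x 0) ^ 2 + (s⁻¹ * x 1) ^ 2 + (s⁻¹ * x 2) ^ 2
      = (x 0 ^ 2 + x 1 ^ 2 + x 2 ^ 2) / s ^ 2 := by
    field_simp
  rw [h, div_le_iff₀ (by positivity)]
  constructor <;> intro h' <;> linarith

theorem vol_bl {s : ℝ} (hs : 0 < s) :
    volume (Bl s) = ENNReal.ofReal (s ^ 3) * volume (Bl 1) := by
  rw [bl_smul hs, Measure.addHaar_smul]
  congr 2
  have : Module.finrank ℝ V = 3 := by simp
  rw [this, abs_of_pos (by positivity)]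

theorem vol_bl_one_pos : 0 < volume (Bl 1) := by
  have ho : IsOpen {x : V | x 0 ^ 2 + x 1 ^ 2 + x 2 ^ 2 < 1} :=
    isOpen_lt (by fun_prop) (by fun_prop)
  have hne : ({x : V | x 0 ^ 2 + x 1 ^ 2 + x 2 ^ 2 < 1}).Nonempty := ⟨0, by simp⟩
  refine lt_of_lt_of_le (ho.measure_pos volume hne) (measure_mono ?_)
  intro x hx
  simp only [Bl, Set.mem_setOf_eq] at *
  linarith

theorem bl_subset_ball (r : ℝ) (hr : 0 ≤ r) : Bl r ⊆ Metric.closedBall (0 : V) r := by
  intro x hx
  simp only [Bl, Set.mem_setOf_eq] at hx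
  rw [mem_closedBall_zero_iff, pi_norm_le_iff_of_nonneg hr]
  intro i
  rw [Real.norm_eq_abs]
  apply abs_le_of_sq_le_sq _ hr
  fin_cases i
  · show x 0 ^ 2 ≤ r ^ 2
    nlinarith [sq_nonneg (x 0), sq_nonneg (x 1), sq_nonneg (x 2)]
  · show x 1 ^ 2 ≤ r ^ 2
    nlinarith [sq_nonneg (x 0), sq_nonneg (x 1), sq_nonneg (x 2)]
  · show x 2 ^ 2 ≤ r ^ 2
    nlinarith [sq_nonneg (x 0), sq_nonneg (x 1), sq_nonneg (x 2)]

theorem vol_bl_one_lt_top : volume (Bl 1) < ∞ :=
  lt_of_le_of_lt (measure_mono (bl_subset_ball 1 zero_le_one))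
    (isCompact_closedBall (0 : V) 1).measure_lt_top

theorem ball_subset_bl (r : ℝ) (hr : 0 ≤ r) : Metric.closedBall (0 : V) r ⊆ Bl (2 * r) := by
  intro x hx
  rw [mem_closedBall_zero_iff, pi_norm_le_iff_of_nonneg hr] at hx
  have h : ∀ i, x i ^ 2 ≤ r ^ 2 := fun i => by
    have := hx i
    rw [Real.norm_eq_abs] at this
    exact sq_le_sq' (by linarith [neg_abs_le (x i)]) (by linarith [le_abs_self (x i)])
  simp only [Bl, Set.mem_setOf_eq]
  nlinarith [h 0, h 1, h 2]

section

variable (b : Fin 3 → V)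

/-- all the information about the tiling by a fundamental domain -/
theorem exists_tile (hb : LinearIndependent ℝ b) :
    ∃ (F : Set V) (R : ℝ), 0 < R ∧ MeasurableSet F ∧ F ⊆ Bl R ∧
      volume F = ENNReal.ofReal |dt b| ∧
      (∀ y : V, ∃ u ∈ lat b, y - u ∈ F) ∧
      (∀ y : V, ∀ u ∈ lat b, ∀ v ∈ lat b, y - u ∈ F → y - v ∈ F → u = v) := by
  classical
  have hc : Fintype.card (Fin 3) = Module.finrank ℝ V := by simp
  let B : Module.Basis (Fin 3) ℝ V := basisOfLinearIndependentOfCardEqFinrank hb hc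
  have hB : ⇑B = b := coe_basisOfLinearIndependentOfCardEqFinrank hb hc
  have hlat : ∀ x : V, x ∈ lat b ↔ x ∈ Submodule.span ℤ (Set.range B) := by
    intro x
    rw [Submodule.mem_span_range_iff_exists_fun, hB]
    constructor
    · rintro ⟨z, hz⟩
      refine ⟨z, ?_⟩
      rw [hz]
      exact Finset.sum_congr rfl fun i _ => (Int.cast_smul_eq_zsmul ℝ (z i) (b i)).symm
    · rintro ⟨z, hz⟩
      refine ⟨z, ?_⟩
      rw [← hz]
      exact Finset.sum_congr rfl fun i _ => (Int.cast_smul_eq_zsmul ℝ (z i) (b i)).symm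
  obtain ⟨R0, hR0⟩ := (ZSpan.fundamentalDomain_isBounded B).subset_closedBall (0 : V)
  refine ⟨ZSpan.fundamentalDomain B, 2 * max R0 1, by positivity,
    ZSpan.fundamentalDomain_measurableSet B, ?_, ?_, ?_, ?_⟩
  · refine hR0.trans ?_
    refine (Metric.closedBall_subset_closedBall (le_max_left R0 1)).trans ?_
    exact ball_subset_bl _ (by positivity)
  · rw [ZSpan.volume_fundamentalDomain, hB]
    rfl
  · intro y
    obtain ⟨v, hv, -⟩ := ZSpan.exist_unique_vadd_mem_fundamentalDomain B y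
    refine ⟨-(v : V), (hlat _).2 (neg_mem v.2), ?_⟩
    have : (v : V) + y ∈ ZSpan.fundamentalDomain B := hv
    rwa [sub_neg_eq_add, add_comm]
  · intro y u hu v hv h1 h2
    obtain ⟨w, -, hw⟩ := ZSpan.exist_unique_vadd_mem_fundamentalDomain B y
    have hu' := (hlat _).1 hu
    have hv' := (hlat _).1 hv
    have e1 := hw ⟨-u, neg_mem hu'⟩ (by
      show (-u) + y ∈ ZSpan.fundamentalDomain B
      rwa [neg_add_eq_sub])
    have e2 := hw ⟨-v, neg_mem hv'⟩ (by
      show (-v) + y ∈ ZSpan.fundamentalDomain B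
      rwa [neg_add_eq_sub])
    have e3 := e1.trans e2.symm
    have e4 : -u = -v := congrArg Subtype.val e3
    exact neg_injective e4

theorem lat_countable : (lat b).Countable := by
  have : lat b = Set.range (fun z : Fin 3 → ℤ => ∑ i, (z i : ℝ) • b i) := by
    ext x
    constructor
    · rintro ⟨z, hz⟩; exact ⟨z, hz.symm⟩
    · rintro ⟨z, hz⟩; exact ⟨z, hz.symm⟩
  rw [this]
  exact Set.countable_range _

/-- counting function -/
noncomputable def Nx (x : V) (r : ℝ) : ℝ≥0∞ :=
  ∑' u : lat b, (Bl r).indicator (fun _ => (1 : ℝ≥0∞)) (x + u.1)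

theorem nx_bounds (hb : LinearIndependent ℝ b) :
    ∃ R : ℝ, 0 < R ∧ ∀ r : ℝ, R < r → ∀ x : V,
      volume (Bl (r - R)) ≤ ENNReal.ofReal |dt b| * Nx b x r ∧
      ENNReal.ofReal |dt b| * Nx b x r ≤ volume (Bl (r + R)) := by
  classical
  obtain ⟨F, R, hR, hFm, hFR, hFv, hF1, hF2⟩ := exists_tile b hb
  haveI : Countable (lat b) := (lat_countable b).to_subtype
  refine ⟨R, hR, fun r hr x => ?_⟩
  let G : lat b → Set V := fun u => if x + u.1 ∈ Bl r then (fun y => y - (x + u.1)) ⁻¹' F else ∅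
  have hGm : ∀ u, MeasurableSet (G u) := by
    intro u
    simp only [G]
    split_ifs
    · exact (measurable_sub_const (x + u.1)) hFm
    · exact MeasurableSet.empty
  have hGv : ∀ u, volume (G u)
      = ENNReal.ofReal |dt b| * (Bl r).indicator (fun _ => (1 : ℝ≥0∞)) (x + u.1) := by
    intro u
    simp only [G]
    split_ifs with h
    · rw [Set.indicator_of_mem h, mul_one, ← hFv]
      have : (fun y : V => y - (x + u.1)) = (fun y => y + (-(x + u.1))) := by
        funext y; rw [sub_eq_add_neg]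
      rw [this]
      exact measure_preimage_add_right volume (-(x + u.1)) F
    · rw [Set.indicator_of_notMem h]; simp
  have hdisj : Pairwise (Function.onFun Disjoint G) := by
    intro u v huv
    rw [Function.onFun, Set.disjoint_left]
    intro y hy1 hy2
    simp only [G] at hy1 hy2
    split_ifs at hy1 with h1
    · split_ifs at hy2 with h2
      · apply huv
        apply Subtype.ext
        apply hF2 (y - x) u.1 u.2 v.1 v.2
        · have : y - (x + u.1) ∈ F := hy1
          rwa [← sub_sub] at this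
        · have : y - (x + v.1) ∈ F := hy2
          rwa [← sub_sub] at this
      · exact hy2
    · exact hy1
  have hsum : volume (⋃ u, G u) = ENNReal.ofReal |dt b| * Nx b x r := by
    rw [measure_iUnion hdisj hGm, Nx, ← ENNReal.tsum_mul_left]
    exact tsum_congr hGv
  rw [← hsum]
  constructor
  · apply measure_mono
    intro y hy
    obtain ⟨u, hu, huF⟩ := hF1 (y - x)
    rw [Set.mem_iUnion]
    refine ⟨⟨u, hu⟩, ?_⟩
    have hmem : x + u ∈ Bl r := by
      have h1 : -(y - x - u) ∈ Bl R := bl_neg (hFR huF)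
      have h2 := bl_add (by linarith) hR.le hy h1
      have e : y + -(y - x - u) = x + u := by abel
      rw [e, sub_add_cancel] at h2
      exact h2
    simp only [G, if_pos hmem]
    show y - (x + u) ∈ F
    rwa [← sub_sub]
  · apply measure_mono
    intro y hy
    rw [Set.mem_iUnion] at hy
    obtain ⟨u, hu⟩ := hy
    simp only [G] at hu
    split_ifs at hu with h
    · have h1 : y - (x + u.1) ∈ Bl R := hFR hu
      have h2 := bl_add (by linarith) hR.le h h1
      have e : x + u.1 + (y - (x + u.1)) = y := by abel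
      rwa [e] at h2
    · exact absurd hu (Set.notMem_empty _)

theorem sum_eq (A : Set V) (hA : MeasurableSet A) (r : ℝ) :
    (∑' u : lat b, volume (tr A u.1 ∩ Bl r)) = ∫⁻ x in A, Nx b x r := by
  classical
  haveI : Countable (lat b) := (lat_countable b).to_subtype
  unfold Nx
  rw [lintegral_tsum]
  · apply tsum_congr
    intro u
    have hm : MeasurableSet ((fun x : V => x + u.1) ⁻¹' Bl r) :=
      (measurable_add_const u.1) (bl_measurable r)
    have e1 : (fun x : V => (Bl r).indicator (fun _ => (1 : ℝ≥0∞)) (x + u.1))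
        = ((fun x : V => x + u.1) ⁻¹' Bl r).indicator (fun _ => (1 : ℝ≥0∞)) := by
      funext x
      by_cases h : x + u.1 ∈ Bl r
      · rw [Set.indicator_of_mem h, Set.indicator_of_mem (show x ∈ (fun x : V => x + u.1) ⁻¹' Bl r from h)]
      · rw [Set.indicator_of_notMem h,
          Set.indicator_of_notMem (show x ∉ (fun x : V => x + u.1) ⁻¹' Bl r from h)]
    rw [e1, lintegral_indicator hm, lintegral_const, one_mul, Measure.restrict_restrict hm,
      Measure.restrict_apply_univ]
    have e2 : tr A u.1 ∩ Bl r = (fun x : V => x + -u.1) ⁻¹' (((fun x : V => x + u.1) ⁻¹' Bl r) ∩ A) := by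
      ext y
      simp only [tr, Set.mem_inter_iff, Set.mem_image, Set.mem_preimage]
      constructor
      · rintro ⟨⟨x, hx, rfl⟩, h2⟩
        refine ⟨?_, ?_⟩
        · rwa [neg_add_cancel_right]
        · rwa [add_neg_cancel_right]
      · rintro ⟨h1, h2⟩
        refine ⟨⟨y + -u.1, h2, by rw [neg_add_cancel_right]⟩, ?_⟩
        rwa [neg_add_cancel_right] at h1
    rw [e2]
    exact measure_preimage_add_right volume (-u.1) _
  · intro u
    apply Measurable.aemeasurable
    exact (measurable_const.indicator (bl_measurable r)).comp (measurable_add_const u.1)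

theorem dens_eq (hb : LinearIndependent ℝ b) (A : Set V) (hA : IsCompact A) :
    dens A b = volume A / ENNReal.ofReal |dt b| := by
  have hAm : MeasurableSet A := hA.measurableSet
  obtain ⟨R, hR, hN⟩ := nx_bounds b hb
  have hD0 : dt b ≠ 0 := by
    have := (Matrix.linearIndependent_rows_iff_isUnit (A := Matrix.of b)).1 hb
    rw [Matrix.isUnit_iff_isUnit_det] at this
    exact this.ne_zero
  set D : ℝ≥0∞ := ENNReal.ofReal |dt b| with hD
  have hDpos : D ≠ 0 := by
    rw [hD]; simp [hD0]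
  have hDtop : D ≠ ∞ := ENNReal.ofReal_ne_top
  set c : ℝ≥0∞ := volume (Bl 1) with hc
  have hc0 : c ≠ 0 := vol_bl_one_pos.ne'
  have hct : c ≠ ∞ := vol_bl_one_lt_top.ne
  have hlim : Tendsto (fun r : ℝ => (∑' u : lat b, volume (tr A u.1 ∩ Bl r)) / volume (Bl r))
      atTop (𝓝 (volume A / D)) := by
    have hup : Tendsto (fun r : ℝ => volume A / D * ENNReal.ofReal (((r + R) / r) ^ 3)) atTop
        (𝓝 (volume A / D)) := by
      have h1 : Tendsto (fun r : ℝ => ((r + R) / r) ^ 3) atTop (𝓝 1) := by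
        have h2 : Tendsto (fun r : ℝ => (1 + R * r⁻¹) ^ 3) atTop (𝓝 ((1 + R * 0) ^ 3)) :=
          ((tendsto_const_nhds.add (tendsto_const_nhds.mul tendsto_inv_atTop_zero)).pow 3)
        simp only [mul_zero, add_zero, one_pow] at h2
        refine h2.congr' ?_
        filter_upwards [eventually_gt_atTop 0] with r hr
        congr 1
        field_simp
      have h3 := ENNReal.Tendsto.const_mul (a := volume A / D) (ENNReal.tendsto_ofReal h1)
        (Or.inl (by simp))
      simpa using h3
    have hlo : Tendsto (fun r : ℝ => volume A / D * ENNReal.ofReal (((r - R) / r) ^ 3)) atTop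
        (𝓝 (volume A / D)) := by
      have h1 : Tendsto (fun r : ℝ => ((r - R) / r) ^ 3) atTop (𝓝 1) := by
        have h2 : Tendsto (fun r : ℝ => (1 - R * r⁻¹) ^ 3) atTop (𝓝 ((1 - R * 0) ^ 3)) :=
          ((tendsto_const_nhds.sub (tendsto_const_nhds.mul tendsto_inv_atTop_zero)).pow 3)
        simp only [mul_zero, sub_zero, one_pow] at h2
        refine h2.congr' ?_
        filter_upwards [eventually_gt_atTop 0] with r hr
        congr 1
        field_simp
      have h3 := ENNReal.Tendsto.const_mul (a := volume A / D) (ENNReal.tendsto_ofReal h1)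
        (Or.inl (by simp))
      simpa using h3
    have key : ∀ (r s : ℝ), 0 < r → 0 < s →
        volume A / D * ENNReal.ofReal ((s / r) ^ 3)
          = (volume A * volume (Bl s)) / D / volume (Bl r) := by
      intro r s hr hs
      rw [vol_bl hr, vol_bl hs, ← hc, div_pow, ENNReal.ofReal_div_of_pos (by positivity)]
      simp only [ENNReal.div_eq_inv_mul]
      rw [ENNReal.mul_inv (Or.inr hct) (Or.inr hc0)]
      have : c⁻¹ * c = 1 := ENNReal.inv_mul_cancel hc0 hct
      calc D⁻¹ * volume A * ((ENNReal.ofReal (r ^ 3))⁻¹ * ENNReal.ofReal (s ^ 3))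
          = (ENNReal.ofReal (r ^ 3))⁻¹ * (D⁻¹ * (volume A * ENNReal.ofReal (s ^ 3))) * 1 := by ring
        _ = (ENNReal.ofReal (r ^ 3))⁻¹ * (D⁻¹ * (volume A * ENNReal.ofReal (s ^ 3))) * (c⁻¹ * c) := by
            rw [this]
        _ = _ := by ring
    refine tendsto_of_tendsto_of_tendsto_of_le_of_le' hlo hup ?_ ?_
    · filter_upwards [eventually_gt_atTop R] with r hr
      have hr0 : 0 < r := hR.trans hr
      rw [key r (r - R) hr0 (by linarith)]
      apply ENNReal.div_le_div_right
      rw [ENNReal.div_le_iff hDpos hDtop, sum_eq b A hAm r, mul_comm _ D,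
        ← lintegral_const_mul' _ _ hDtop]
      calc volume A * volume (Bl (r - R)) = ∫⁻ _ in A, volume (Bl (r - R)) := by
            rw [lintegral_const, Measure.restrict_apply_univ, mul_comm]
        _ ≤ _ := lintegral_mono fun x => (hN r hr x).1
    · filter_upwards [eventually_gt_atTop R] with r hr
      have hr0 : 0 < r := hR.trans hr
      rw [key r (r + R) hr0 (by linarith)]
      apply ENNReal.div_le_div_right
      rw [ENNReal.le_div_iff_mul_le (Or.inl hDpos) (Or.inl hDtop), sum_eq b A hAm r, mul_comm _ D,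
        ← lintegral_const_mul' _ _ hDtop]
      calc ∫⁻ x in A, D * Nx b x r ≤ ∫⁻ _ in A, volume (Bl (r + R)) :=
            lintegral_mono fun x => (hN r hr x).2
        _ = volume A * volume (Bl (r + R)) := by
            rw [lintegral_const, Measure.restrict_apply_univ, mul_comm]
  exact hlim.limsup_eq

end

end Pool.Agent.H349R2.Tet
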