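import Pool.Agent.H349R2.Tet.Defs

/-!
# LEMF (helper847): the quantitative uniqueness of the optimal configuration
-/

namespace Pool.Agent.H349R2.Tet

namespace LemF

theorem prod_le {n a b : ℝ} (hn : 0 ≤ n) (h : n + a + b ≤ 1) :
    n * a * b ≤ (1 - (a + b)) * ((a + b) ^ 2 / 4) := by
  have h1 : a * b ≤ (a + b) ^ 2 / 4 := by nlinarith [sq_nonneg (a - b)]
  calc n * a * b = n * (a * b) := by ring
    _ ≤ n * ((a + b) ^ 2 / 4) := mul_le_mul_of_nonneg_left h1 hn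
    _ ≤ (1 - (a + b)) * ((a + b) ^ 2 / 4) :=
      mul_le_mul_of_nonneg_right (by linarith) (by positivity)

theorem prod_le16 {n a b : ℝ} (hn : 0 ≤ n) (ha : 0 ≤ a) (hb : 0 ≤ b) (h : n + a + b ≤ 1) :
    n * a * b ≤ (a + b) / 16 := by
  refine (prod_le hn h).trans ?_
  have h1 : (1 - (a + b)) * (a + b) ≤ 1 / 4 := by nlinarith [sq_nonneg (a + b - 1 / 2)]
  have h2 := mul_le_mul_of_nonneg_right h1 (by linarith : 0 ≤ (a + b) / 4)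
  calc (1 - (a + b)) * ((a + b) ^ 2 / 4) = (1 - (a + b)) * (a + b) * ((a + b) / 4) := by ring
    _ ≤ 1 / 4 * ((a + b) / 4) := h2
    _ = _ := by ring

theorem prod_le_w {n a b w : ℝ} (hn : 0 ≤ n) (ha : 0 ≤ a) (hb : 0 ≤ b) (h : n + a + b ≤ 1)
    (hw : a + b ≤ w) (hw2 : w ≤ 1 / 2) : n * a * b ≤ (a + b) * (w * (1 - w)) / 4 := by
  refine (prod_le hn h).trans ?_
  have h1 : (1 - (a + b)) * (a + b) ≤ w * (1 - w) := by nlinarith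
  have h2 := mul_le_mul_of_nonneg_right h1 (by linarith : 0 ≤ (a + b) / 4)
  calc (1 - (a + b)) * ((a + b) ^ 2 / 4) = (1 - (a + b)) * (a + b) * ((a + b) / 4) := by ring
    _ ≤ w * (1 - w) * ((a + b) / 4) := h2
    _ = _ := by ring

theorem prod_small {n a b : ℝ} (hn : 0 ≤ n) (ha : 0 ≤ a) (hb : 0 ≤ b) (h : n + a + b ≤ 1)
    (hs : n ≤ 24 / 100) : n * a * b ≤ 34656 / 1000000 := by
  have h1 : a * b ≤ (1 - n) ^ 2 / 4 := by nlinarith [sq_nonneg (a - b)]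
  have h2 : n * (a * b) ≤ n * ((1 - n) ^ 2 / 4) := mul_le_mul_of_nonneg_left h1 hn
  have h3 : 0 ≤ (24 / 100 - n) * (5776 / 10000 - 176 / 100 * n + n ^ 2) := by
    apply mul_nonneg (by linarith)
    nlinarith [sq_nonneg n]
  nlinarith

/-- step (i) -/
theorem stepY {n1 n2 n3 a1 b1 a2 b2 a3 b3 : ℝ} (hn1 : 0 ≤ n1) (hn2 : 0 ≤ n2) (hn3 : 0 ≤ n3)
    (ha1 : 0 ≤ a1) (hb1 : 0 ≤ b1) (ha2 : 0 ≤ a2) (hb2 : 0 ≤ b2) (ha3 : 0 ≤ a3) (hb3 : 0 ≤ b3)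
    (hr1 : n1 + a1 + b1 ≤ 1) (hr2 : n2 + a2 + b2 ≤ 1) (hr3 : n3 + a3 + b3 ≤ 1)
    (hS : 1 / 18 - 1 / 10000 ≤ n1 * a1 * b1 + n2 * a2 * b2 + n3 * a3 * b3) :
    8872 / 10000 ≤ a1 + b1 + a2 + b2 + a3 + b3 := by
  have h1 := prod_le16 hn1 ha1 hb1 hr1
  have h2 := prod_le16 hn2 ha2 hb2 hr2
  have h3 := prod_le16 hn3 ha3 hb3 hr3
  linarith

/-- step (ii) -/
theorem stepN {n1 n2 n3 a1 b1 a2 b2 a3 b3 : ℝ} (hn1 : 0 ≤ n1) (hn2 : 0 ≤ n2) (hn3 : 0 ≤ n3)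
    (ha1 : 0 ≤ a1) (hb1 : 0 ≤ b1) (ha2 : 0 ≤ a2) (hb2 : 0 ≤ b2) (ha3 : 0 ≤ a3) (hb3 : 0 ≤ b3)
    (hr1 : n1 + a1 + b1 ≤ 1) (hr2 : n2 + a2 + b2 ≤ 1) (hr3 : n3 + a3 + b3 ≤ 1)
    (hs : 1 + (a1 + b1 + a2 + b2 + a3 + b3) ≤ n1 + n2 + n3)
    (hS : 1 / 18 - 1 / 10000 ≤ n1 * a1 * b1 + n2 * a2 * b2 + n3 * a3 * b3) :
    24 / 100 ≤ n1 := by
  by_contra hc
  have hc' : n1 ≤ 24 / 100 := (not_le.1 hc).le
  have hY := stepY hn1 hn2 hn3 ha1 hb1 ha2 hb2 ha3 hb3 hr1 hr2 hr3 hS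
  have hw : a2 + b2 + (a3 + b3) ≤ 353 / 1000 := by linarith
  have h1 := prod_small hn1 ha1 hb1 hr1 hc'
  have h2 := prod_le_w (w := 353 / 1000) hn2 ha2 hb2 hr2 (by linarith) (by norm_num)
  have h3 := prod_le_w (w := 353 / 1000) hn3 ha3 hb3 hr3 (by linarith) (by norm_num)
  norm_num at h2 h3
  linarith

theorem mainCalc {σ G3 Gsq RR ND Dsq HH B Γ2 σ2 t2 r2 S : ℝ}
    (key : 1 / 18 - S = σ / 24 + G3 / 4 + RR / 4 + ND / 4) (c : -(1 / 3) * Gsq ≤ G3)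
    (h1 : 0 ≤ RR) (m : 24 / 100 * Dsq ≤ ND) (hD : Dsq = 3 * HH - σ2 / 4 + 12 * t2)
    (k : Gsq / 2 - 4 / 9 * B ≤ HH) (hB : B ≤ 2 * Γ2) (hΓ2 : Γ2 ≤ 2256 / 10000 * σ)
    (hσ2 : σ2 ≤ 2256 / 10000 * σ) (hS : 1 / 18 - r2 / 400 ≤ S) (hσ : 0 ≤ σ) :
    2 / 1000 * σ + 1 / 150 * Gsq + 72 / 100 * t2 ≤ r2 / 400 := by
  linarith

theorem cube {g : ℝ} (h : 0 ≤ g + 1 / 3) : -(1 / 3) * g ^ 2 ≤ g ^ 3 := by
  have h1 := mul_nonneg (sq_nonneg g) h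
  have h2 : g ^ 2 * (g + 1 / 3) = g ^ 3 + 1 / 3 * g ^ 2 := by ring
  linarith

theorem halfsq (g b : ℝ) : g ^ 2 / 2 - 4 / 9 * b ^ 2 ≤ (g + 2 / 3 * b) ^ 2 := by
  nlinarith [sq_nonneg (g + 4 / 3 * b)]

theorem bsum {p1 p2 p3 q1 q2 q3 Γ : ℝ} (P1 : 0 ≤ p1) (P2 : 0 ≤ p2) (P3 : 0 ≤ p3) (Q1 : 0 ≤ q1)
    (Q2 : 0 ≤ q2) (Q3 : 0 ≤ q3) (hp : p1 + p2 + p3 = Γ) (hq : q1 + q2 + q3 = Γ) :
    (p1 - q1) ^ 2 + (p2 - q2) ^ 2 + (p3 - q3) ^ 2 ≤ 2 * Γ ^ 2 := by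
  have a1 : Γ ^ 2 = (p1 + p2 + p3) ^ 2 := by rw [hp]
  have a2 : Γ ^ 2 = (q1 + q2 + q3) ^ 2 := by rw [hq]
  have e : 2 * Γ ^ 2 = (p1 + p2 + p3) ^ 2 + (q1 + q2 + q3) ^ 2 := by linarith
  rw [e]
  have := mul_nonneg P1 Q1
  have := mul_nonneg P2 Q2
  have := mul_nonneg P3 Q3
  have := mul_nonneg P1 P2
  have := mul_nonneg P2 P3
  have := mul_nonneg P1 P3
  have := mul_nonneg Q1 Q2
  have := mul_nonneg Q2 Q3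
  have := mul_nonneg Q1 Q3
  nlinarith

theorem sqle {x c r2 B : ℝ} (hx : x ^ 2 ≤ B) (hB : B ≤ r2) (hc : r2 ≤ c ^ 2) (h : 0 ≤ c) :
    -c ≤ x ∧ x ≤ c := abs_le.1 (abs_le_of_sq_le_sq (hx.trans (hB.trans hc)) h)

theorem cs (x y z : ℝ) : (x + y + z) ^ 2 ≤ 3 * (x ^ 2 + y ^ 2 + z ^ 2) := by
  nlinarith [sq_nonneg (x - y), sq_nonneg (y - z), sq_nonneg (x - z)]

theorem sqsmall {x : ℝ} (h0 : 0 ≤ x) (h : x ≤ 2256 / 10000) : x ^ 2 ≤ 2256 / 10000 * x := by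
  nlinarith

theorem rsmall {σ r : ℝ} (h0 : 0 < r) (h5 : r ≤ 1 / 5) (h : σ ≤ 500 * (r ^ 2 / 400)) :
    σ ≤ r / 4 := by
  nlinarith

theorem last {g H t r : ℝ} (h1 : |g + H + 2 * t| ≤ 2 * r) : |(g + H + 2 * t) / 2| ≤ r := by
  rw [abs_div, abs_two]
  linarith

end LemF

theorem lemF (n1 n2 n3 o12 o13 o21 o23 o31 o32 r : ℝ) (hr0 : 0 < r) (hr5 : r ≤ 1 / 5)
    (hn1 : 0 ≤ n1) (hn2 : 0 ≤ n2) (hn3 : 0 ≤ n3) (h12 : 0 ≤ o12) (h13 : 0 ≤ o13)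
    (h21 : 0 ≤ o21) (h23 : 0 ≤ o23) (h31 : 0 ≤ o31) (h32 : 0 ≤ o32)
    (hr1 : n1 + o12 + o13 ≤ 1) (hr2 : n2 + o21 + o23 ≤ 1) (hr3 : n3 + o31 + o32 ≤ 1)
    (hc1 : n1 + o21 + o31 ≤ 1) (hc2 : n2 + o12 + o32 ≤ 1) (hc3 : n3 + o13 + o23 ≤ 1)
    (hs : 1 + (o12 + o13 + o21 + o23 + o31 + o32) ≤ n1 + n2 + n3)
    (hS : 1 / 18 - r ^ 2 / 400 ≤ n1 * o12 * o13 + n2 * o21 * o23 + n3 * o31 * o32) :
    |n1 - 2 / 3| ≤ r ∧ |n2 - 2 / 3| ≤ r ∧ |n3 - 2 / 3| ≤ r ∧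
    |o12 - 1 / 6| ≤ r ∧ |o13 - 1 / 6| ≤ r ∧ |o21 - 1 / 6| ≤ r ∧
    |o23 - 1 / 6| ≤ r ∧ |o31 - 1 / 6| ≤ r ∧ |o32 - 1 / 6| ≤ r := by
  have hr2' : r ^ 2 ≤ 1 / 25 := by nlinarith
  have hS' : 1 / 18 - 1 / 10000 ≤ n1 * o12 * o13 + n2 * o21 * o23 + n3 * o31 * o32 := by
    linarith
  have hY := LemF.stepY hn1 hn2 hn3 h12 h13 h21 h23 h31 h32 hr1 hr2 hr3 hS'
  have N1 := LemF.stepN hn1 hn2 hn3 h12 h13 h21 h23 h31 h32 hr1 hr2 hr3 (by linarith) hS'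
  have N2 := LemF.stepN hn2 hn1 hn3 h21 h23 h12 h13 h31 h32 hr2 hr1 hr3 (by linarith)
    (by linarith)
  have N3 := LemF.stepN hn3 hn2 hn1 h31 h32 h21 h23 h12 h13 hr3 hr2 hr1 (by linarith)
    (by linarith)
  -- new variables
  obtain ⟨g1, eg1⟩ : ∃ x, x = o12 + o13 - 1 / 3 := ⟨_, rfl⟩
  obtain ⟨g2, eg2⟩ : ∃ x, x = o21 + o23 - 1 / 3 := ⟨_, rfl⟩
  obtain ⟨g3, eg3⟩ : ∃ x, x = o31 + o32 - 1 / 3 := ⟨_, rfl⟩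
  obtain ⟨p1, ep1⟩ : ∃ x, x = 1 - n1 - o12 - o13 := ⟨_, rfl⟩
  obtain ⟨p2, ep2⟩ : ∃ x, x = 1 - n2 - o21 - o23 := ⟨_, rfl⟩
  obtain ⟨p3, ep3⟩ : ∃ x, x = 1 - n3 - o31 - o32 := ⟨_, rfl⟩
  obtain ⟨q1, eq1⟩ : ∃ x, x = 1 - n1 - o21 - o31 := ⟨_, rfl⟩
  obtain ⟨q2, eq2⟩ : ∃ x, x = 1 - n2 - o12 - o32 := ⟨_, rfl⟩
  obtain ⟨q3, eq3⟩ : ∃ x, x = 1 - n3 - o13 - o23 := ⟨_, rfl⟩
  obtain ⟨Γ, eΓ⟩ : ∃ x, x = 3 - (n1 + n2 + n3) - (o12 + o13 + o21 + o23 + o31 + o32) := ⟨_, rfl⟩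
  obtain ⟨σ, eσ⟩ : ∃ x, x = 2 - 2 * (o12 + o13 + o21 + o23 + o31 + o32) := ⟨_, rfl⟩
  obtain ⟨t, et⟩ : ∃ x, x = (o12 - o21 + o23 - o32 + o31 - o13) / 6 := ⟨_, rfl⟩
  obtain ⟨H1, eH1⟩ : ∃ x, x = g1 + 2 / 3 * (p1 - q1) := ⟨_, rfl⟩
  obtain ⟨H2, eH2⟩ : ∃ x, x = g2 + 2 / 3 * (p2 - q2) := ⟨_, rfl⟩
  obtain ⟨H3, eH3⟩ : ∃ x, x = g3 + 2 / 3 * (p3 - q3) := ⟨_, rfl⟩
  have P1 : 0 ≤ p1 := by linarith
  have P2 : 0 ≤ p2 := by linarith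
  have P3 : 0 ≤ p3 := by linarith
  have Q1 : 0 ≤ q1 := by linarith
  have Q2 : 0 ≤ q2 := by linarith
  have Q3 : 0 ≤ q3 := by linarith
  have hΓp : p1 + p2 + p3 = Γ := by linarith
  have hΓq : q1 + q2 + q3 = Γ := by linarith
  have hΓ0 : 0 ≤ Γ := by linarith
  have hσΓ : Γ ≤ σ := by linarith
  have hσ : σ ≤ 2256 / 10000 := by linarith
  -- the identity
  have key : 1 / 18 - (n1 * o12 * o13 + n2 * o21 * o23 + n3 * o31 * o32) =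
      σ / 24 + (g1 ^ 3 + g2 ^ 3 + g3 ^ 3) / 4 +
      (p1 * (o12 + o13) ^ 2 + p2 * (o21 + o23) ^ 2 + p3 * (o31 + o32) ^ 2) / 4 +
      (n1 * (o12 - o13) ^ 2 + n2 * (o23 - o21) ^ 2 + n3 * (o31 - o32) ^ 2) / 4 := by
    rw [eσ, eg1, eg2, eg3, ep1, ep2, ep3]
    ring
  have c1 := LemF.cube (g := g1) (by linarith)
  have c2 := LemF.cube (g := g2) (by linarith)
  have c3 := LemF.cube (g := g3) (by linarith)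
  have r1 : 0 ≤ p1 * (o12 + o13) ^ 2 := by positivity
  have r2 : 0 ≤ p2 * (o21 + o23) ^ 2 := by positivity
  have r3 : 0 ≤ p3 * (o31 + o32) ^ 2 := by positivity
  have m1 := mul_le_mul_of_nonneg_right N1 (sq_nonneg (o12 - o13))
  have m2 := mul_le_mul_of_nonneg_right N2 (sq_nonneg (o23 - o21))
  have m3 := mul_le_mul_of_nonneg_right N3 (sq_nonneg (o31 - o32))
  have D1 : o12 - o13 = (H2 - H3) + 2 * t := by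
    rw [eH2, eH3, et, eg2, eg3, ep2, ep3, eq2, eq3]
    ring
  have D2 : o23 - o21 = (H3 - H1) + 2 * t := by
    rw [eH3, eH1, et, eg3, eg1, ep3, ep1, eq3, eq1]
    ring
  have D3 : o31 - o32 = (H1 - H2) + 2 * t := by
    rw [eH1, eH2, et, eg1, eg2, ep1, ep2, eq1, eq2]
    ring
  have hHsum : H1 + H2 + H3 = -(σ / 2) := by
    rw [eH1, eH2, eH3, eσ, eg1, eg2, eg3, ep1, ep2, ep3, eq1, eq2, eq3]
    ring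
  have hD : (o12 - o13) ^ 2 + (o23 - o21) ^ 2 + (o31 - o32) ^ 2 =
      3 * (H1 ^ 2 + H2 ^ 2 + H3 ^ 2) - (σ / 2) ^ 2 + 12 * t ^ 2 := by
    have e : (σ / 2) ^ 2 = (H1 + H2 + H3) ^ 2 := by
      rw [hHsum]
      ring
    rw [D1, D2, D3, e]
    ring
  have k1 := LemF.halfsq g1 (p1 - q1)
  have k2 := LemF.halfsq g2 (p2 - q2)
  have k3 := LemF.halfsq g3 (p3 - q3)
  rw [← eH1] at k1
  rw [← eH2] at k2
  rw [← eH3] at k3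
  have hB := LemF.bsum P1 P2 P3 Q1 Q2 Q3 hΓp hΓq
  have hσ0 : 0 ≤ σ := hΓ0.trans hσΓ
  have hσ2 := LemF.sqsmall hσ0 hσ
  have hΓ2 : Γ ^ 2 ≤ 2256 / 10000 * σ := (pow_le_pow_left₀ hΓ0 hσΓ 2).trans hσ2
  have main : 2 / 1000 * σ + 1 / 150 * (g1 ^ 2 + g2 ^ 2 + g3 ^ 2) + 72 / 100 * t ^ 2 ≤
      r ^ 2 / 400 := by
    have e : (σ / 2) ^ 2 = σ ^ 2 / 4 := by ring
    rw [e] at hD
    refine LemF.mainCalc key ?_ ?_ ?_ hD ?_ hB hΓ2 hσ2 hS hσ0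
    · clear * - c1 c2 c3
      linarith
    · clear * - r1 r2 r3
      linarith
    · clear * - m1 m2 m3
      linarith
    · clear * - k1 k2 k3
      linarith
  have hg0 : 0 ≤ g1 ^ 2 + g2 ^ 2 + g3 ^ 2 := by positivity
  have ht0 : 0 ≤ t ^ 2 := sq_nonneg t
  have bσ : σ ≤ r / 4 := by
    apply LemF.rsmall hr0 hr5
    clear * - main hg0 ht0
    linarith
  have bg : g1 ^ 2 + g2 ^ 2 + g3 ^ 2 ≤ 375 / 1000 * r ^ 2 := by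
    clear * - main hσ0 ht0
    linarith
  have bt : t ^ 2 ≤ 36 / 10000 * r ^ 2 := by
    clear * - main hσ0 hg0
    linarith [sq_nonneg r]
  have r2nn : 0 ≤ r ^ 2 := sq_nonneg r
  obtain ⟨t1, t2⟩ := LemF.sqle (c := 6 / 100 * r) le_rfl bt
    (by clear * - r2nn; nlinarith) (by positivity)
  have one : ∀ x : ℝ, x ^ 2 ≤ g1 ^ 2 + g2 ^ 2 + g3 ^ 2 → -(62 / 100 * r) ≤ x ∧ x ≤ 62 / 100 * r :=
    fun x hx => LemF.sqle hx bg (by clear * - r2nn; nlinarith) (by positivity)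
  have bg3 : 3 * (g1 ^ 2 + g2 ^ 2 + g3 ^ 2) ≤ 1125 / 1000 * r ^ 2 := by
    clear * - bg
    linarith
  have three : ∀ x : ℝ, x ^ 2 ≤ 3 * (g1 ^ 2 + g2 ^ 2 + g3 ^ 2) →
      -(107 / 100 * r) ≤ x ∧ x ≤ 107 / 100 * r :=
    fun x hx => LemF.sqle hx bg3 (by clear * - r2nn; nlinarith) (by positivity)
  have s1 := sq_nonneg g1
  have s2 := sq_nonneg g2
  have s3 := sq_nonneg g3
  obtain ⟨u1, v1⟩ := one g1 (by clear * - s2 s3; linarith)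
  obtain ⟨u2, v2⟩ := one g2 (by clear * - s1 s3; linarith)
  obtain ⟨u3, v3⟩ := one g3 (by clear * - s1 s2; linarith)
  obtain ⟨x1, y1⟩ := three (g1 + g2 + -g3) (by
    have := LemF.cs g1 g2 (-g3)
    rwa [neg_sq] at this)
  obtain ⟨x2, y2⟩ := three (g1 + -g2 + g3) (by
    have := LemF.cs g1 (-g2) g3
    rwa [neg_sq] at this)
  obtain ⟨x3, y3⟩ := three (-g1 + g2 + g3) (by
    have := LemF.cs (-g1) g2 g3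
    rwa [neg_sq] at this)
  have O12 : o12 - 1 / 6 = (g1 + (H2 - H3) + 2 * t) / 2 := by linarith
  have O13 : o13 - 1 / 6 = (g1 - (H2 - H3) - 2 * t) / 2 := by linarith
  have O23 : o23 - 1 / 6 = (g2 + (H3 - H1) + 2 * t) / 2 := by linarith
  have O21 : o21 - 1 / 6 = (g2 - (H3 - H1) - 2 * t) / 2 := by linarith
  have O31 : o31 - 1 / 6 = (g3 + (H1 - H2) + 2 * t) / 2 := by linarith
  have O32 : o32 - 1 / 6 = (g3 - (H1 - H2) - 2 * t) / 2 := by linarith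
  clear key c1 c2 c3 r1 r2 r3 m1 m2 m3 hD k1 k2 k3 hB hσ2 hΓ2 main hg0 ht0 bg bt r2nn bg3
    s1 s2 s3 one three hS hS' hY hr2'
  refine ⟨?_, ?_, ?_, ?_, ?_, ?_, ?_, ?_, ?_⟩ <;> rw [abs_le]
  · constructor <;> linarith
  · constructor <;> linarith
  · constructor <;> linarith
  · rw [O12]; constructor <;> linarith
  · rw [O13]; constructor <;> linarith
  · rw [O21]; constructor <;> linarith
  · rw [O23]; constructor <;> linarith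
  · rw [O31]; constructor <;> linarith
  · rw [O32]; constructor <;> linarith

end Pool.Agent.H349R2.Tet
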