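import Pool.Agent.H349R2.Tet.Defs

/-! Local inequality `lemL`. -/

namespace Pool.Agent.H349R2.Tet

theorem lemL_amgm (x y z : ℝ) (hx : 0 ≤ x) (hy : 0 ≤ y) (hz : 0 ≤ z) :
    27 * (x * y * z) ≤ (x + y + z) ^ 3 := by
  nlinarith [mul_nonneg hx (sq_nonneg (y - z)), mul_nonneg hy (sq_nonneg (x - z)),
    mul_nonneg hz (sq_nonneg (x - y)), mul_nonneg hx (sq_nonneg (x - y)),
    mul_nonneg hx (sq_nonneg (x - z)), mul_nonneg hy (sq_nonneg (y - z)),
    mul_nonneg hy (sq_nonneg (y - x)), mul_nonneg hz (sq_nonneg (z - x)),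
    mul_nonneg hz (sq_nonneg (z - y)), mul_nonneg hx hy, mul_nonneg hy hz, mul_nonneg hx hz]

theorem lemL_first (x y z t r : ℝ) (hx : 0 ≤ x) (hy : 0 ≤ y) (hz : 0 ≤ z)
    (hr0 : 0 < r) (hr : r ≤ 1 / 1000) (ht : x + y + z = 1 / 2 - t) (hb : |t| ≤ 3 * r) :
    7 / 18 * t - 7 / 5 * (r * |t|) ≤ 5 / 54 - (x * y + y * z + z * x) - 2 * (x * y * z) := by
  have h1 := lemL_amgm x y z hx hy hz
  rw [ht] at h1
  have h2 : 3 * (x * y + y * z + z * x) ≤ (1 / 2 - t) ^ 2 := by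
    rw [← ht]
    nlinarith [sq_nonneg (x - y), sq_nonneg (y - z), sq_nonneg (z - x)]
  have h3 : 7 / 18 * t - 4 / 9 * t ^ 2 + 2 / 27 * t ^ 3
      ≤ 5 / 54 - (x * y + y * z + z * x) - 2 * (x * y * z) := by
    linarith [h1, h2]
  have h0 : 0 ≤ r * |t| := by positivity
  have h4 : t ^ 2 ≤ 3 * (r * |t|) := by
    have : t ^ 2 = |t| * |t| := by rw [← sq_abs]; ring
    rw [this]
    have := mul_le_mul_of_nonneg_right hb (abs_nonneg t)
    linarith
  have h5 : -(9 * r ^ 2 * |t|) ≤ t ^ 3 := by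
    have h6 : |t ^ 3| ≤ 9 * r ^ 2 * |t| := by
      rw [abs_pow]
      have h7 : |t| ^ 2 ≤ (3 * r) ^ 2 := by
        apply pow_le_pow_left₀ (abs_nonneg t) hb
      have := mul_le_mul_of_nonneg_right h7 (abs_nonneg t)
      linarith
    have := neg_abs_le (t ^ 3)
    linarith
  have h8 : r ^ 2 * |t| ≤ 1 / 1000 * (r * |t|) := by
    have := mul_le_mul_of_nonneg_right hr h0
    linarith
  linarith

theorem lemL_mulb (r u v : ℝ) (hu : |u| ≤ r) : -(r * |v|) ≤ u * v := by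
  have h1 : |u * v| ≤ r * |v| := by
    rw [abs_mul]
    exact mul_le_mul_of_nonneg_right hu (abs_nonneg v)
  have := neg_abs_le (u * v)
  linarith

theorem lemL_third (r w p q e : ℝ) (hr0 : 0 < r) (hw0 : 0 ≤ w) (hw1 : w ≤ 1)
    (he : e = 2 * (p - q)) (her : |e| ≤ 4 * r) : -(r / 4 * |e|) ≤ w * (p * q) := by
  have h1 : -(e ^ 2 / 16) ≤ p * q := by
    have h1' : e ^ 2 = 4 * (p - q) ^ 2 := by rw [he]; ring
    rw [h1']
    have h2' := sq_nonneg (p + q)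
    linarith
  have h2 : e ^ 2 ≤ 4 * r * |e| := by
    have : e ^ 2 = |e| * |e| := by rw [← sq_abs]; ring
    rw [this]
    exact mul_le_mul_of_nonneg_right her (abs_nonneg e)
  have h3 : 0 ≤ r * |e| := by positivity
  have h4 : -(r / 4 * |e|) ≤ p * q := by linarith
  rcases le_total 0 (p * q) with h5 | h5
  · have : 0 ≤ w * (p * q) := mul_nonneg hw0 h5
    linarith
  · have := mul_le_mul_of_nonpos_right hw1 h5
    linarith

theorem lemL_fourth (r v w : ℝ) (hw : |w - 7 / 12| ≤ 4 * r) :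
    7 / 12 * v - 4 * (r * |v|) ≤ v * w := by
  have h1 : |v * (w - 7 / 12)| ≤ 4 * (r * |v|) := by
    rw [abs_mul]
    have := mul_le_mul_of_nonneg_left hw (abs_nonneg v)
    linarith
  have := neg_abs_le (v * (w - 7 / 12))
  linarith

theorem lemL_dprod (p q p0 q0 d e : ℝ) (hp : |p - p0| ≤ d) (hq : |q - q0| ≤ e) :
    |p * q - p0 * q0| ≤ d * e + d * |q0| + e * |p0| := by
  have : p * q - p0 * q0 = (p - p0) * (q - q0) + (p - p0) * q0 + (q - q0) * p0 := by ring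
  rw [this]
  have hd : 0 ≤ d := le_trans (abs_nonneg _) hp
  have h1 : |(p - p0) * (q - q0)| ≤ d * e := by
    rw [abs_mul]; exact mul_le_mul hp hq (abs_nonneg _) hd
  have h2 : |(p - p0) * q0| ≤ d * |q0| := by
    rw [abs_mul]; exact mul_le_mul_of_nonneg_right hp (abs_nonneg _)
  have h3 : |(q - q0) * p0| ≤ e * |p0| := by
    rw [abs_mul]; exact mul_le_mul_of_nonneg_right hq (abs_nonneg _)
  have h4 := abs_add_le ((p - p0) * (q - q0) + (p - p0) * q0) ((q - q0) * p0)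
  have h5 := abs_add_le ((p - p0) * (q - q0)) ((p - p0) * q0)
  linarith

/-- the weights are close to `7/12` -/
theorem lemL_weight (r p q p' q' d e : ℝ) (hr0 : 0 < r) (hr : r ≤ 1 / 1000)
    (hp : |p - 5 / 6| ≤ r) (hq : |q - 5 / 6| ≤ r) (hp' : |p' - 1 / 3| ≤ d)
    (hq' : |q' - 1 / 3| ≤ e) (hd : d ≤ 2 * r) (he : e ≤ 2 * r) :
    |(p * q - p' * q') - 7 / 12| ≤ 4 * r := by
  have e1 := lemL_dprod p q (5 / 6) (5 / 6) r r hp hq
  have e2 := lemL_dprod p' q' (1 / 3) (1 / 3) (2 * r) (2 * r) (le_trans hp' hd)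
    (le_trans hq' he)
  have n56 : |(5 / 6 : ℝ)| = 5 / 6 := abs_of_pos (by norm_num)
  have n13 : |(1 / 3 : ℝ)| = 1 / 3 := abs_of_pos (by norm_num)
  rw [n56] at e1
  rw [n13] at e2
  rw [abs_le] at e1 e2 ⊢
  have hrr : r * r ≤ 1 / 1000 * r := mul_le_mul_of_nonneg_right hr hr0.le
  obtain ⟨e1a, e1b⟩ := e1
  obtain ⟨e2a, e2b⟩ := e2
  constructor <;> linarith

theorem lemL (n1 n2 n3 o12 o13 o21 o23 o31 o32 k r : ℝ) (hk : 0 < k) (hkr : k ≤ r)
    (hr : r ≤ 1 / 1000)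
    (gn1 : |n1 - 2 / 3| ≤ r) (gn2 : |n2 - 2 / 3| ≤ r) (gn3 : |n3 - 2 / 3| ≤ r)
    (g12 : |o12 - 1 / 6| ≤ r) (g13 : |o13 - 1 / 6| ≤ r) (g21 : |o21 - 1 / 6| ≤ r)
    (g23 : |o23 - 1 / 6| ≤ r) (g31 : |o31 - 1 / 6| ≤ r) (g32 : |o32 - 1 / 6| ≤ r)
    (hr1 : n1 + o12 + o13 ≤ 1 + 2 * k) (hr2 : n2 + o21 + o23 ≤ 1 + 2 * k)
    (hr3 : n3 + o31 + o32 ≤ 1 + 2 * k)
    (hc1 : n1 + o21 + o31 ≤ 1 + 12 * r * k) (hc2 : n2 + o12 + o32 ≤ 1 + 12 * r * k)
    (hc3 : n3 + o13 + o23 ≤ 1 + 12 * r * k)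
    (hs : 1 - 3 * k + (o12 + o13 + o21 + o23 + o31 + o32) ≤ n1 + n2 + n3) :
    2 * (49 / 54 - 7 / 24 * k - 100 * r * k) ≤ D0 n1 n2 n3 o12 o13 o21 o23 o31 o32 := by
  have hr0 : 0 < r := lt_of_lt_of_le hk hkr
  rw [abs_le] at gn1 gn2 gn3 g12 g13 g21 g23 g31 g32
  obtain ⟨gn1a, gn1b⟩ := gn1
  obtain ⟨gn2a, gn2b⟩ := gn2
  obtain ⟨gn3a, gn3b⟩ := gn3
  obtain ⟨g12a, g12b⟩ := g12
  obtain ⟨g13a, g13b⟩ := g13
  obtain ⟨g21a, g21b⟩ := g21
  obtain ⟨g23a, g23b⟩ := g23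
  obtain ⟨g31a, g31b⟩ := g31
  obtain ⟨g32a, g32b⟩ := g32
  obtain ⟨x, hx⟩ : ∃ x, x = (o12 + o21) / 2 := ⟨_, rfl⟩
  obtain ⟨y, hy⟩ : ∃ y, y = (o23 + o32) / 2 := ⟨_, rfl⟩
  obtain ⟨z, hz⟩ : ∃ z, z = (o31 + o13) / 2 := ⟨_, rfl⟩
  obtain ⟨A, hA⟩ : ∃ A, A = (o12 - o21) / 2 := ⟨_, rfl⟩
  obtain ⟨B, hB⟩ : ∃ B, B = (o23 - o32) / 2 := ⟨_, rfl⟩
  obtain ⟨G, hG⟩ : ∃ G, G = (o31 - o13) / 2 := ⟨_, rfl⟩
  obtain ⟨a1, ha1⟩ : ∃ a1, a1 = 1 - n1 - (o12 + o13) := ⟨_, rfl⟩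
  obtain ⟨a2, ha2⟩ : ∃ a2, a2 = 1 - n2 - (o21 + o23) := ⟨_, rfl⟩
  obtain ⟨a3, ha3⟩ : ∃ a3, a3 = 1 - n3 - (o31 + o32) := ⟨_, rfl⟩
  obtain ⟨c1, hc1'⟩ : ∃ c1, c1 = 1 - n1 - (o21 + o31) := ⟨_, rfl⟩
  obtain ⟨c2, hc2'⟩ : ∃ c2, c2 = 1 - n2 - (o12 + o32) := ⟨_, rfl⟩
  obtain ⟨c3, hc3'⟩ : ∃ c3, c3 = 1 - n3 - (o13 + o23) := ⟨_, rfl⟩
  obtain ⟨s, hs'⟩ : ∃ s, s = n1 + n2 + n3 - (o12 + o13 + o21 + o23 + o31 + o32) - 1 := ⟨_, rfl⟩
  obtain ⟨Gam, hGam⟩ : ∃ Gam, Gam = a1 + a2 + a3 := ⟨_, rfl⟩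
  have hGam' : Gam = c1 + c2 + c3 := by rw [hGam, ha1, ha2, ha3, hc1', hc2', hc3']; ring
  have hrk : 0 < r * k := mul_pos hr0 hk
  -- identity
  have hid : D0 n1 n2 n3 o12 o13 o21 o23 o31 o32 / 2 - 49 / 54 =
      (5 / 54 - (x * y + y * z + z * x) - 2 * (x * y * z))
      + (1 / 2) * ((y - 1 / 6) * (a1 - c1) + (z - 1 / 6) * (a2 - c2) + (x - 1 / 6) * (a3 - c3))
      + ((1 - 2 * z) * (A * B) + (1 - 2 * x) * (B * G) + (1 - 2 * y) * (G * A))
      + (1 / 2) * (a1 * ((1 - o23) * (1 - o32) - (1 - n2) * (1 - n3))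
        + a2 * ((1 - o13) * (1 - o31) - (o12 + o13) * (1 - n3))
        + a3 * ((1 - o12) * (1 - o21) - (o12 + o13) * (o21 + o23))) := by
    rw [hx, hy, hz, hA, hB, hG, ha1, ha2, ha3, hc1', hc2', hc3', D0]
    ring
  -- first bracket
  have ht : x + y + z = 1 / 2 - (s + Gam) / 4 := by
    rw [hx, hy, hz, hs', hGam, ha1, ha2, ha3]; ring
  obtain ⟨t, htt⟩ : ∃ t, t = (s + Gam) / 4 := ⟨_, rfl⟩
  rw [← htt] at ht
  have htb : |t| ≤ 3 * r := by
    have : t = 1 / 2 - (x + y + z) := by linarith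
    rw [this, hx, hy, hz, abs_le]
    constructor <;> linarith
  have F1 := lemL_first x y z t r (by rw [hx]; linarith) (by rw [hy]; linarith)
    (by rw [hz]; linarith) hr0 hr ht htb
  -- bounds on a, c
  have ba1 : -(2 * k) ≤ a1 := by rw [ha1]; linarith
  have ba2 : -(2 * k) ≤ a2 := by rw [ha2]; linarith
  have ba3 : -(2 * k) ≤ a3 := by rw [ha3]; linarith
  have bc1 : -(12 * (r * k)) ≤ c1 := by rw [hc1']; linarith
  have bc2 : -(12 * (r * k)) ≤ c2 := by rw [hc2']; linarith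
  have bc3 : -(12 * (r * k)) ≤ c3 := by rw [hc3']; linarith
  have bs : -(3 * k) ≤ s := by rw [hs']; linarith
  have aa1 : |a1| ≤ a1 + 4 * k := by rw [abs_le]; constructor <;> linarith
  have aa2 : |a2| ≤ a2 + 4 * k := by rw [abs_le]; constructor <;> linarith
  have aa3 : |a3| ≤ a3 + 4 * k := by rw [abs_le]; constructor <;> linarith
  have ac1 : |c1| ≤ c1 + 24 * (r * k) := by rw [abs_le]; constructor <;> linarith
  have ac2 : |c2| ≤ c2 + 24 * (r * k) := by rw [abs_le]; constructor <;> linarith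
  have ac3 : |c3| ≤ c3 + 24 * (r * k) := by rw [abs_le]; constructor <;> linarith
  obtain ⟨SB, hSB⟩ : ∃ SB, SB = |a1 - c1| + |a2 - c2| + |a3 - c3| := ⟨_, rfl⟩
  have hSB1 : SB ≤ 2 * Gam + 12 * k + 72 * (r * k) := by
    have e1 := abs_sub a1 c1
    have e2 := abs_sub a2 c2
    have e3 := abs_sub a3 c3
    rw [hSB]
    linarith
  -- second
  have F2 : -(r * SB) ≤ (y - 1 / 6) * (a1 - c1) + (z - 1 / 6) * (a2 - c2)
      + (x - 1 / 6) * (a3 - c3) := by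
    have e1 := lemL_mulb r (y - 1 / 6) (a1 - c1) (by rw [abs_le, hy]; constructor <;> linarith)
    have e2 := lemL_mulb r (z - 1 / 6) (a2 - c2) (by rw [abs_le, hz]; constructor <;> linarith)
    have e3 := lemL_mulb r (x - 1 / 6) (a3 - c3) (by rw [abs_le, hx]; constructor <;> linarith)
    rw [hSB]
    linarith
  -- third
  have F3 : -(r / 4 * SB) ≤ (1 - 2 * z) * (A * B) + (1 - 2 * x) * (B * G)
      + (1 - 2 * y) * (G * A) := by
    have e1 := lemL_third r (1 - 2 * z) A B (a2 - c2) hr0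
      (by rw [hz]; linarith) (by rw [hz]; linarith)
      (by rw [hA, hB, ha2, hc2']; ring)
      (by rw [ha2, hc2', abs_le]; constructor <;> linarith)
    have e2 := lemL_third r (1 - 2 * x) B G (a3 - c3) hr0
      (by rw [hx]; linarith) (by rw [hx]; linarith)
      (by rw [hB, hG, ha3, hc3']; ring)
      (by rw [ha3, hc3', abs_le]; constructor <;> linarith)
    have e3 := lemL_third r (1 - 2 * y) G A (a1 - c1) hr0
      (by rw [hy]; linarith) (by rw [hy]; linarith)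
      (by rw [hG, hA, ha1, hc1']; ring)
      (by rw [ha1, hc1', abs_le]; constructor <;> linarith)
    rw [hSB]
    linarith
  -- fourth
  have w1 : |((1 - o23) * (1 - o32) - (1 - n2) * (1 - n3)) - 7 / 12| ≤ 4 * r := by
    apply lemL_weight r (1 - o23) (1 - o32) (1 - n2) (1 - n3) r r hr0 hr
    · rw [abs_le]; constructor <;> linarith
    · rw [abs_le]; constructor <;> linarith
    · rw [abs_le]; constructor <;> linarith
    · rw [abs_le]; constructor <;> linarith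
    · linarith
    · linarith
  have w2 : |((1 - o13) * (1 - o31) - (o12 + o13) * (1 - n3)) - 7 / 12| ≤ 4 * r := by
    apply lemL_weight r (1 - o13) (1 - o31) (o12 + o13) (1 - n3) (2 * r) r hr0 hr
    · rw [abs_le]; constructor <;> linarith
    · rw [abs_le]; constructor <;> linarith
    · rw [abs_le]; constructor <;> linarith
    · rw [abs_le]; constructor <;> linarith
    · linarith
    · linarith
  have w3 : |((1 - o12) * (1 - o21) - (o12 + o13) * (o21 + o23)) - 7 / 12| ≤ 4 * r := by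
    apply lemL_weight r (1 - o12) (1 - o21) (o12 + o13) (o21 + o23) (2 * r) (2 * r) hr0 hr
    · rw [abs_le]; constructor <;> linarith
    · rw [abs_le]; constructor <;> linarith
    · rw [abs_le]; constructor <;> linarith
    · rw [abs_le]; constructor <;> linarith
    · linarith
    · linarith
  have F4 : 7 / 12 * Gam - 4 * (r * (Gam + 12 * k)) ≤
      a1 * ((1 - o23) * (1 - o32) - (1 - n2) * (1 - n3))
        + a2 * ((1 - o13) * (1 - o31) - (o12 + o13) * (1 - n3))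
        + a3 * ((1 - o12) * (1 - o21) - (o12 + o13) * (o21 + o23)) := by
    have e1 := lemL_fourth r a1 _ w1
    have e2 := lemL_fourth r a2 _ w2
    have e3 := lemL_fourth r a3 _ w3
    have e4 : r * (|a1| + |a2| + |a3|) ≤ r * (Gam + 12 * k) := by
      apply mul_le_mul_of_nonneg_left _ hr0.le
      linarith
    rw [mul_add, mul_add] at e4
    linarith
  -- bound for t
  have hrk' : r * (r * k) ≤ 1 / 1000 * (r * k) := mul_le_mul_of_nonneg_right hr hrk.le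
  have hGam0 : -(36 * (r * k)) ≤ Gam := by linarith
  have htabs : |t| ≤ t + (3 * k + 36 * (r * k)) / 2 := by
    have h36 : r * k ≤ 1 / 1000 * k := mul_le_mul_of_nonneg_right hr hk.le
    rw [abs_le]; constructor <;> linarith
  have hrt : r * |t| ≤ r * t + (3 * (r * k) + 36 * (r * (r * k))) / 2 := by
    have := mul_le_mul_of_nonneg_left htabs hr0.le
    linarith
  have hrSB : r * SB ≤ 2 * (r * Gam) + 12 * (r * k) + 72 * (r * (r * k)) := by
    have := mul_le_mul_of_nonneg_left hSB1 hr0.le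
    linarith
  have hrs : -(3 * (r * k)) ≤ r * s := by
    have := mul_le_mul_of_nonneg_left bs hr0.le
    linarith
  -- coefficient of s : 7/72 - 7/20 r ; coefficient of Gam
  have hS1 : -(7 / 24 * k) ≤ (7 / 72 - 7 / 20 * r) * s := by
    have h1 : 0 ≤ 7 / 72 - 7 / 20 * r := by linarith
    have h2 := mul_le_mul_of_nonneg_left bs h1
    linarith
  have hrr0 : 0 ≤ r * (r * k) := by positivity
  have hG1 : -(14 * (r * k)) ≤ (28 / 72 - (7 / 20 + 3 / 2 + 2) * r) * Gam := by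
    have h1 : 0 ≤ 28 / 72 - (7 / 20 + 3 / 2 + 2) * r := by linarith
    have h2 := mul_le_mul_of_nonneg_left hGam0 h1
    linarith
  have hrt' : r * t = (r * s + r * Gam) / 4 := by rw [htt]; ring
  have hmain : -(7 / 24 * k) - 100 * (r * k) ≤
      D0 n1 n2 n3 o12 o13 o21 o23 o31 o32 / 2 - 49 / 54 := by
    rw [hid]
    rw [sub_mul, mul_assoc] at hS1 hG1
    rw [mul_add] at F4
    linarith [F1, F2, F3, F4, hrt, hrSB, hS1, hG1, hrt', hrk', hrk]
  linarith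

end Pool.Agent.H349R2.Tet
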