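import Pool.Agent.H349R2.Tet.Defs

/-! OVER: explicit overlaps of translates of `K c`, symmetry, convexity, compactness. -/

namespace Pool.Agent.H349R2.Tet

open MeasureTheory

theorem lamK0 (x : V) : lam 0 x = (x 0 + x 1 + x 2 + 1 / 2) / 2 := by
  simp [lam, nv, Fin.sum_univ_three]

theorem lamK1 (x : V) : lam 1 x = (x 0 - x 1 - x 2 + 1 / 2) / 2 := by
  simp [lam, nv, Fin.sum_univ_three]; ring

theorem lamK2 (x : V) : lam 2 x = (-x 0 + x 1 - x 2 + 1 / 2) / 2 := by
  simp [lam, nv, Fin.sum_univ_three]; ring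

theorem lamK3 (x : V) : lam 3 x = (-x 0 - x 1 + x 2 + 1 / 2) / 2 := by
  simp [lam, nv, Fin.sum_univ_three]; ring

theorem lam_contK (i : Fin 4) : Continuous (lam i) := by
  unfold lam
  fun_prop

/-- strict inequalities -/
def GK (c : ℝ) (l : Fin 4 → ℝ) : Prop :=
  (∀ i, 0 < l i) ∧ ∀ i j, i ≠ j → c * (3 * l i - 2) < l j

theorem interior_of_GK {c : ℝ} {x : V} (h : GK c (fun i => lam i x)) : x ∈ interior (K c) := by
  have hopen : IsOpen {x : V | GK c (fun i => lam i x)} := by
    have : {x : V | GK c (fun i => lam i x)} = (⋂ i, {x | 0 < lam i x}) ∩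
        ⋂ i, ⋂ j, {x | i ≠ j → c * (3 * lam i x - 2) < lam j x} := by
      ext x; simp [GK]
    rw [this]
    refine IsOpen.inter (isOpen_iInter_of_finite fun i => isOpen_lt continuous_const (lam_contK i))
      (isOpen_iInter_of_finite fun i => isOpen_iInter_of_finite fun j => ?_)
    by_cases hij : i = j
    · have : {x : V | i ≠ j → c * (3 * lam i x - 2) < lam j x} = Set.univ := by
        ext x; simp [hij]
      rw [this]; exact isOpen_univ
    · have : {x : V | i ≠ j → c * (3 * lam i x - 2) < lam j x} =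
          {x | c * (3 * lam i x - 2) < lam j x} := by
        ext x; simp [hij]
      rw [this]
      refine isOpen_lt ?_ (lam_contK j)
      have := lam_contK i
      fun_prop
  have hsub : {x : V | GK c (fun i => lam i x)} ⊆ K c :=
    fun x hx => ⟨fun i => (hx.1 i).le, fun i j hij => (hx.2 i j hij).le⟩
  exact interior_maximal hsub hopen h

/-- the point with given barycentric coordinates -/
noncomputable def ptK (l : Fin 4 → ℝ) : V :=
  ![(l 0 + l 1 - l 2 - l 3) / 2, (l 0 - l 1 + l 2 - l 3) / 2, (l 0 - l 1 - l 2 + l 3) / 2]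

theorem lam_ptK {l : Fin 4 → ℝ} (h : l 0 + l 1 + l 2 + l 3 = 1) (i : Fin 4) :
    lam i (ptK l) = l i := by
  fin_cases i
  · show lam 0 _ = _
    rw [lamK0]; simp only [ptK, Matrix.cons_val, Fin.zero_eta]; linarith
  · show lam 1 _ = _
    rw [lamK1]; simp only [ptK, Matrix.cons_val, Fin.mk_one]; linarith
  · show lam 2 _ = l 2
    rw [lamK2]; simp only [ptK, Matrix.cons_val]; linarith
  · show lam 3 _ = l 3
    rw [lamK3]; simp only [ptK, Matrix.cons_val]; linarith

/-- linear parts -/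
noncomputable def wK (u : V) : Fin 4 → ℝ :=
  ![(u 0 + u 1 + u 2) / 2, (u 0 - u 1 - u 2) / 2, (-u 0 + u 1 - u 2) / 2, (-u 0 - u 1 + u 2) / 2]

theorem lam_subK (x u : V) (i : Fin 4) : lam i (x - u) = lam i x - wK u i := by
  fin_cases i
  · show lam 0 _ = lam 0 x - wK u 0
    rw [lamK0, lamK0]; simp only [wK, Matrix.cons_val, Pi.sub_apply]; ring
  · show lam 1 _ = lam 1 x - wK u 1
    rw [lamK1, lamK1]; simp only [wK, Matrix.cons_val, Pi.sub_apply]; ring
  · show lam 2 _ = lam 2 x - wK u 2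
    rw [lamK2, lamK2]; simp only [wK, Matrix.cons_val, Pi.sub_apply]; ring
  · show lam 3 _ = lam 3 x - wK u 3
    rw [lamK3, lamK3]; simp only [wK, Matrix.cons_val, Pi.sub_apply]; ring

theorem ov_of_GK {c : ℝ} {u : V} (l : Fin 4 → ℝ) (hs : l 0 + l 1 + l 2 + l 3 = 1)
    (h1 : GK c l) (h2 : GK c (fun i => l i - wK u i)) : Ov (K c) u := by
  refine ⟨ptK l, interior_of_GK ?_, interior_of_GK ?_⟩
  · have : (fun i => lam i (ptK l)) = l := funext fun i => lam_ptK hs i
    rw [this]; exact h1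
  · have : (fun i => lam i (ptK l - u)) = fun i => l i - wK u i := by
      funext i; rw [lam_subK, lam_ptK hs]
    rw [this]; exact h2

/-- simple sufficient condition -/
theorem GK_of_small {c : ℝ} (hc : 0 < c) {l : Fin 4 → ℝ} (h0 : ∀ i, 0 < l i)
    (h1 : ∀ i, l i < 2 / 3) : GK c l := by
  refine ⟨h0, fun i j _ => ?_⟩
  have : c * (3 * l i - 2) < 0 := mul_neg_of_pos_of_neg hc (by linarith [h1 i])
  linarith [h0 j]

theorem GK_of_margin {c : ℝ} (hc : 0 < c) {l : Fin 4 → ℝ}
    (hs : l 0 + l 1 + l 2 + l 3 = 1) (h0 : ∀ i, c / (1 + 9 * c) < l i) : GK c l := by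
  have hpos : 0 < c / (1 + 9 * c) := by positivity
  have hk : ∀ i, l i < 1 - 3 * (c / (1 + 9 * c)) := by
    intro i
    have a0 := h0 0
    have a1 := h0 1
    have a2 := h0 2
    have a3 := h0 3
    fin_cases i
    · show l 0 < _; linarith
    · show l 1 < _; linarith
    · show l 2 < _; linarith
    · show l 3 < _; linarith
  refine ⟨fun i => hpos.trans (h0 i), fun i j _ => ?_⟩
  have e : c * (3 * (1 - 3 * (c / (1 + 9 * c))) - 2) = c / (1 + 9 * c) := by
    field_simp; ring
  calc c * (3 * l i - 2) < c * (3 * (1 - 3 * (c / (1 + 9 * c))) - 2) := by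
        apply mul_lt_mul_of_pos_left _ hc
        linarith [hk i]
    _ = c / (1 + 9 * c) := e
    _ < l j := h0 j

theorem ov_base (c : ℝ) (hc : 0 < c) (hc1 : c ≤ 1 / 100) (u : V)
    (h1 : ∀ i, |u i| < 1 - 4 * c / (1 + 9 * c))
    (h2 : |u 0| + |u 1| + |u 2| < 2 * (1 - 4 * c / (1 + 9 * c))) : Ov (K c) u := by
  set k := c / (1 + 9 * c) with hk
  have hk0 : 0 < k := by positivity
  have hk1 : k ≤ 1 / 100 := by
    rw [hk, div_le_iff₀ (by linarith)]; nlinarith
  have hk4 : 4 * c / (1 + 9 * c) = 4 * k := by rw [hk]; ring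
  rw [hk4] at h1 h2
  have g0 := abs_lt.mp (h1 0)
  have g1 := abs_lt.mp (h1 1)
  have g2 := abs_lt.mp (h1 2)
  have s1 : u 0 + u 1 + u 2 < 2 * (1 - 4 * k) := by
    linarith [le_abs_self (u 0), le_abs_self (u 1), le_abs_self (u 2)]
  have s2 : u 0 - u 1 - u 2 < 2 * (1 - 4 * k) := by
    linarith [le_abs_self (u 0), neg_abs_le (u 1), neg_abs_le (u 2)]
  have s3 : -u 0 + u 1 - u 2 < 2 * (1 - 4 * k) := by
    linarith [neg_abs_le (u 0), le_abs_self (u 1), neg_abs_le (u 2)]
  have s4 : -u 0 - u 1 + u 2 < 2 * (1 - 4 * k) := by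
    linarith [neg_abs_le (u 0), neg_abs_le (u 1), le_abs_self (u 2)]
  have s5 : -u 0 - u 1 - u 2 < 2 * (1 - 4 * k) := by
    linarith [neg_abs_le (u 0), neg_abs_le (u 1), neg_abs_le (u 2)]
  have s6 : -u 0 + u 1 + u 2 < 2 * (1 - 4 * k) := by
    linarith [neg_abs_le (u 0), le_abs_self (u 1), le_abs_self (u 2)]
  have s7 : u 0 - u 1 + u 2 < 2 * (1 - 4 * k) := by
    linarith [le_abs_self (u 0), neg_abs_le (u 1), le_abs_self (u 2)]
  have s8 : u 0 + u 1 - u 2 < 2 * (1 - 4 * k) := by
    linarith [le_abs_self (u 0), le_abs_self (u 1), neg_abs_le (u 2)]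
  set w0 := (u 0 + u 1 + u 2) / 2 with hw0
  set w1 := (u 0 - u 1 - u 2) / 2 with hw1
  set w2 := (-u 0 + u 1 - u 2) / 2 with hw2
  set w3 := (-u 0 - u 1 + u 2) / 2 with hw3
  have hsum : max 0 w0 + max 0 w1 + max 0 w2 + max 0 w3 < 1 - 4 * k := by
    rcases max_cases 0 w0 with ⟨e0, _⟩ | ⟨e0, _⟩ <;> rcases max_cases 0 w1 with ⟨e1, _⟩ | ⟨e1, _⟩ <;>
      rcases max_cases 0 w2 with ⟨e2, _⟩ | ⟨e2, _⟩ <;> rcases max_cases 0 w3 with ⟨e3, _⟩ | ⟨e3, _⟩ <;>
      rw [e0, e1, e2, e3] <;> linarith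
  set θ := (1 - 4 * k - (max 0 w0 + max 0 w1 + max 0 w2 + max 0 w3)) / 4 with hθ
  have hθ0 : 0 < θ := by rw [hθ]; linarith
  have m0 := le_max_left 0 w0
  have m1 := le_max_left 0 w1
  have m2 := le_max_left 0 w2
  have m3 := le_max_left 0 w3
  have n0 := le_max_right 0 w0
  have n1 := le_max_right 0 w1
  have n2 := le_max_right 0 w2
  have n3 := le_max_right 0 w3
  have hS : ![max 0 w0 + θ + k, max 0 w1 + θ + k, max 0 w2 + θ + k, max 0 w3 + θ + k] 0 +
      ![max 0 w0 + θ + k, max 0 w1 + θ + k, max 0 w2 + θ + k, max 0 w3 + θ + k] 1 +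
      ![max 0 w0 + θ + k, max 0 w1 + θ + k, max 0 w2 + θ + k, max 0 w3 + θ + k] 2 +
      ![max 0 w0 + θ + k, max 0 w1 + θ + k, max 0 w2 + θ + k, max 0 w3 + θ + k] 3 = 1 := by
    simp only [Matrix.cons_val]
    linarith
  refine ov_of_GK ![max 0 w0 + θ + k, max 0 w1 + θ + k, max 0 w2 + θ + k, max 0 w3 + θ + k] hS
    (GK_of_margin hc hS ?_) (GK_of_margin hc ?_ ?_)
  · intro i
    fin_cases i
    · show k < max 0 w0 + θ + k; linarith
    · show k < max 0 w1 + θ + k; linarith
    · show k < max 0 w2 + θ + k; linarith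
    · show k < max 0 w3 + θ + k; linarith
  · simp only [Matrix.cons_val, wK] at hS ⊢
    linarith
  · intro i
    fin_cases i
    · show k < max 0 w0 + θ + k - w0; linarith
    · show k < max 0 w1 + θ + k - w1; linarith
    · show k < max 0 w2 + θ + k - w2; linarith
    · show k < max 0 w3 + θ + k - w3; linarith

/-- near the centre `(2/3,2/3,2/3)` of a triangular face -/
theorem ov_tri (c : ℝ) (hc : 0 < c) (hc1 : c ≤ 1 / 100) (u : V)
    (hu : ∀ i, |u i - 2 / 3| ≤ 1 / 100)
    (h : u 0 + u 1 + u 2 < 2 * (1 - 3 * c / (1 + 9 * c))) : Ov (K c) u := by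
  set k := c / (1 + 9 * c) with hk
  have hk0 : 0 < k := by positivity
  have hk1 : k ≤ 1 / 100 := by
    rw [hk, div_le_iff₀ (by linarith)]; nlinarith
  have hkc : k * (1 + 9 * c) = c := by rw [hk]; field_simp
  have hk4 : 3 * c / (1 + 9 * c) = 3 * k := by rw [hk]; ring
  rw [hk4] at h
  have g0 := abs_le.mp (hu 0)
  have g1 := abs_le.mp (hu 1)
  have g2 := abs_le.mp (hu 2)
  set w0 := (u 0 + u 1 + u 2) / 2 with hw0
  set a := (w0 + (1 - 3 * k)) / 2 with ha
  have ha1 : a < 1 - 3 * k := by rw [ha]; linarith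
  have ha2 : w0 < a := by rw [ha]; linarith
  have hlow : 98 / 100 < a := by rw [ha]; linarith
  have hmain : c * (3 * a - 2) < (1 - a) / 3 := by nlinarith
  refine ov_of_GK ![a, (1 - a) / 3, (1 - a) / 3, (1 - a) / 3] (by simp only [Matrix.cons_val]; ring)
    ⟨?_, ?_⟩ (GK_of_small hc ?_ ?_)
  · intro i
    fin_cases i
    · show 0 < a; linarith
    · show 0 < (1 - a) / 3; linarith
    · show 0 < (1 - a) / 3; linarith
    · show 0 < (1 - a) / 3; linarith
  · have hneg : c * (3 * ((1 - a) / 3) - 2) < 0 := mul_neg_of_pos_of_neg hc (by linarith)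
    intro i j hij
    fin_cases i <;> fin_cases j <;> simp only [Fin.zero_eta, Fin.mk_one, Fin.reduceFinMk, ne_eq,
      not_true_eq_false, Matrix.cons_val] at hij ⊢ <;> linarith
  · intro i
    fin_cases i
    · show 0 < a - w0; linarith
    · show 0 < (1 - a) / 3 - (u 0 - u 1 - u 2) / 2; linarith
    · show 0 < (1 - a) / 3 - (-u 0 + u 1 - u 2) / 2; linarith
    · show 0 < (1 - a) / 3 - (-u 0 - u 1 + u 2) / 2; linarith
  · intro i
    fin_cases i
    · show a - w0 < _; linarith
    · show (1 - a) / 3 - (u 0 - u 1 - u 2) / 2 < _; linarith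
    · show (1 - a) / 3 - (-u 0 + u 1 - u 2) / 2 < _; linarith
    · show (1 - a) / 3 - (-u 0 - u 1 + u 2) / 2 < _; linarith

/-- near the contact point of a square face -/
theorem ov_sq (c r : ℝ) (hc : 0 < c) (hc1 : c ≤ 1 / 100) (hr : 0 < r) (hr1 : r ≤ 1 / 100)
    (i : Fin 3) (u : V) (hi : |u i - 1| ≤ r) (hj : ∀ j, j ≠ i → |u j + 1 / 6| ≤ r)
    (h : u i < 1 - 20 * c * r) : Ov (K c) u := by
  have hcr : 0 < c * r := mul_pos hc hr
  fin_cases i
  · change |u 0 - 1| ≤ r at hi
    change u 0 < 1 - 20 * c * r at h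
    have g0 := abs_le.mp hi
    have g1 := abs_le.mp (hj 1 (by decide))
    have g2 := abs_le.mp (hj 2 (by decide))
    set θ := (1 - u 0) / 4 with hθ
    have hθ1 : 5 * (c * r) < θ := by rw [hθ]; linarith
    have hθ2 : θ ≤ r / 4 := by rw [hθ]; linarith
    set w0 := (u 0 + u 1 + u 2) / 2 with hw0
    set w1 := (u 0 - u 1 - u 2) / 2 with hw1
    have hmain : c * (3 * (w1 + θ) - 2) < θ := by
      have h1 : 3 * (w1 + θ) - 2 ≤ 9 / 2 * r + 3 * θ := by rw [hw1]; linarith
      have h2 : c * (3 * (w1 + θ) - 2) ≤ c * (9 / 2 * r + 3 * θ) := mul_le_mul_of_nonneg_left h1 hc.le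
      nlinarith
    have hneg0 : c * (3 * (w0 + θ) - 2) < 0 := mul_neg_of_pos_of_neg hc (by rw [hw0]; linarith)
    have hneg1 : c * (3 * θ - 2) < 0 := mul_neg_of_pos_of_neg hc (by linarith)
    have hsmall : θ < w0 + θ := by rw [hw0]; linarith
    have hsmall1 : 0 < w1 + θ := by rw [hw1]; linarith
    refine ov_of_GK ![w0 + θ, w1 + θ, θ, θ] (by simp only [Matrix.cons_val]; linarith)
      ⟨?_, ?_⟩ (GK_of_small hc ?_ ?_)
    · intro i
      fin_cases i
      · show 0 < w0 + θ; linarith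
      · show 0 < w1 + θ; linarith
      · show 0 < θ; linarith
      · show 0 < θ; linarith
    · intro i j hij
      fin_cases i <;> fin_cases j <;> simp only [Fin.zero_eta, Fin.mk_one, Fin.reduceFinMk, ne_eq,
        not_true_eq_false, Matrix.cons_val] at hij ⊢ <;> linarith
    · intro i
      fin_cases i
      · show 0 < w0 + θ - w0; linarith
      · show 0 < w1 + θ - w1; linarith
      · show 0 < θ - (-u 0 + u 1 - u 2) / 2; linarith
      · show 0 < θ - (-u 0 - u 1 + u 2) / 2; linarith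
    · intro i
      fin_cases i
      · show w0 + θ - w0 < _; linarith
      · show w1 + θ - w1 < _; linarith
      · show θ - (-u 0 + u 1 - u 2) / 2 < _; linarith
      · show θ - (-u 0 - u 1 + u 2) / 2 < _; linarith
  · change |u 1 - 1| ≤ r at hi
    change u 1 < 1 - 20 * c * r at h
    have g0 := abs_le.mp hi
    have g1 := abs_le.mp (hj 0 (by decide))
    have g2 := abs_le.mp (hj 2 (by decide))
    set θ := (1 - u 1) / 4 with hθ
    have hθ1 : 5 * (c * r) < θ := by rw [hθ]; linarith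
    have hθ2 : θ ≤ r / 4 := by rw [hθ]; linarith
    set w0 := (u 0 + u 1 + u 2) / 2 with hw0
    set w2 := (-u 0 + u 1 - u 2) / 2 with hw2
    have hmain : c * (3 * (w2 + θ) - 2) < θ := by
      have h1 : 3 * (w2 + θ) - 2 ≤ 9 / 2 * r + 3 * θ := by rw [hw2]; linarith
      have h2 : c * (3 * (w2 + θ) - 2) ≤ c * (9 / 2 * r + 3 * θ) := mul_le_mul_of_nonneg_left h1 hc.le
      nlinarith
    have hneg0 : c * (3 * (w0 + θ) - 2) < 0 := mul_neg_of_pos_of_neg hc (by rw [hw0]; linarith)
    have hneg1 : c * (3 * θ - 2) < 0 := mul_neg_of_pos_of_neg hc (by linarith)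
    have hsmall : θ < w0 + θ := by rw [hw0]; linarith
    have hsmall1 : 0 < w2 + θ := by rw [hw2]; linarith
    refine ov_of_GK ![w0 + θ, θ, w2 + θ, θ] (by simp only [Matrix.cons_val]; linarith)
      ⟨?_, ?_⟩ (GK_of_small hc ?_ ?_)
    · intro i
      fin_cases i
      · show 0 < w0 + θ; linarith
      · show 0 < θ; linarith
      · show 0 < w2 + θ; linarith
      · show 0 < θ; linarith
    · intro i j hij
      fin_cases i <;> fin_cases j <;> simp only [Fin.zero_eta, Fin.mk_one, Fin.reduceFinMk, ne_eq,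
        not_true_eq_false, Matrix.cons_val] at hij ⊢ <;> linarith
    · intro i
      fin_cases i
      · show 0 < w0 + θ - w0; linarith
      · show 0 < θ - (u 0 - u 1 - u 2) / 2; linarith
      · show 0 < w2 + θ - w2; linarith
      · show 0 < θ - (-u 0 - u 1 + u 2) / 2; linarith
    · intro i
      fin_cases i
      · show w0 + θ - w0 < _; linarith
      · show θ - (u 0 - u 1 - u 2) / 2 < _; linarith
      · show w2 + θ - w2 < _; linarith
      · show θ - (-u 0 - u 1 + u 2) / 2 < _; linarith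
  · change |u 2 - 1| ≤ r at hi
    change u 2 < 1 - 20 * c * r at h
    have g0 := abs_le.mp hi
    have g1 := abs_le.mp (hj 0 (by decide))
    have g2 := abs_le.mp (hj 1 (by decide))
    set θ := (1 - u 2) / 4 with hθ
    have hθ1 : 5 * (c * r) < θ := by rw [hθ]; linarith
    have hθ2 : θ ≤ r / 4 := by rw [hθ]; linarith
    set w0 := (u 0 + u 1 + u 2) / 2 with hw0
    set w3 := (-u 0 - u 1 + u 2) / 2 with hw3
    have hmain : c * (3 * (w3 + θ) - 2) < θ := by
      have h1 : 3 * (w3 + θ) - 2 ≤ 9 / 2 * r + 3 * θ := by rw [hw3]; linarith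
      have h2 : c * (3 * (w3 + θ) - 2) ≤ c * (9 / 2 * r + 3 * θ) := mul_le_mul_of_nonneg_left h1 hc.le
      nlinarith
    have hneg0 : c * (3 * (w0 + θ) - 2) < 0 := mul_neg_of_pos_of_neg hc (by rw [hw0]; linarith)
    have hneg1 : c * (3 * θ - 2) < 0 := mul_neg_of_pos_of_neg hc (by linarith)
    have hsmall : θ < w0 + θ := by rw [hw0]; linarith
    have hsmall1 : 0 < w3 + θ := by rw [hw3]; linarith
    refine ov_of_GK ![w0 + θ, θ, θ, w3 + θ] (by simp only [Matrix.cons_val]; linarith)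
      ⟨?_, ?_⟩ (GK_of_small hc ?_ ?_)
    · intro i
      fin_cases i
      · show 0 < w0 + θ; linarith
      · show 0 < θ; linarith
      · show 0 < θ; linarith
      · show 0 < w3 + θ; linarith
    · intro i j hij
      fin_cases i <;> fin_cases j <;> simp only [Fin.zero_eta, Fin.mk_one, Fin.reduceFinMk, ne_eq,
        not_true_eq_false, Matrix.cons_val] at hij ⊢ <;> linarith
    · intro i
      fin_cases i
      · show 0 < w0 + θ - w0; linarith
      · show 0 < θ - (u 0 - u 1 - u 2) / 2; linarith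
      · show 0 < θ - (-u 0 + u 1 - u 2) / 2; linarith
      · show 0 < w3 + θ - w3; linarith
    · intro i
      fin_cases i
      · show w0 + θ - w0 < _; linarith
      · show θ - (u 0 - u 1 - u 2) / 2 < _; linarith
      · show θ - (-u 0 + u 1 - u 2) / 2 < _; linarith
      · show w3 + θ - w3 < _; linarith

theorem K_perm {c : ℝ} {x y : V} (π : Fin 4 → Fin 4) (hπ : Function.Injective π)
    (h : ∀ i, lam i y = lam (π i) x) (hx : x ∈ K c) : y ∈ K c := by
  refine ⟨fun i => ?_, fun i j hij => ?_⟩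
  · rw [h]; exact hx.1 _
  · rw [h, h]; exact hx.2 _ _ (fun e => hij (hπ e))

theorem K_flip {c : ℝ} {x : V} (δ : Fin 3 → ℝ) (hδ : ∀ i, δ i = 1 ∨ δ i = -1)
    (hprod : δ 0 * δ 1 * δ 2 = 1) (hx : x ∈ K c) : (fun i => δ i * x i) ∈ K c := by
  rcases hδ 0 with h0 | h0 <;> rcases hδ 1 with h1 | h1 <;> rcases hδ 2 with h2 | h2 <;>
    rw [h0, h1, h2] at hprod <;> norm_num at hprod
  · refine K_perm id Function.injective_id (fun i => ?_) hx
    fin_cases i
    · show lam 0 _ = lam 0 _
      rw [lamK0, lamK0]; simp only [h0, h1, h2]; ring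
    · show lam 1 _ = lam 1 _
      rw [lamK1, lamK1]; simp only [h0, h1, h2]; ring
    · show lam 2 _ = lam 2 _
      rw [lamK2, lamK2]; simp only [h0, h1, h2]; ring
    · show lam 3 _ = lam 3 _
      rw [lamK3, lamK3]; simp only [h0, h1, h2]; ring
  · refine K_perm ![1, 0, 3, 2] (by decide) (fun i => ?_) hx
    fin_cases i
    · show lam 0 _ = lam 1 _
      rw [lamK0, lamK1]; simp only [h0, h1, h2]; ring
    · show lam 1 _ = lam 0 _
      rw [lamK1, lamK0]; simp only [h0, h1, h2]; ring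
    · show lam 2 _ = lam 3 _
      rw [lamK2, lamK3]; simp only [h0, h1, h2]; ring
    · show lam 3 _ = lam 2 _
      rw [lamK3, lamK2]; simp only [h0, h1, h2]; ring
  · refine K_perm ![2, 3, 0, 1] (by decide) (fun i => ?_) hx
    fin_cases i
    · show lam 0 _ = lam 2 _
      rw [lamK0, lamK2]; simp only [h0, h1, h2]; ring
    · show lam 1 _ = lam 3 _
      rw [lamK1, lamK3]; simp only [h0, h1, h2]; ring
    · show lam 2 _ = lam 0 _
      rw [lamK2, lamK0]; simp only [h0, h1, h2]; ring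
    · show lam 3 _ = lam 1 _
      rw [lamK3, lamK1]; simp only [h0, h1, h2]; ring
  · refine K_perm ![3, 2, 1, 0] (by decide) (fun i => ?_) hx
    fin_cases i
    · show lam 0 _ = lam 3 _
      rw [lamK0, lamK3]; simp only [h0, h1, h2]; ring
    · show lam 1 _ = lam 2 _
      rw [lamK1, lamK2]; simp only [h0, h1, h2]; ring
    · show lam 2 _ = lam 1 _
      rw [lamK2, lamK1]; simp only [h0, h1, h2]; ring
    · show lam 3 _ = lam 0 _
      rw [lamK3, lamK0]; simp only [h0, h1, h2]; ring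

theorem interior_flip {c : ℝ} {x : V} (δ : Fin 3 → ℝ) (hδ : ∀ i, δ i = 1 ∨ δ i = -1)
    (hprod : δ 0 * δ 1 * δ 2 = 1) (hx : x ∈ interior (K c)) :
    (fun i => δ i * x i) ∈ interior (K c) := by
  have hsq : ∀ i, δ i * δ i = 1 := by
    intro i; rcases hδ i with h | h <;> rw [h] <;> norm_num
  have hinv : ∀ y : V, (fun i => δ i * (fun i => δ i * y i) i) = y := by
    intro y; funext i; show δ i * (δ i * y i) = y i
    rw [← mul_assoc, hsq, one_mul]
  have hcont : Continuous (fun y : V => (fun i => δ i * y i : V)) := by fun_prop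
  have hopen : IsOpen ((fun y : V => (fun i => δ i * y i : V)) ⁻¹' (interior (K c))) :=
    isOpen_interior.preimage hcont
  refine interior_maximal ?_ hopen ?_
  · intro y hy
    have h1 : (fun i => δ i * y i : V) ∈ K c := interior_subset hy
    have h2 := K_flip δ hδ hprod h1
    rwa [hinv y] at h2
  · show (fun i => δ i * (fun i => δ i * x i) i) ∈ interior (K c)
    rw [hinv x]; exact hx

theorem ov_refl (c : ℝ) (ε : Fin 3 → ℝ) (hε : ∀ i, ε i = 1 ∨ ε i = -1) (u : V)
    (h : Ov (K c) (fun i => ε i * u i)) : Ov (K c) u := by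
  obtain ⟨x, hx, hxu⟩ := h
  have hsq : ∀ i, ε i * ε i = 1 := by
    intro i; rcases hε i with h | h <;> rw [h] <;> norm_num
  have hprod : ε 0 * ε 1 * ε 2 = 1 ∨ ε 0 * ε 1 * ε 2 = -1 := by
    rcases hε 0 with h0 | h0 <;> rcases hε 1 with h1 | h1 <;> rcases hε 2 with h2 | h2 <;>
      rw [h0, h1, h2] <;> norm_num
  rcases hprod with hp | hp
  · refine ⟨fun i => ε i * x i, interior_flip ε hε hp hx, ?_⟩
    have h2 := interior_flip ε hε hp hxu
    convert h2 using 1
    funext i
    show ε i * x i - u i = ε i * (x i - ε i * u i)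
    have := hsq i
    linear_combination (u i) * this
  · have hn : ∀ i, (-ε i) = 1 ∨ (-ε i) = -1 := by
      intro i; rcases hε i with h | h <;> rw [h] <;> norm_num
    have hp' : (-ε 0) * (-ε 1) * (-ε 2) = 1 := by linear_combination (-1 : ℝ) * hp
    refine ⟨fun i => -ε i * (x i - ε i * u i), interior_flip (fun i => -ε i) hn hp' hxu, ?_⟩
    have h2 := interior_flip (fun i => -ε i) hn hp' hx
    convert h2 using 1
    funext i
    show -ε i * (x i - ε i * u i) - u i = -ε i * x i
    have := hsq i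
    linear_combination (u i) * this

theorem lam_affine (i : Fin 4) (x y : V) {a b : ℝ} (hab : a + b = 1) :
    lam i (a • x + b • y) = a * lam i x + b * lam i y := by
  have hb : b = 1 - a := by linarith
  subst hb
  unfold lam
  simp only [Pi.add_apply, Pi.smul_apply, smul_eq_mul, Fin.sum_univ_three]
  ring

theorem K_convex (c : ℝ) (hc : 0 ≤ c) : Convex ℝ (K c) := by
  intro x hx y hy a b ha hb hab
  refine ⟨fun i => ?_, fun i j hij => ?_⟩
  · rw [lam_affine i x y hab]
    have := hx.1 i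
    have := hy.1 i
    positivity
  · rw [lam_affine i x y hab, lam_affine j x y hab]
    have h1 := mul_le_mul_of_nonneg_left (hx.2 i j hij) ha
    have h2 := mul_le_mul_of_nonneg_left (hy.2 i j hij) hb
    have e : c * (3 * (a * lam i x + b * lam i y) - 2) =
        a * (c * (3 * lam i x - 2)) + b * (c * (3 * lam i y - 2)) := by
      have hb : b = 1 - a := by linarith
      subst hb; ring
    rw [e]; linarith

theorem K_compact (c : ℝ) : IsCompact (K c) := by
  have hclosed : IsClosed (K c) := by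
    have : K c = (⋂ i, {x | 0 ≤ lam i x}) ∩
        ⋂ i, ⋂ j, {x | i ≠ j → c * (3 * lam i x - 2) ≤ lam j x} := by
      ext x; simp [K]
    rw [this]
    refine IsClosed.inter (isClosed_iInter fun i => isClosed_le continuous_const (lam_contK i))
      (isClosed_iInter fun i => isClosed_iInter fun j => ?_)
    by_cases hij : i = j
    · have : {x : V | i ≠ j → c * (3 * lam i x - 2) ≤ lam j x} = Set.univ := by
        ext x; simp [hij]
      rw [this]; exact isClosed_univ
    · have : {x : V | i ≠ j → c * (3 * lam i x - 2) ≤ lam j x} =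
          {x | c * (3 * lam i x - 2) ≤ lam j x} := by
        ext x; simp [hij]
      rw [this]
      refine isClosed_le ?_ (lam_contK j)
      have := lam_contK i
      fun_prop
  refine (isCompact_closedBall (0 : V) 1).of_isClosed_subset hclosed ?_
  intro x hx
  rw [mem_closedBall_zero_iff, pi_norm_le_iff_of_nonneg zero_le_one]
  have h0 := hx.1 0
  have h1 := hx.1 1
  have h2 := hx.1 2
  have h3 := hx.1 3
  rw [lamK0] at h0
  rw [lamK1] at h1
  rw [lamK2] at h2
  rw [lamK3] at h3
  intro i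
  rw [Real.norm_eq_abs]
  fin_cases i
  · show |x 0| ≤ 1
    rw [abs_le]; constructor <;> linarith
  · show |x 1| ≤ 1
    rw [abs_le]; constructor <;> linarith
  · show |x 2| ≤ 1
    rw [abs_le]; constructor <;> linarith

theorem K_interior (c : ℝ) (hc : 0 < c) (hc1 : c ≤ 1 / 100) : (interior (K c)).Nonempty := by
  refine ⟨0, interior_of_GK (GK_of_small hc ?_ ?_)⟩
  · intro i
    fin_cases i
    · show 0 < lam 0 0; rw [lamK0]; norm_num
    · show 0 < lam 1 0; rw [lamK1]; norm_num
    · show 0 < lam 2 0; rw [lamK2]; norm_num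
    · show 0 < lam 3 0; rw [lamK3]; norm_num
  · intro i
    fin_cases i
    · show lam 0 0 < _; rw [lamK0]; norm_num
    · show lam 1 0 < _; rw [lamK1]; norm_num
    · show lam 2 0 < _; rw [lamK2]; norm_num
    · show lam 3 0 < _; rw [lamK3]; norm_num

end Pool.Agent.H349R2.Tet
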