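import Pool.Agent.H349R2.Tet.Corner5
import Pool.Agent.H349R2.Tet.LemF
import Pool.Agent.H349R2.Tet.LemL
import Pool.Agent.H349R2.Tet.Over

/-!
# Lower bounds for determinants of packing lattices
-/

namespace Pool.Agent.H349R2.Tet

/-- Hoylman's theorem: determinants of admissible lattices of the cuboctahedron -/
theorem hoylman {b : Fin 3 → V} (hadm : Adm b) (hb : dt b ≠ 0) : 49 / 54 ≤ |dt b| := by
  by_contra hcon
  push Not at hcon
  obtain ⟨ε, hε, hG⟩ := structure_thm hadm hb (by linarith)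
  have hε2 : ∀ i, ε i * ε i = 1 := by
    intro i
    rcases hε i with h | h <;> rw [h] <;> norm_num
  obtain ⟨n1, n2, n3, o12, o13, o21, o23, o31, o32, ⟨a1, a2, a3, a4, a5, a6, a7, a8, a9⟩,
    ⟨r1, r2, r3⟩, ⟨c1, c2, c3⟩, hs, hS, hD, -⟩ := hG
  rw [abs_dt_rf hε2] at hS hD
  have key := fun r hr0 hr5 => lemF n1 n2 n3 o12 o13 o21 o23 o31 o32 r hr0 hr5 a1.le a2.le a3.le
    a4.le a5.le a6.le a7.le a8.le a9.le r1 r2 r3 c1 c2 c3 hs (by nlinarith)
  have lim : ∀ x : ℝ, (∀ r : ℝ, 0 < r → r ≤ 1 / 5 → |x| ≤ r) → x = 0 := by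
    intro x hx
    by_contra hne
    have hpos : 0 < |x| := abs_pos.mpr hne
    have := hx (min (|x| / 2) (1 / 5)) (by positivity) (min_le_right _ _)
    have h2 := min_le_left (|x| / 2) (1 / 5)
    linarith
  have e1 := lim _ fun r h h' => (key r h h').1
  have e2 := lim _ fun r h h' => (key r h h').2.1
  have e3 := lim _ fun r h h' => (key r h h').2.2.1
  have e4 := lim _ fun r h h' => (key r h h').2.2.2.1
  have e5 := lim _ fun r h h' => (key r h h').2.2.2.2.1
  have e6 := lim _ fun r h h' => (key r h h').2.2.2.2.2.1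
  have e7 := lim _ fun r h h' => (key r h h').2.2.2.2.2.2.1
  have e8 := lim _ fun r h h' => (key r h h').2.2.2.2.2.2.2.1
  have e9 := lim _ fun r h h' => (key r h h').2.2.2.2.2.2.2.2
  have f1 : n1 = 2 / 3 := by linarith
  have f2 : n2 = 2 / 3 := by linarith
  have f3 : n3 = 2 / 3 := by linarith
  have f4 : o12 = 1 / 6 := by linarith
  have f5 : o13 = 1 / 6 := by linarith
  have f6 : o21 = 1 / 6 := by linarith
  have f7 : o23 = 1 / 6 := by linarith
  have f8 : o31 = 1 / 6 := by linarith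
  have f9 : o32 = 1 / 6 := by linarith
  rw [f1, f2, f3, f4, f5, f6, f7, f8, f9] at hD
  unfold D0 at hD
  norm_num at hD
  linarith

/-- the bound for the truncated body, in the presence of the structure -/
theorem final_good {β : Fin 3 → V} {c k : ℝ} (hc : 0 < c) (hc1 : c ≤ 1 / 10 ^ 15)
    (hk : k = 4 * c / (1 + 9 * c))
    (hpack : ∀ u ∈ lat β, u ≠ 0 → ¬ Ov (K c) u)
    (hG : Good (rf (fun _ => 1 / (1 - k)) β))
    (hup : |dt (rf (fun _ => 1 / (1 - k)) β)| ≤ 49 / 54 + 1 / 10 ^ 14 * 6) :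
    49 / 54 - (7 / 24 + 1 / 1000) * k ≤ |dt β| := by
  have hc9 : 0 < 1 + 9 * c := by linarith
  have hkc : k * (1 + 9 * c) = 4 * c := by rw [hk]; field_simp
  have hk0 : 0 < k := by rw [hk]; positivity
  have hk4 : k ≤ 4 * c := by nlinarith
  have hk1 : k ≤ 4 / 10 ^ 15 := by
    calc k ≤ 4 * c := hk4
      _ ≤ 4 * (1 / 10 ^ 15) := by linarith
      _ = 4 / 10 ^ 15 := by norm_num
  have hk5 : k ≤ 1 / 10 ^ 7 := by
    refine hk1.trans ?_; norm_num
  have hc2 : c ≤ 1 / 100 := by refine hc1.trans ?_; norm_num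
  have h1k : 0 < 1 - k := by linarith
  have unsc : ∀ {x y z : ℝ}, LL (rf (fun _ => 1 / (1 - k)) β) x y z →
      LL β ((1 - k) * x) ((1 - k) * y) ((1 - k) * z) := by
    intro x y z h
    have := LL_rf (ε := fun _ => 1 - k) h
    have e : rf (fun _ => 1 - k) (rf (fun _ => 1 / (1 - k)) β) = β := by
      ext i j
      simp only [rf]
      field_simp
    rwa [e] at this
  have hdt : |dt (rf (fun _ => 1 / (1 - k)) β)| * (1 - k) ^ 3 = |dt β| := by
    rw [dt_rf, abs_mul]
    have : 0 < 1 / (1 - k) * (1 / (1 - k)) * (1 / (1 - k)) := by positivity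
    rw [abs_of_pos this]
    field_simp
  obtain ⟨n1, n2, n3, o12, o13, o21, o23, o31, o32, ⟨a1, a2, a3, a4, a5, a6, a7, a8, a9⟩,
    ⟨r1, r2, r3⟩, ⟨c1, c2, c3⟩, hs, hS, hD, p1, p2, p3, p0⟩ := hG
  obtain ⟨f1, f2, f3, f4, f5, f6, f7, f8, f9⟩ := lemF n1 n2 n3 o12 o13 o21 o23 o31 o32
    (1 / 200000) (by norm_num) (by norm_num) a1.le a2.le a3.le
    a4.le a5.le a6.le a7.le a8.le a9.le r1 r2 r3 c1 c2 c3 hs (by
      have h0 : (1 : ℝ) / 18 - (1 / 200000) ^ 2 / 400 ≤ 1 - (49 / 54 + 1 / 10 ^ 14 * 6) - 1 / 27 := by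
        norm_num
      linarith)
  replace p1 := unsc p1
  replace p2 := unsc p2
  replace p3 := unsc p3
  replace p0 := unsc p0
  -- unscaled deficits
  obtain ⟨N1, hN1⟩ : ∃ t, t = 1 - (1 - k) * (1 - n1) := ⟨_, rfl⟩
  obtain ⟨N2, hN2⟩ : ∃ t, t = 1 - (1 - k) * (1 - n2) := ⟨_, rfl⟩
  obtain ⟨N3, hN3⟩ : ∃ t, t = 1 - (1 - k) * (1 - n3) := ⟨_, rfl⟩
  obtain ⟨O12, hO12⟩ : ∃ t, t = 1 - (1 - k) * (1 - o12) := ⟨_, rfl⟩
  obtain ⟨O13, hO13⟩ : ∃ t, t = 1 - (1 - k) * (1 - o13) := ⟨_, rfl⟩
  obtain ⟨O21, hO21⟩ : ∃ t, t = 1 - (1 - k) * (1 - o21) := ⟨_, rfl⟩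
  obtain ⟨O23, hO23⟩ : ∃ t, t = 1 - (1 - k) * (1 - o23) := ⟨_, rfl⟩
  obtain ⟨O31, hO31⟩ : ∃ t, t = 1 - (1 - k) * (1 - o31) := ⟨_, rfl⟩
  obtain ⟨O32, hO32⟩ : ∃ t, t = 1 - (1 - k) * (1 - o32) := ⟨_, rfl⟩
  have P1 : LL β (-(1 - N1)) (1 - O12) (1 - O13) :=
    p1.congr (by rw [hN1]; ring) (by rw [hO12]; ring) (by rw [hO13]; ring)
  have P2 : LL β (1 - O21) (-(1 - N2)) (1 - O23) :=
    p2.congr (by rw [hO21]; ring) (by rw [hN2]; ring) (by rw [hO23]; ring)
  have P3 : LL β (1 - O31) (1 - O32) (-(1 - N3)) :=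
    p3.congr (by rw [hO31]; ring) (by rw [hO32]; ring) (by rw [hN3]; ring)
  have P0 : LL β ((1 + N1 - O21 - O31) / 2) ((1 + N2 - O12 - O32) / 2)
      ((1 + N3 - O13 - O23) / 2) := by
    refine p0.congr ?_ ?_ ?_
    · rw [hN1, hO21, hO31]; ring
    · rw [hN2, hO12, hO32]; ring
    · rw [hN3, hO13, hO23]; ring
  have close : ∀ x X t : ℝ, X = 1 - (1 - k) * (1 - x) → |x - t| ≤ 1 / 200000 → 0 ≤ t → t ≤ 1 →
      0 < x → x ≤ 1 → |X - t| ≤ 2 / 300000 := by
    intro x X t hX hx ht ht1 hx0 hx1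
    rw [abs_le] at hx ⊢
    have e : X - t = (x - t) + k * (1 - x) := by rw [hX]; ring
    have h1 : 0 ≤ k * (1 - x) := mul_nonneg hk0.le (by linarith)
    have h2 : k * (1 - x) ≤ k := by nlinarith
    rw [e]
    constructor
    · linarith
    · linarith
  have g1 := close n1 N1 (2 / 3) hN1 f1 (by norm_num) (by norm_num) a1 (by linarith)
  have g2 := close n2 N2 (2 / 3) hN2 f2 (by norm_num) (by norm_num) a2 (by linarith)
  have g3 := close n3 N3 (2 / 3) hN3 f3 (by norm_num) (by norm_num) a3 (by linarith)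
  have g4 := close o12 O12 (1 / 6) hO12 f4 (by norm_num) (by norm_num) a4 (by linarith)
  have g5 := close o13 O13 (1 / 6) hO13 f5 (by norm_num) (by norm_num) a5 (by linarith)
  have g6 := close o21 O21 (1 / 6) hO21 f6 (by norm_num) (by norm_num) a6 (by linarith)
  have g7 := close o23 O23 (1 / 6) hO23 f7 (by norm_num) (by norm_num) a7 (by linarith)
  have g8 := close o31 O31 (1 / 6) hO31 f8 (by norm_num) (by norm_num) a8 (by linarith)
  have g9 := close o32 O32 (1 / 6) hO32 f9 (by norm_num) (by norm_num) a9 (by linarith)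
  have G1 := abs_le.mp g1
  have G2 := abs_le.mp g2
  have G3 := abs_le.mp g3
  have G4 := abs_le.mp g4
  have G5 := abs_le.mp g5
  have G6 := abs_le.mp g6
  have G7 := abs_le.mp g7
  have G8 := abs_le.mp g8
  have G9 := abs_le.mp g9
  have row : ∀ x y z X Y Z : ℝ, X = 1 - (1 - k) * (1 - x) → Y = 1 - (1 - k) * (1 - y) →
      Z = 1 - (1 - k) * (1 - z) → x + y + z ≤ 1 → X + Y + Z ≤ 1 + 2 * k := by
    intro x y z X Y Z hX hY hZ h
    have e : X + Y + Z = 3 * k + (1 - k) * (x + y + z) := by rw [hX, hY, hZ]; ring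
    have := mul_le_mul_of_nonneg_left h h1k.le
    rw [e]; linarith
  have R1 := row _ _ _ _ _ _ hN1 hO12 hO13 r1
  have R2 := row _ _ _ _ _ _ hN2 hO21 hO23 r2
  have R3 := row _ _ _ _ _ _ hN3 hO31 hO32 r3
  have h3c : 3 * c / (1 + 9 * c) = 3 / 4 * k := by rw [hk]; ring
  -- the centre
  have HS : 1 - 3 * k + (O12 + O13 + O21 + O23 + O31 + O32) ≤ N1 + N2 + N3 := by
    by_contra hcon
    push Not at hcon
    refine hpack _ P0 ?_ (ov_tri c hc hc2 _ ?_ ?_)
    · intro h0
      have := congrFun h0 0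
      simp at this
      linarith
    · intro i
      fin_cases i
      · simp only [Fin.zero_eta, Matrix.cons_val_zero]
        rw [abs_le]; constructor <;> linarith
      · simp only [Fin.mk_one, Matrix.cons_val_one, Matrix.cons_val_zero]
        rw [abs_le]; constructor <;> linarith
      · simp only [Fin.reduceFinMk, Matrix.cons_val]
        rw [abs_le]; constructor <;> linarith
    · simp only [Matrix.cons_val_zero, Matrix.cons_val_one, Matrix.cons_val]
      rw [h3c]
      linarith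
  have h40 : 40 * c ≤ 12 * k := by nlinarith
  have C1 : N1 + O21 + O31 ≤ 1 + 12 * (1 / 100000) * k := by
    by_contra hcon
    push Not at hcon
    have q : LL β ((3 - N1 - O21 - O31) / 2) ((-1 + O12 + N2 - O32) / 2)
        ((-1 + O13 - O23 + N3) / 2) := (P0.sub P1).congr (by ring) (by ring) (by ring)
    refine hpack _ q ?_ (ov_sq c (1 / 100000) hc hc2 (by norm_num) (by norm_num) 0 _ ?_ ?_ ?_)
    · intro h0
      have := congrFun h0 0
      simp at this
      linarith
    · simp only [Matrix.cons_val_zero]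
      rw [abs_le]; constructor <;> linarith
    · intro j hj
      fin_cases j
      · exact absurd rfl hj
      · simp only [Fin.mk_one, Matrix.cons_val_one, Matrix.cons_val_zero]
        rw [abs_le]; constructor <;> linarith
      · simp only [Fin.reduceFinMk, Matrix.cons_val]
        rw [abs_le]; constructor <;> linarith
    · simp only [Matrix.cons_val_zero]
      linarith
  have C2 : N2 + O12 + O32 ≤ 1 + 12 * (1 / 100000) * k := by
    by_contra hcon
    push Not at hcon
    have q : LL β ((-1 + N1 + O21 - O31) / 2) ((3 - N2 - O12 - O32) / 2)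
        ((-1 + O23 - O13 + N3) / 2) := (P0.sub P2).congr (by ring) (by ring) (by ring)
    refine hpack _ q ?_ (ov_sq c (1 / 100000) hc hc2 (by norm_num) (by norm_num) 1 _ ?_ ?_ ?_)
    · intro h0
      have := congrFun h0 1
      simp at this
      linarith
    · simp only [Matrix.cons_val_one, Matrix.cons_val_zero]
      rw [abs_le]; constructor <;> linarith
    · intro j hj
      fin_cases j
      · simp only [Fin.zero_eta, Matrix.cons_val_zero]
        rw [abs_le]; constructor <;> linarith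
      · exact absurd rfl hj
      · simp only [Fin.reduceFinMk, Matrix.cons_val]
        rw [abs_le]; constructor <;> linarith
    · simp only [Matrix.cons_val_one, Matrix.cons_val_zero]
      linarith
  have C3 : N3 + O13 + O23 ≤ 1 + 12 * (1 / 100000) * k := by
    by_contra hcon
    push Not at hcon
    have q : LL β ((-1 + N1 + O31 - O21) / 2) ((-1 + N2 + O32 - O12) / 2)
        ((3 - N3 - O13 - O23) / 2) := (P0.sub P3).congr (by ring) (by ring) (by ring)
    refine hpack _ q ?_ (ov_sq c (1 / 100000) hc hc2 (by norm_num) (by norm_num) 2 _ ?_ ?_ ?_)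
    · intro h0
      have := congrFun h0 2
      simp at this
      linarith
    · simp only [Matrix.cons_val]
      rw [abs_le]; constructor <;> linarith
    · intro j hj
      fin_cases j
      · simp only [Fin.zero_eta, Matrix.cons_val_zero]
        rw [abs_le]; constructor <;> linarith
      · simp only [Fin.mk_one, Matrix.cons_val_one, Matrix.cons_val_zero]
        rw [abs_le]; constructor <;> linarith
      · exact absurd rfl hj
    · simp only [Matrix.cons_val]
      linarith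
  have L := lemL N1 N2 N3 O12 O13 O21 O23 O31 O32 k (1 / 100000) hk0 (by linarith) (by norm_num)
    (g1.trans (by norm_num)) (g2.trans (by norm_num)) (g3.trans (by norm_num))
    (g4.trans (by norm_num)) (g5.trans (by norm_num)) (g6.trans (by norm_num))
    (g7.trans (by norm_num)) (g8.trans (by norm_num)) (g9.trans (by norm_num))
    R1 R2 R3 C1 C2 C3 HS
  have hDD : D0 N1 N2 N3 O12 O13 O21 O23 O31 O32
      = (1 - k) ^ 3 * D0 n1 n2 n3 o12 o13 o21 o23 o31 o32 := by
    rw [hN1, hN2, hN3, hO12, hO13, hO21, hO23, hO31, hO32]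
    unfold D0
    ring
  rw [hDD, hD] at L
  have : (1 - k) ^ 3 * (2 * |dt (rf (fun _ => 1 / (1 - k)) β)|) = 2 * |dt β| := by
    rw [← hdt]; ring
  rw [this] at L
  linarith

/-- the determinant of a packing lattice of the truncated body -/
theorem final_lower {b : Fin 3 → V} {c k : ℝ} (hc : 0 < c) (hc1 : c ≤ 1 / 10 ^ 15)
    (hk : k = 4 * c / (1 + 9 * c)) (hb : dt b ≠ 0)
    (hpack : ∀ u ∈ lat b, u ≠ 0 → ¬ Ov (K c) u) :
    49 / 54 - (7 / 24 + 1 / 1000) * k ≤ |dt b| := by
  have hc9 : 0 < 1 + 9 * c := by linarith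
  have hk0 : 0 < k := by rw [hk]; positivity
  have hkc : k * (1 + 9 * c) = 4 * c := by rw [hk]; field_simp
  have hk4 : k ≤ 4 * c := by nlinarith
  have hk1 : k ≤ 4 / 10 ^ 15 := by
    calc k ≤ 4 * c := hk4
      _ ≤ 4 * (1 / 10 ^ 15) := by linarith
      _ = 4 / 10 ^ 15 := by norm_num
  have hc2 : c ≤ 1 / 100 := by refine hc1.trans ?_; norm_num
  have hk5 : k ≤ 1 / 10 ^ 7 := by
    refine hk1.trans ?_; norm_num
  have h1k : 0 < 1 - k := by linarith
  by_contra hcon
  push Not at hcon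
  have hb54 : |dt b| < 49 / 54 := by nlinarith
  set s : ℝ := 1 / (1 - k) with hs
  have hs0 : 0 < s := by positivity
  have hsk : s * (1 - k) = 1 := by rw [hs]; field_simp
  -- the scaled lattice is admissible
  have unsc : ∀ u ∈ lat (rf (fun _ => s) b), (fun i => (1 - k) * u i) ∈ lat b := by
    intro u hu
    rw [mem_lat_iff] at hu ⊢
    have := LL_rf (ε := fun _ => 1 - k) hu
    have e : rf (fun _ => 1 - k) (rf (fun _ => s) b) = b := by
      ext i j
      simp only [rf]
      rw [← mul_assoc, mul_comm (1 - k) s, hsk, one_mul]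
    rwa [e] at this
  have hadm : Adm (rf (fun _ => s) b) := by
    intro u hu hne h1
    by_contra hlt
    push Not at hlt
    refine hpack _ (unsc u hu) ?_ (ov_base c hc hc2 _ ?_ ?_)
    · intro h0
      apply hne
      ext i
      have := congrFun h0 i
      simpa [h1k.ne'] using this
    · intro i
      rw [← hk, abs_mul, abs_of_pos h1k]
      have := mul_lt_mul_of_pos_left (h1 i) h1k
      linarith
    · rw [← hk]
      simp only [abs_mul, abs_of_pos h1k]
      have := mul_lt_mul_of_pos_left hlt h1k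
      linarith
  have hdt : |dt (rf (fun _ => s) b)| = s ^ 3 * |dt b| := by
    rw [dt_rf, abs_mul, abs_of_pos (by positivity : 0 < s * s * s)]
    ring
  have hs1 : s ≤ 1 + 2 * k := by
    have : 1 ≤ (1 + 2 * k) * (1 - k) := by nlinarith
    rw [hs, div_le_iff₀ h1k]
    exact this
  have hs3 : s ^ 3 ≤ 1 + 7 * k := by
    have h1 : s ^ 3 ≤ (1 + 2 * k) ^ 3 := pow_le_pow_left₀ hs0.le hs1 3
    have h2 : (1 + 2 * k) ^ 3 ≤ 1 + 7 * k := by
      have : (1 + 2 * k) ^ 3 = 1 + 6 * k + (12 * k + 8 * k ^ 2) * k := by ring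
      rw [this]
      have : 12 * k + 8 * k ^ 2 ≤ 1 := by nlinarith
      nlinarith
    exact h1.trans h2
  have hupp : |dt (rf (fun _ => s) b)| ≤ 49 / 54 + 1 / 10 ^ 14 * 6 := by
    rw [hdt]
    have h1 : s ^ 3 * |dt b| ≤ (1 + 7 * k) * (49 / 54) :=
      mul_le_mul hs3 hb54.le (abs_nonneg _) (by positivity)
    have h2 : (1 + 7 * k) * (49 / 54) ≤ 49 / 54 + 1 / 10 ^ 14 * 6 := by
      norm_num at hk1 ⊢
      linarith
    exact h1.trans h2
  have hne : dt (rf (fun _ => s) b) ≠ 0 := by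
    rw [dt_rf]
    exact mul_ne_zero (by positivity) hb
  obtain ⟨ε, hε, hG⟩ := structure_thm hadm hne (hupp.trans (by norm_num))
  have hε2 : ∀ i, ε i * ε i = 1 := by
    intro i
    rcases hε i with h | h <;> rw [h] <;> norm_num
  have hcomm : rf ε (rf (fun _ => s) b) = rf (fun _ => s) (rf ε b) := by
    ext i j
    simp only [rf]
    ring
  rw [hcomm] at hG
  have hpack' : ∀ u ∈ lat (rf ε b), u ≠ 0 → ¬ Ov (K c) u := by
    intro u hu hne hov
    rw [mem_lat_iff, LL_rf_iff hε2] at hu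
    have hw : (fun i => ε i * u i) ∈ lat b := mem_lat_iff.mpr hu
    refine hpack _ hw ?_ (ov_refl c ε hε _ ?_)
    · intro h0
      apply hne
      ext i
      have h1 := congrFun h0 i
      have e0 : ε i ≠ 0 := fun h0 => by simpa [h0] using hε2 i
      exact (mul_eq_zero.mp h1).resolve_left e0
    · have : (fun i => ε i * (ε i * u i)) = u := by
        ext i
        rw [← mul_assoc, hε2, one_mul]
      rw [this]; exact hov
  have hup' : |dt (rf (fun _ => s) (rf ε b))| ≤ 49 / 54 + 1 / 10 ^ 14 * 6 := by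
    rw [← hcomm, abs_dt_rf hε2]; exact hupp
  have := final_good hc hc1 hk hpack' hG hup'
  rw [abs_dt_rf hε2] at this
  linarith

end Pool.Agent.H349R2.Tet
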