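import Pool.Agent.H349R2.Tet.Dens

/-!
# Task PACK: packings and affine images
-/

namespace Pool.Agent.H349R2.Tet

open MeasureTheory ENNReal

theorem dt_ne_zero_iff (b : Fin 3 → V) : dt b ≠ 0 ↔ LinearIndependent ℝ b := by
  unfold dt
  have h1 : LinearIndependent ℝ (Matrix.of b).row ↔ IsUnit (Matrix.of b) :=
    Matrix.linearIndependent_rows_iff_isUnit
  rw [Matrix.isUnit_iff_isUnit_det, isUnit_iff_ne_zero] at h1
  exact h1.symm

theorem pack_zero_mem (b : Fin 3 → V) : (0 : V) ∈ lat b := ⟨0, by simp⟩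

theorem pack_sub_mem {b : Fin 3 → V} {u v : V} (hu : u ∈ lat b) (hv : v ∈ lat b) :
    u - v ∈ lat b := by
  obtain ⟨z, rfl⟩ := hu
  obtain ⟨w, rfl⟩ := hv
  refine ⟨z - w, ?_⟩
  rw [← Finset.sum_sub_distrib]
  refine Finset.sum_congr rfl fun i _ => ?_
  rw [← sub_smul]
  simp

theorem pack_interior_tr (A : Set V) (u : V) : interior (tr A u) = tr (interior A) u := by
  have h1 : tr A u = (Homeomorph.addRight u) '' A := rfl
  rw [h1, ← Homeomorph.image_interior]
  rfl

theorem packs_iff (A : Set V) (b : Fin 3 → V) :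
    Packs A b ↔ dt b ≠ 0 ∧ ∀ u ∈ lat b, u ≠ 0 → ¬ Ov A u := by
  unfold Packs
  rw [dt_ne_zero_iff]
  refine and_congr_right fun _ => ⟨fun h u hu hu0 => ?_, fun h u hu v hv huv => ?_⟩
  · rintro ⟨x, hx, hxu⟩
    have h1 := h 0 (pack_zero_mem b) u hu (Ne.symm hu0)
    rw [pack_interior_tr, pack_interior_tr, Set.disjoint_left] at h1
    exact h1 (a := x) ⟨x, hx, by simp⟩ ⟨x - u, hxu, by simp⟩
  · rw [pack_interior_tr, pack_interior_tr, Set.disjoint_left]
    rintro y ⟨p, hp, rfl⟩ ⟨q, hq, hqv⟩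
    have hqv' : q + v = p + u := hqv
    have e1 : v - u = p - q := by
      have : v = p + u - q := by rw [← hqv']; abel
      rw [this]; abel
    refine h (v - u) (pack_sub_mem hv hu) (sub_ne_zero.2 (Ne.symm huv)) ⟨p, hp, ?_⟩
    rw [e1]
    simpa using hq

theorem pack_lat_image (L : V ≃ₗ[ℝ] V) (b : Fin 3 → V) (u : V) :
    L u ∈ lat (fun i => L (b i)) ↔ u ∈ lat b := by
  constructor
  · rintro ⟨z, hz⟩
    refine ⟨z, L.injective ?_⟩
    rw [hz, map_sum]
    exact Finset.sum_congr rfl fun i _ => by rw [map_smul]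
  · rintro ⟨z, rfl⟩
    refine ⟨z, ?_⟩
    rw [map_sum]
    exact Finset.sum_congr rfl fun i _ => by rw [map_smul]

theorem pack_interior_image (A : Set V) (L : V ≃ₗ[ℝ] V) (t : V) :
    interior ((fun x => L x + t) '' A) = (fun x => L x + t) '' interior A := by
  have h1 : ∀ S : Set V, (fun x => L x + t) '' S =
      (L.toContinuousLinearEquiv.toHomeomorph.trans (Homeomorph.addRight t)) '' S := fun S => rfl
  rw [h1, h1, Homeomorph.image_interior]

theorem pack_Ov_image (A : Set V) (L : V ≃ₗ[ℝ] V) (t u : V) :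
    Ov ((fun x => L x + t) '' A) (L u) ↔ Ov A u := by
  unfold Ov
  rw [pack_interior_image]
  constructor
  · rintro ⟨_, ⟨x, hx, rfl⟩, ⟨y, hy, hxy⟩⟩
    refine ⟨x, hx, ?_⟩
    have h1 : L y + t = L x + t - L u := hxy
    have h2 : L y = L (x - u) := by
      rw [map_sub]
      have : L y = L x + t - L u - t := by rw [← h1]; abel
      rw [this]; abel
    rw [← L.injective h2]
    exact hy
  · rintro ⟨x, hx, hxu⟩
    refine ⟨L x + t, ⟨x, hx, rfl⟩, ⟨x - u, hxu, ?_⟩⟩
    simp only [map_sub]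
    abel

theorem packs_image (A : Set V) (L : V ≃ₗ[ℝ] V) (t : V) (b : Fin 3 → V) :
    Packs ((fun x => L x + t) '' A) (fun i => L (b i)) ↔ Packs A b := by
  rw [packs_iff, packs_iff, dt_ne_zero_iff, dt_ne_zero_iff]
  have h1 : LinearIndependent ℝ (fun i => L (b i)) ↔ LinearIndependent ℝ b := by
    have := LinearMap.linearIndependent_iff (v := b) L.toLinearMap (LinearEquiv.ker L)
    exact this
  rw [h1]
  refine and_congr_right fun _ => ⟨fun h u hu hu0 hov => ?_, fun h u hu hu0 hov => ?_⟩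
  · refine h (L u) ((pack_lat_image L b u).2 hu) ?_ ((pack_Ov_image A L t u).2 hov)
    intro e
    exact hu0 (L.injective (by rw [e, map_zero]))
  · obtain ⟨v, rfl⟩ := L.surjective u
    refine h v ((pack_lat_image L b v).1 hu) ?_ ((pack_Ov_image A L t v).1 hov)
    rintro rfl
    exact hu0 (map_zero L)

theorem pack_dt_image (L : V ≃ₗ[ℝ] V) (b : Fin 3 → V) :
    dt (fun i => L (b i)) = LinearMap.det L.toLinearMap * dt b := by
  unfold dt
  have h1 : Matrix.of (fun i => L (b i)) =
      Matrix.of b * (LinearMap.toMatrix' L.toLinearMap).transpose := by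
    ext i j
    have h2 : L (b i) = (LinearMap.toMatrix' L.toLinearMap).mulVec (b i) := by
      rw [LinearMap.toMatrix'_mulVec]; rfl
    rw [Matrix.of_apply, h2]
    simp only [Matrix.mulVec, dotProduct, Matrix.mul_apply, Matrix.of_apply,
      Matrix.transpose_apply]
    exact Finset.sum_congr rfl fun k _ => mul_comm _ _
  rw [h1, Matrix.det_mul, Matrix.det_transpose, LinearMap.det_toMatrix', mul_comm]

theorem pack_volume_image (A : Set V) (L : V ≃ₗ[ℝ] V) (t : V) :
    volume ((fun x => L x + t) '' A) =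
      ENNReal.ofReal |LinearMap.det L.toLinearMap| * volume A := by
  have h1 : (fun x => L x + t) '' A = (fun x => x + t) '' (L.toLinearMap '' A) := by
    rw [← Set.image_comp]; rfl
  rw [h1, Set.image_add_right, measure_preimage_add_right, Measure.addHaar_image_linearMap]

theorem ratio_image (A : Set V) (L : V ≃ₗ[ℝ] V) (t : V) (b : Fin 3 → V) (hb : dt b ≠ 0) :
    volume ((fun x => L x + t) '' A) / ENNReal.ofReal |dt (fun i => L (b i))|
      = volume A / ENNReal.ofReal |dt b| := by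
  have hdet : LinearMap.det L.toLinearMap ≠ 0 := (LinearEquiv.isUnit_det' L).ne_zero
  rw [pack_volume_image, pack_dt_image, abs_mul, ENNReal.ofReal_mul (abs_nonneg _)]
  exact ENNReal.mul_div_mul_left _ _ (by
    rw [ne_eq, ENNReal.ofReal_eq_zero, not_le]; exact abs_pos.2 hdet) ENNReal.ofReal_ne_top

end Pool.Agent.H349R2.Tet
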