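import Pool.Agent.H349R2.Tet.Defs

/-! TLOW: the overlap criterion for the tetrahedron and Groemer's lattice. -/

namespace Pool.Agent.H349R2.Tet

open MeasureTheory

theorem lamT0 (x : V) : lam 0 x = (x 0 + x 1 + x 2 + 1 / 2) / 2 := by
  simp [lam, nv, Fin.sum_univ_three]

theorem lamT1 (x : V) : lam 1 x = (x 0 - x 1 - x 2 + 1 / 2) / 2 := by
  simp [lam, nv, Fin.sum_univ_three]; ring

theorem lamT2 (x : V) : lam 2 x = (-x 0 + x 1 - x 2 + 1 / 2) / 2 := by
  simp [lam, nv, Fin.sum_univ_three]; ring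

theorem lamT3 (x : V) : lam 3 x = (-x 0 - x 1 + x 2 + 1 / 2) / 2 := by
  simp [lam, nv, Fin.sum_univ_three]; ring

theorem lam_contT (i : Fin 4) : Continuous (lam i) := by
  unfold lam
  fun_prop

theorem interior_T : interior T = {x | ∀ i, 0 < lam i x} := by
  apply Set.Subset.antisymm
  · intro x hx i
    rw [mem_interior_iff_mem_nhds] at hx
    have ht : Filter.Tendsto (fun ε : ℝ => x - ε • nv i) (nhds 0) (nhds x) := by
      have hc : Continuous (fun ε : ℝ => x - ε • nv i) := by fun_prop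
      have := hc.tendsto 0
      simpa using this
    have h1 : ∀ᶠ ε : ℝ in nhdsWithin 0 (Set.Ioi 0), x - ε • nv i ∈ T :=
      (ht.eventually hx).filter_mono nhdsWithin_le_nhds
    obtain ⟨ε, h2, h3⟩ := (h1.and self_mem_nhdsWithin).exists
    have h4 : (0 : ℝ) < ε := h3
    have h5 := h2 i
    have h6 : lam i (x - ε • nv i) = lam i x - ε * (3 / 2) := by
      fin_cases i <;> simp [lam, nv, Fin.sum_univ_three] <;> ring
    rw [h6] at h5
    linarith
  · apply interior_maximal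
    · intro x hx i
      exact (hx i).le
    · have : {x : V | ∀ i, 0 < lam i x} = ⋂ i, {x | 0 < lam i x} := by
        ext x; simp
      rw [this]
      exact isOpen_iInter_of_finite fun i => isOpen_lt continuous_const (lam_contT i)

/-- the point with given barycentric coordinates -/
noncomputable def ptT (l0 l1 l2 l3 : ℝ) : V :=
  ![(l0 + l1 - l2 - l3) / 2, (l0 - l1 + l2 - l3) / 2, (l0 - l1 - l2 + l3) / 2]

theorem T_ov (u : V) : Ov T u ↔ (∀ i, |u i| < 1) ∧ |u 0| + |u 1| + |u 2| < 2 := by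
  unfold Ov
  rw [interior_T]
  constructor
  · rintro ⟨x, hx, hxu⟩
    have a0 := hx 0
    have a1 := hx 1
    have a2 := hx 2
    have a3 := hx 3
    have b0 := hxu 0
    have b1 := hxu 1
    have b2 := hxu 2
    have b3 := hxu 3
    rw [lamT0] at a0 b0
    rw [lamT1] at a1 b1
    rw [lamT2] at a2 b2
    rw [lamT3] at a3 b3
    simp only [Pi.sub_apply] at b0 b1 b2 b3
    have h0 : |u 0| < 1 := by rw [abs_lt]; constructor <;> linarith
    have h1 : |u 1| < 1 := by rw [abs_lt]; constructor <;> linarith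
    have h2 : |u 2| < 1 := by rw [abs_lt]; constructor <;> linarith
    refine ⟨?_, ?_⟩
    · intro i
      fin_cases i
      · exact h0
      · exact h1
      · exact h2
    · rcases abs_cases (u 0) with ⟨e0, _⟩ | ⟨e0, _⟩ <;> rcases abs_cases (u 1) with ⟨e1, _⟩ | ⟨e1, _⟩ <;>
        rcases abs_cases (u 2) with ⟨e2, _⟩ | ⟨e2, _⟩ <;> rw [e0, e1, e2] <;> linarith
  · rintro ⟨h, hs⟩
    have h0 := abs_lt.mp (h 0)
    have h1 := abs_lt.mp (h 1)
    have h2 := abs_lt.mp (h 2)
    have s1 : u 0 + u 1 + u 2 < 2 := by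
      linarith [le_abs_self (u 0), le_abs_self (u 1), le_abs_self (u 2)]
    have s2 : u 0 - u 1 - u 2 < 2 := by
      linarith [le_abs_self (u 0), neg_abs_le (u 1), neg_abs_le (u 2)]
    have s3 : -u 0 + u 1 - u 2 < 2 := by
      linarith [neg_abs_le (u 0), le_abs_self (u 1), neg_abs_le (u 2)]
    have s4 : -u 0 - u 1 + u 2 < 2 := by
      linarith [neg_abs_le (u 0), neg_abs_le (u 1), le_abs_self (u 2)]
    have s5 : -u 0 - u 1 - u 2 < 2 := by
      linarith [neg_abs_le (u 0), neg_abs_le (u 1), neg_abs_le (u 2)]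
    have s6 : -u 0 + u 1 + u 2 < 2 := by
      linarith [neg_abs_le (u 0), le_abs_self (u 1), le_abs_self (u 2)]
    have s7 : u 0 - u 1 + u 2 < 2 := by
      linarith [le_abs_self (u 0), neg_abs_le (u 1), le_abs_self (u 2)]
    have s8 : u 0 + u 1 - u 2 < 2 := by
      linarith [le_abs_self (u 0), le_abs_self (u 1), neg_abs_le (u 2)]
    set w0 := (u 0 + u 1 + u 2) / 2 with hw0
    set w1 := (u 0 - u 1 - u 2) / 2 with hw1
    set w2 := (-u 0 + u 1 - u 2) / 2 with hw2
    set w3 := (-u 0 - u 1 + u 2) / 2 with hw3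
    have hsum : max 0 w0 + max 0 w1 + max 0 w2 + max 0 w3 < 1 := by
      rcases max_cases 0 w0 with ⟨e0, _⟩ | ⟨e0, _⟩ <;> rcases max_cases 0 w1 with ⟨e1, _⟩ | ⟨e1, _⟩ <;>
        rcases max_cases 0 w2 with ⟨e2, _⟩ | ⟨e2, _⟩ <;> rcases max_cases 0 w3 with ⟨e3, _⟩ | ⟨e3, _⟩ <;>
        rw [e0, e1, e2, e3] <;> linarith
    set θ := (1 - (max 0 w0 + max 0 w1 + max 0 w2 + max 0 w3)) / 4 with hθ
    have hθ0 : 0 < θ := by rw [hθ]; linarith
    have m0 := le_max_left 0 w0
    have m1 := le_max_left 0 w1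
    have m2 := le_max_left 0 w2
    have m3 := le_max_left 0 w3
    have n0 := le_max_right 0 w0
    have n1 := le_max_right 0 w1
    have n2 := le_max_right 0 w2
    have n3 := le_max_right 0 w3
    refine ⟨ptT (max 0 w0 + θ) (max 0 w1 + θ) (max 0 w2 + θ) (max 0 w3 + θ), ?_, ?_⟩
    · intro i
      fin_cases i
      · show 0 < lam 0 _
        rw [lamT0]; simp only [ptT, Matrix.cons_val]; linarith
      · show 0 < lam 1 _
        rw [lamT1]; simp only [ptT, Matrix.cons_val]; linarith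
      · show 0 < lam 2 _
        rw [lamT2]; simp only [ptT, Matrix.cons_val]; linarith
      · show 0 < lam 3 _
        rw [lamT3]; simp only [ptT, Matrix.cons_val]; linarith
    · intro i
      fin_cases i
      · show 0 < lam 0 _
        rw [lamT0]; simp only [ptT, Pi.sub_apply, Matrix.cons_val]; linarith
      · show 0 < lam 1 _
        rw [lamT1]; simp only [ptT, Pi.sub_apply, Matrix.cons_val]; linarith
      · show 0 < lam 2 _
        rw [lamT2]; simp only [ptT, Pi.sub_apply, Matrix.cons_val]; linarith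
      · show 0 < lam 3 _
        rw [lamT3]; simp only [ptT, Pi.sub_apply, Matrix.cons_val]; linarith

/-- Groemer's basis -/
noncomputable def gB : Fin 3 → V :=
  ![![1, -1 / 6, -1 / 6], ![-1 / 6, 1, -1 / 6], ![-1 / 6, -1 / 6, 1]]

theorem groemer : ∃ b : Fin 3 → V, |dt b| = 49 / 54 ∧ ∀ u ∈ lat b, u ≠ 0 → ¬ Ov T u := by
  refine ⟨gB, ?_, ?_⟩
  · have : dt gB = 49 / 54 := by
      unfold dt gB
      rw [Matrix.det_fin_three]
      simp
      norm_num
    rw [this]; norm_num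
  · rintro u ⟨z, hz⟩ hne hov
    rw [T_ov] at hov
    obtain ⟨h, hs⟩ := hov
    have e0 : u 0 = (7 * (z 0 : ℝ) - (z 0 + z 1 + z 2)) / 6 := by
      rw [hz]; simp [gB, Fin.sum_univ_three]; ring
    have e1 : u 1 = (7 * (z 1 : ℝ) - (z 0 + z 1 + z 2)) / 6 := by
      rw [hz]; simp [gB, Fin.sum_univ_three]; ring
    have e2 : u 2 = (7 * (z 2 : ℝ) - (z 0 + z 1 + z 2)) / 6 := by
      rw [hz]; simp [gB, Fin.sum_univ_three]; ring
    have h0 := abs_lt.mp (h 0)
    have h1 := abs_lt.mp (h 1)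
    have h2 := abs_lt.mp (h 2)
    have s1 : u 0 + u 1 + u 2 < 2 := by
      linarith [le_abs_self (u 0), le_abs_self (u 1), le_abs_self (u 2)]
    have s2 : u 0 - u 1 - u 2 < 2 := by
      linarith [le_abs_self (u 0), neg_abs_le (u 1), neg_abs_le (u 2)]
    have s3 : -u 0 + u 1 - u 2 < 2 := by
      linarith [neg_abs_le (u 0), le_abs_self (u 1), neg_abs_le (u 2)]
    have s4 : -u 0 - u 1 + u 2 < 2 := by
      linarith [neg_abs_le (u 0), neg_abs_le (u 1), le_abs_self (u 2)]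
    have s5 : -u 0 - u 1 - u 2 < 2 := by
      linarith [neg_abs_le (u 0), neg_abs_le (u 1), neg_abs_le (u 2)]
    have s6 : -u 0 + u 1 + u 2 < 2 := by
      linarith [neg_abs_le (u 0), le_abs_self (u 1), le_abs_self (u 2)]
    have s7 : u 0 - u 1 + u 2 < 2 := by
      linarith [le_abs_self (u 0), neg_abs_le (u 1), le_abs_self (u 2)]
    have s8 : u 0 + u 1 - u 2 < 2 := by
      linarith [le_abs_self (u 0), le_abs_self (u 1), neg_abs_le (u 2)]
    rw [e0, e1, e2] at s1 s2 s3 s4 s5 s6 s7 s8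
    rw [e0] at h0
    rw [e1] at h1
    rw [e2] at h2
    have H0 : 7 * z 0 - (z 0 + z 1 + z 2) < 6 ∧ -6 < 7 * z 0 - (z 0 + z 1 + z 2) := by
      constructor
      · have : (7 * (z 0 : ℝ) - (z 0 + z 1 + z 2)) < 6 := by linarith
        exact_mod_cast this
      · have : -6 < (7 * (z 0 : ℝ) - (z 0 + z 1 + z 2)) := by linarith
        exact_mod_cast this
    have H1 : 7 * z 1 - (z 0 + z 1 + z 2) < 6 ∧ -6 < 7 * z 1 - (z 0 + z 1 + z 2) := by
      constructor
      · have : (7 * (z 1 : ℝ) - (z 0 + z 1 + z 2)) < 6 := by linarith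
        exact_mod_cast this
      · have : -6 < (7 * (z 1 : ℝ) - (z 0 + z 1 + z 2)) := by linarith
        exact_mod_cast this
    have H2 : 7 * z 2 - (z 0 + z 1 + z 2) < 6 ∧ -6 < 7 * z 2 - (z 0 + z 1 + z 2) := by
      constructor
      · have : (7 * (z 2 : ℝ) - (z 0 + z 1 + z 2)) < 6 := by linarith
        exact_mod_cast this
      · have : -6 < (7 * (z 2 : ℝ) - (z 0 + z 1 + z 2)) := by linarith
        exact_mod_cast this
    have H3 : 4 * (z 0 + z 1 + z 2) < 12 := by
      have : (4 * ((z 0 : ℝ) + z 1 + z 2)) < 12 := by linarith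
      exact_mod_cast this
    have H4 : -12 < 4 * (z 0 + z 1 + z 2) := by
      have : -12 < (4 * ((z 0 : ℝ) + z 1 + z 2)) := by linarith
      exact_mod_cast this
    have H5 : 7 * z 0 + 7 * z 1 - 7 * z 2 - (z 0 + z 1 + z 2) < 12 := by
      have : 7 * (z 0 : ℝ) + 7 * z 1 - 7 * z 2 - (z 0 + z 1 + z 2) < 12 := by linarith
      exact_mod_cast this
    have H6 : 7 * z 0 - 7 * z 1 + 7 * z 2 - (z 0 + z 1 + z 2) < 12 := by
      have : 7 * (z 0 : ℝ) - 7 * z 1 + 7 * z 2 - (z 0 + z 1 + z 2) < 12 := by linarith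
      exact_mod_cast this
    have H7 : - 7 * z 0 + 7 * z 1 + 7 * z 2 - (z 0 + z 1 + z 2) < 12 := by
      have : - 7 * (z 0 : ℝ) + 7 * z 1 + 7 * z 2 - (z 0 + z 1 + z 2) < 12 := by linarith
      exact_mod_cast this
    have H8 : -(7 * z 0 + 7 * z 1 - 7 * z 2 - (z 0 + z 1 + z 2)) < 12 := by
      have : -(7 * (z 0 : ℝ) + 7 * z 1 - 7 * z 2 - (z 0 + z 1 + z 2)) < 12 := by linarith
      exact_mod_cast this
    have H9 : -(7 * z 0 - 7 * z 1 + 7 * z 2 - (z 0 + z 1 + z 2)) < 12 := by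
      have : -(7 * (z 0 : ℝ) - 7 * z 1 + 7 * z 2 - (z 0 + z 1 + z 2)) < 12 := by linarith
      exact_mod_cast this
    have H10 : -(- 7 * z 0 + 7 * z 1 + 7 * z 2 - (z 0 + z 1 + z 2)) < 12 := by
      have : -(- 7 * (z 0 : ℝ) + 7 * z 1 + 7 * z 2 - (z 0 + z 1 + z 2)) < 12 := by linarith
      exact_mod_cast this
    have Z0 : z 0 = 0 := by omega
    have Z1 : z 1 = 0 := by omega
    have Z2 : z 2 = 0 := by omega
    apply hne
    rw [hz]
    simp [Fin.sum_univ_three, Z0, Z1, Z2]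

end Pool.Agent.H349R2.Tet
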