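import Pool.Agent.H349R2.Tet.Defs

/-! The volume of the tetrahedron and an upper bound for the volume of the truncated body. -/

namespace Pool.Agent.H349R2.Tet

open MeasureTheory

/-! ### simplices -/

section simplex

variable (r : ℝ → ℝ → Prop)

theorem vol_lin (a : ℝ) :
    ∫⁻ s in Set.Ici (0 : ℝ), ENNReal.ofReal (a - s) = ENNReal.ofReal ((max 0 a) ^ 2 / 2) := by
  rcases le_total a 0 with h | h
  · rw [max_eq_left h]
    have h1 : ∫⁻ s in Set.Ici (0 : ℝ), ENNReal.ofReal (a - s) = ∫⁻ s in Set.Ici (0 : ℝ), 0 := by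
      refine setLIntegral_congr_fun measurableSet_Ici fun s hs => ?_
      have hs' : (0 : ℝ) ≤ s := hs
      exact ENNReal.ofReal_of_nonpos (by linarith)
    rw [h1]
    simp
  · rw [max_eq_right h]
    have hu : Set.Ici (0 : ℝ) = Set.Icc 0 a ∪ Set.Ioi a := (Set.Icc_union_Ioi_eq_Ici h).symm
    have hd : Disjoint (Set.Icc (0 : ℝ) a) (Set.Ioi a) := by
      rw [Set.disjoint_left]
      intro s hs hs'
      exact absurd hs' (not_lt.2 hs.2)
    rw [hu, lintegral_union measurableSet_Ioi hd]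
    have h1 : ∫⁻ s in Set.Ioi a, ENNReal.ofReal (a - s) = 0 := by
      rw [← lintegral_zero (μ := volume.restrict (Set.Ioi a))]
      refine setLIntegral_congr_fun measurableSet_Ioi fun s hs => ?_
      have hs' : a < s := hs
      exact ENNReal.ofReal_of_nonpos (by linarith)
    have hi : IntegrableOn (fun s : ℝ => a - s) (Set.Icc 0 a) :=
      (by fun_prop : Continuous fun s : ℝ => a - s).integrableOn_Icc
    rw [h1, add_zero, ← ofReal_integral_eq_lintegral_ofReal hi]
    · rw [integral_Icc_eq_integral_Ioc, ← intervalIntegral.integral_of_le h]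
      congr 1
      have d : ∀ s ∈ Set.uIcc 0 a, HasDerivAt (fun s : ℝ => a * s - s ^ 2 / 2) (a - s) s := by
        intro s _
        refine (((hasDerivAt_id s).const_mul a).sub
          (((hasDerivAt_id s).pow 2).div_const 2)).congr_deriv ?_
        simp
      rw [intervalIntegral.integral_eq_sub_of_hasDerivAt d
        ((by fun_prop : Continuous fun s : ℝ => a - s).intervalIntegrable _ _)]
      ring
    · refine (ae_restrict_iff' measurableSet_Icc).2 (Filter.Eventually.of_forall fun s hs => ?_)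
      simp only [Pi.zero_apply]
      linarith [hs.2]

theorem vol_quad (a : ℝ) (ha : 0 ≤ a) :
    ∫⁻ s in Set.Ici (0 : ℝ), ENNReal.ofReal ((max 0 (a - s)) ^ 2 / 2) =
      ENNReal.ofReal (a ^ 3 / 6) := by
  have hu : Set.Ici (0 : ℝ) = Set.Icc 0 a ∪ Set.Ioi a := (Set.Icc_union_Ioi_eq_Ici ha).symm
  have hd : Disjoint (Set.Icc (0 : ℝ) a) (Set.Ioi a) := by
    rw [Set.disjoint_left]
    intro s hs hs'
    exact absurd hs' (not_lt.2 hs.2)
  rw [hu, lintegral_union measurableSet_Ioi hd]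
  have h1 : ∫⁻ s in Set.Ioi a, ENNReal.ofReal ((max 0 (a - s)) ^ 2 / 2) = 0 := by
    rw [← lintegral_zero (μ := volume.restrict (Set.Ioi a))]
    refine setLIntegral_congr_fun measurableSet_Ioi fun s hs => ?_
    have hs' : a < s := hs
    rw [max_eq_left (by linarith)]
    simp
  have h2 : ∫⁻ s in Set.Icc 0 a, ENNReal.ofReal ((max 0 (a - s)) ^ 2 / 2) =
      ∫⁻ s in Set.Icc 0 a, ENNReal.ofReal ((a - s) ^ 2 / 2) := by
    refine setLIntegral_congr_fun measurableSet_Icc fun s hs => ?_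
    rw [max_eq_right (by linarith [hs.2])]
  have hi : IntegrableOn (fun s : ℝ => (a - s) ^ 2 / 2) (Set.Icc 0 a) :=
    (by fun_prop : Continuous fun s : ℝ => (a - s) ^ 2 / 2).integrableOn_Icc
  rw [h1, h2, add_zero, ← ofReal_integral_eq_lintegral_ofReal hi]
  · rw [integral_Icc_eq_integral_Ioc, ← intervalIntegral.integral_of_le ha]
    congr 1
    have d : ∀ s ∈ Set.uIcc 0 a, HasDerivAt (fun s : ℝ => -((a - s) ^ 3 / 6))
        ((a - s) ^ 2 / 2) s := by
      intro s _
      refine ((((hasDerivAt_id s).const_sub a).pow 3).div_const 6).neg.congr_deriv ?_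
      simp
      ring
    rw [intervalIntegral.integral_eq_sub_of_hasDerivAt d
      ((by fun_prop : Continuous fun s : ℝ => (a - s) ^ 2 / 2).intervalIntegrable _ _)]
    ring
  · refine (ae_restrict_iff' measurableSet_Icc).2 (Filter.Eventually.of_forall fun s _ => ?_)
    simp only [Pi.zero_apply]
    positivity

/-- planar simplex -/
theorem vol_S2 (h1 : ∀ b, volume {t : ℝ | 0 ≤ t ∧ r t b} = ENNReal.ofReal b)
    (h2 : MeasurableSet {p : ℝ × ℝ | r p.1 p.2}) (a : ℝ) :
    volume {z : ℝ × ℝ | 0 ≤ z.1 ∧ 0 ≤ z.2 ∧ r z.2 (a - z.1)} =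
      ENNReal.ofReal ((max 0 a) ^ 2 / 2) := by
  have hm : MeasurableSet {z : ℝ × ℝ | 0 ≤ z.1 ∧ 0 ≤ z.2 ∧ r z.2 (a - z.1)} := by
    refine (measurableSet_le measurable_const measurable_fst).inter
      ((measurableSet_le measurable_const measurable_snd).inter ?_)
    exact (measurable_snd.prodMk (measurable_fst.const_sub a)) h2
  rw [Measure.volume_eq_prod, Measure.prod_apply hm, ← vol_lin,
    ← lintegral_indicator measurableSet_Ici]
  refine lintegral_congr fun s => ?_
  by_cases hs : 0 ≤ s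
  · rw [Set.indicator_of_mem (show s ∈ Set.Ici (0 : ℝ) from hs), ← h1 (a - s)]
    congr 1
    ext t
    simp [hs]
  · rw [Set.indicator_of_notMem (show s ∉ Set.Ici (0 : ℝ) from hs)]
    convert measure_empty (μ := (volume : Measure ℝ))
    ext t
    simp [hs]

/-- spatial simplex -/
theorem vol_S3 (h1 : ∀ b, volume {t : ℝ | 0 ≤ t ∧ r t b} = ENNReal.ofReal b)
    (h2 : MeasurableSet {p : ℝ × ℝ | r p.1 p.2}) (a : ℝ) (ha : 0 ≤ a) :
    volume {y : V | 0 ≤ y 0 ∧ 0 ≤ y 1 ∧ 0 ≤ y 2 ∧ r (y 2) (a - y 0 - y 1)} =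
      ENNReal.ofReal (a ^ 3 / 6) := by
  set S : Set (ℝ × (Fin 2 → ℝ)) := {p | 0 ≤ p.1 ∧ 0 ≤ p.2 0 ∧ 0 ≤ p.2 1 ∧
    r (p.2 1) (a - p.1 - p.2 0)} with hS
  have m1 : Measurable fun p : ℝ × (Fin 2 → ℝ) => p.2 0 := by fun_prop
  have m2 : Measurable fun p : ℝ × (Fin 2 → ℝ) => p.2 1 := by fun_prop
  have m3 : Measurable fun p : ℝ × (Fin 2 → ℝ) => a - p.1 - p.2 0 := by fun_prop
  have hSm : MeasurableSet S := by
    refine (measurableSet_le measurable_const measurable_fst).inter
      ((measurableSet_le measurable_const m1).inter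
      ((measurableSet_le measurable_const m2).inter ?_))
    exact (m2.prodMk m3) h2
  have e1 : {y : V | 0 ≤ y 0 ∧ 0 ≤ y 1 ∧ 0 ≤ y 2 ∧ r (y 2) (a - y 0 - y 1)} =
      (MeasurableEquiv.piFinSuccAbove (fun _ : Fin 3 => ℝ) 0) ⁻¹' S := by
    ext y
    simp only [hS, Set.mem_preimage, Set.mem_ofPred_eq]
    rfl
  rw [e1, (volume_preserving_piFinSuccAbove (fun _ : Fin 3 => ℝ) 0).measure_preimage
    hSm.nullMeasurableSet, Measure.volume_eq_prod, Measure.prod_apply hSm, ← vol_quad a ha,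
    ← lintegral_indicator measurableSet_Ici]
  refine lintegral_congr fun s => ?_
  have hm2 : ∀ b : ℝ, MeasurableSet {z : ℝ × ℝ | 0 ≤ z.1 ∧ 0 ≤ z.2 ∧ r z.2 (b - z.1)} := by
    intro b
    refine (measurableSet_le measurable_const measurable_fst).inter
      ((measurableSet_le measurable_const measurable_snd).inter ?_)
    exact (measurable_snd.prodMk (measurable_fst.const_sub b)) h2
  by_cases hs : 0 ≤ s
  · rw [Set.indicator_of_mem (show s ∈ Set.Ici (0 : ℝ) from hs), ← vol_S2 r h1 h2 (a - s),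
      ← (volume_preserving_finTwoArrow ℝ).measure_preimage (hm2 (a - s)).nullMeasurableSet]
    congr 1
    ext t
    simp only [hS, Set.mem_preimage, Set.mem_ofPred_eq, hs, true_and]
    rfl
  · rw [Set.indicator_of_notMem (show s ∉ Set.Ici (0 : ℝ) from hs)]
    convert measure_empty (μ := (volume : Measure (Fin 2 → ℝ)))
    ext t
    simp [hs, hS]

end simplex

theorem vol_le (a : ℝ) (ha : 0 ≤ a) :
    volume {y : V | 0 ≤ y 0 ∧ 0 ≤ y 1 ∧ 0 ≤ y 2 ∧ y 0 + y 1 + y 2 ≤ a} =
      ENNReal.ofReal (a ^ 3 / 6) := by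
  rw [← vol_S3 (fun x y => x ≤ y) ?_ ?_ a ha]
  · congr 1
    ext y
    simp only [Set.mem_ofPred_eq]
    constructor
    · rintro ⟨h1, h2, h3, h4⟩
      exact ⟨h1, h2, h3, by linarith⟩
    · rintro ⟨h1, h2, h3, h4⟩
      exact ⟨h1, h2, h3, by linarith⟩
  · intro b
    have : {t : ℝ | 0 ≤ t ∧ t ≤ b} = Set.Icc 0 b := rfl
    rw [this, Real.volume_Icc, sub_zero]
  · exact measurableSet_le measurable_fst measurable_snd

theorem vol_lt (a : ℝ) (ha : 0 ≤ a) :
    volume {y : V | 0 ≤ y 0 ∧ 0 ≤ y 1 ∧ 0 ≤ y 2 ∧ y 0 + y 1 + y 2 < a} =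
      ENNReal.ofReal (a ^ 3 / 6) := by
  rw [← vol_S3 (fun x y => x < y) ?_ ?_ a ha]
  · congr 1
    ext y
    simp only [Set.mem_ofPred_eq]
    constructor
    · rintro ⟨h1, h2, h3, h4⟩
      exact ⟨h1, h2, h3, by linarith⟩
    · rintro ⟨h1, h2, h3, h4⟩
      exact ⟨h1, h2, h3, by linarith⟩
  · intro b
    have : {t : ℝ | 0 ≤ t ∧ t < b} = Set.Ico 0 b := rfl
    rw [this, Real.volume_Ico, sub_zero]
  · exact measurableSet_lt measurable_fst measurable_snd

/-- affine change of variables -/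
theorem vol_aff (A : Matrix (Fin 3) (Fin 3) ℝ) (hA : A.det ≠ 0) (b : V) (S : Set V) :
    volume ((fun x : V => A.mulVec x + b) ⁻¹' S) = ENNReal.ofReal |A.det⁻¹| * volume S := by
  have h1 : (fun x : V => A.mulVec x + b) ⁻¹' S =
      (Matrix.toLin' A) ⁻¹' ((fun x : V => x + b) ⁻¹' S) := rfl
  have h2 : LinearMap.det (Matrix.toLin' A) ≠ 0 := by rwa [LinearMap.det_toLin']
  rw [h1, Measure.addHaar_preimage_linearMap volume h2, LinearMap.det_toLin',
    measure_preimage_add_right]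

/-! ### the corners -/

theorem vol_lam_sum (i : Fin 4) (x : V) :
    lam i x + (lam (i.succAbove 0) x + lam (i.succAbove 1) x + lam (i.succAbove 2) x) = 1 := by
  fin_cases i <;> simp [lam, nv, Fin.sum_univ_three, Fin.succAbove] <;> ring

/-- the matrix of the coordinates `lam j`, `j ≠ i`, minus a multiple of `lam i` -/
noncomputable def cornerA (c : ℝ) (i : Fin 4) : Matrix (Fin 3) (Fin 3) ℝ :=
  Matrix.of fun k l => nv (i.succAbove k) l / 2 - 3 * c * nv i l / 2

theorem cornerA_det (c : ℝ) (hc : 0 ≤ c) (i : Fin 4) :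
    |((cornerA c i).det)⁻¹| = 2 / (1 + 9 * c) ∧ (cornerA c i).det ≠ 0 := by
  have hp : 0 < 1 + 9 * c := by linarith
  have h : (cornerA c i).det = (1 + 9 * c) / 2 ∨ (cornerA c i).det = -((1 + 9 * c) / 2) := by
    rw [Matrix.det_fin_three]
    fin_cases i <;> simp [cornerA, nv, Fin.succAbove] <;> ring_nf <;> simp
  rcases h with h | h
  · rw [h]
    constructor
    · rw [inv_div, abs_of_pos (by positivity)]
    · positivity
  · rw [h]
    constructor
    · rw [inv_neg, abs_neg, inv_div, abs_of_pos (by positivity)]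
    · have : 0 < (1 + 9 * c) / 2 := by positivity
      exact (neg_neg_of_pos this).ne

/-- the constant vector -/
noncomputable def cornerB (c : ℝ) : V := fun _ => 1 / 4 + 5 * c / 4

theorem cornerA_apply (c : ℝ) (i : Fin 4) (x : V) (k : Fin 3) :
    ((cornerA c i).mulVec x + cornerB c) k =
      lam (i.succAbove k) x - c * (3 * lam i x - 2) := by
  simp only [Pi.add_apply, Matrix.mulVec, dotProduct, cornerA, Matrix.of_apply, lam,
    Fin.sum_univ_three, cornerB]
  ring

/-- the open corner simplex -/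
theorem vol_corner (c : ℝ) (hc : 0 ≤ c) (i : Fin 4) :
    volume {x : V | (∀ k : Fin 3, c * (3 * lam i x - 2) ≤ lam (i.succAbove k) x) ∧
      2 / 3 < lam i x} = ENNReal.ofReal (1 / (81 * (1 + 9 * c))) := by
  obtain ⟨h1, h2⟩ := cornerA_det c hc i
  have hp : 0 < 1 + 9 * c := by linarith
  have h3 := vol_aff (cornerA c i) h2 (cornerB c)
    {y : V | 0 ≤ y 0 ∧ 0 ≤ y 1 ∧ 0 ≤ y 2 ∧ y 0 + y 1 + y 2 < 1 / 3}
  rw [vol_lt (1 / 3) (by norm_num), h1, ← ENNReal.ofReal_mul (by positivity)] at h3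
  have h4 : 2 / (1 + 9 * c) * ((1 / 3 : ℝ) ^ 3 / 6) = 1 / (81 * (1 + 9 * c)) := by
    field_simp
    norm_num
  rw [h4] at h3
  rw [← h3]
  congr 1
  ext x
  have hs := vol_lam_sum i x
  simp only [Set.mem_preimage, Set.mem_ofPred_eq, cornerA_apply]
  constructor
  · rintro ⟨h5, h6⟩
    refine ⟨by linarith [h5 0], by linarith [h5 1], by linarith [h5 2], ?_⟩
    nlinarith
  · rintro ⟨h5, h6, h7, h8⟩
    constructor
    · intro k
      fin_cases k
      · simpa using h5
      · simpa using h6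
      · simpa using h7
    · nlinarith

theorem lam_cont (i : Fin 4) : Continuous (lam i) := by
  unfold lam
  fun_prop

theorem T_meas : MeasurableSet T := by
  have : T = ⋂ i, {x | 0 ≤ lam i x} := by
    ext x; simp [T]
  rw [this]
  exact MeasurableSet.iInter fun i => measurableSet_le measurable_const (lam_cont i).measurable

/-- volume of the tetrahedron -/
theorem vol_T' : volume T = ENNReal.ofReal (1 / 3) := by
  obtain ⟨h1, h2⟩ := cornerA_det 0 le_rfl 0
  have h3 := vol_aff (cornerA 0 0) h2 (cornerB 0)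
    {y : V | 0 ≤ y 0 ∧ 0 ≤ y 1 ∧ 0 ≤ y 2 ∧ y 0 + y 1 + y 2 ≤ 1}
  rw [vol_le 1 (by norm_num), h1, ← ENNReal.ofReal_mul (by positivity)] at h3
  have h4 : 2 / (1 + 9 * (0 : ℝ)) * ((1 : ℝ) ^ 3 / 6) = 1 / 3 := by norm_num
  rw [h4] at h3
  rw [← h3]
  congr 1
  ext x
  have hs := vol_lam_sum 0 x
  have e0 : (0 : Fin 4).succAbove 0 = 1 := rfl
  have e1 : (0 : Fin 4).succAbove 1 = 2 := rfl
  have e2 : (0 : Fin 4).succAbove 2 = 3 := rfl
  simp only [Set.mem_preimage, Set.mem_ofPred_eq, cornerA_apply, T]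
  rw [e0, e1, e2] at hs ⊢
  constructor
  · intro h
    refine ⟨by linarith [h 1], by linarith [h 2], by linarith [h 3], ?_⟩
    linarith [h 0]
  · rintro ⟨h5, h6, h7, h8⟩ i
    fin_cases i
    · change 0 ≤ lam 0 x
      linarith
    · change 0 ≤ lam 1 x
      linarith
    · change 0 ≤ lam 2 x
      linarith
    · change 0 ≤ lam 3 x
      linarith

theorem vol_T : (volume T).toReal = 1 / 3 := by
  rw [vol_T', ENNReal.toReal_ofReal (by norm_num)]

/-- open corner of the tetrahedron -/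
def corner (i : Fin 4) : Set V := {x | (∀ k : Fin 3, 0 ≤ lam (i.succAbove k) x) ∧ 2 / 3 < lam i x}

theorem vol_corner0 (i : Fin 4) : volume (corner i) = ENNReal.ofReal (1 / 81) := by
  have h := vol_corner 0 le_rfl i
  have e : {x : V | (∀ k : Fin 3, 0 * (3 * lam i x - 2) ≤ lam (i.succAbove k) x) ∧
      2 / 3 < lam i x} = corner i := by
    ext x; simp [corner]
  rw [e] at h
  rw [h]
  norm_num

theorem corner_meas (i : Fin 4) : MeasurableSet (corner i) := by
  have : corner i = (⋂ k : Fin 3, {x | 0 ≤ lam (i.succAbove k) x}) ∩ {x | 2 / 3 < lam i x} := by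
    ext x; simp [corner]
  rw [this]
  exact (MeasurableSet.iInter fun k =>
    measurableSet_le measurable_const (lam_cont _).measurable).inter
    (measurableSet_lt measurable_const (lam_cont i).measurable)

theorem corner_sub (i : Fin 4) : corner i ⊆ T := by
  rintro x ⟨h1, h2⟩ j
  rcases eq_or_ne j i with h | h
  · subst h; linarith
  · obtain ⟨k, rfl⟩ := Fin.exists_succAbove_eq h
    exact h1 k

theorem corner_disj : Pairwise (fun i j => Disjoint (corner i) (corner j)) := by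
  intro i j hij
  rw [Set.disjoint_left]
  rintro x hx hx'
  have h1 := hx.2
  have h2 := hx'.2
  have hs := vol_lam_sum i x
  have h0 := hx.1
  obtain ⟨k, hk⟩ := Fin.exists_succAbove_eq (Ne.symm hij)
  rw [← hk] at h2
  have a0 := h0 0
  have a1 := h0 1
  have a2 := h0 2
  fin_cases k
  · have : 2 / 3 < lam (i.succAbove 0) x := h2
    linarith
  · have : 2 / 3 < lam (i.succAbove 1) x := h2
    linarith
  · have : 2 / 3 < lam (i.succAbove 2) x := h2
    linarith

theorem vol_K (c : ℝ) (hc : 0 < c) (hc1 : c ≤ 1 / 100) :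
    (volume (K c)).toReal ≤ (1 / 3) * (1 - (4 * c / 3) / (1 + 9 * c)) := by
  have hp : 0 < 1 + 9 * c := by linarith
  set U : Set V := ⋃ i, corner i with hU
  have hUm : MeasurableSet U := MeasurableSet.iUnion corner_meas
  have hUs : U ⊆ T := Set.iUnion_subset corner_sub
  have hUv : volume U = ENNReal.ofReal (4 / 81) := by
    rw [hU, measure_iUnion corner_disj corner_meas, tsum_fintype,
      Finset.sum_congr rfl fun i _ => vol_corner0 i, Finset.sum_const, Finset.card_univ,
      Fintype.card_fin, nsmul_eq_mul]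
    rw [show ((4 : ℕ) : ENNReal) = ENNReal.ofReal 4 by norm_num,
      ← ENNReal.ofReal_mul (by norm_num)]
    norm_num
  have hTU : volume (T \ U) = ENNReal.ofReal (1 / 3 - 4 / 81) := by
    rw [measure_sdiff hUs hUm.nullMeasurableSet (by rw [hUv]; exact ENNReal.ofReal_ne_top),
      vol_T', hUv, ← ENNReal.ofReal_sub _ (by norm_num)]
  set W : Fin 4 → Set V := fun i =>
    {x : V | (∀ k : Fin 3, c * (3 * lam i x - 2) ≤ lam (i.succAbove k) x) ∧ 2 / 3 < lam i x}
    with hW
  have hsub : K c ⊆ (T \ U) ∪ ⋃ i, W i := by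
    rintro x ⟨h1, h2⟩
    by_cases h : ∃ i, 2 / 3 < lam i x
    · obtain ⟨i, hi⟩ := h
      right
      rw [Set.mem_iUnion]
      exact ⟨i, fun k => h2 i _ (Fin.succAbove_ne i k).symm, hi⟩
    · left
      refine ⟨h1, ?_⟩
      rw [hU, Set.mem_iUnion]
      rintro ⟨i, hi⟩
      exact h ⟨i, hi.2⟩
  have hWv : volume (⋃ i, W i) ≤ ENNReal.ofReal (4 / (81 * (1 + 9 * c))) := by
    refine (measure_iUnion_le W).trans ?_
    rw [tsum_fintype, Finset.sum_congr rfl fun i _ => vol_corner c hc.le i, Finset.sum_const,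
      Finset.card_univ, Fintype.card_fin, nsmul_eq_mul]
    rw [show ((4 : ℕ) : ENNReal) = ENNReal.ofReal 4 by norm_num,
      ← ENNReal.ofReal_mul (by norm_num)]
    apply ENNReal.ofReal_le_ofReal
    apply le_of_eq
    ring
  have hK : volume (K c) ≤ ENNReal.ofReal (1 / 3 - 4 / 81 + 4 / (81 * (1 + 9 * c))) := by
    refine (measure_mono hsub).trans ((measure_union_le _ _).trans ?_)
    rw [hTU, ENNReal.ofReal_add (by norm_num) (by positivity)]
    gcongr
  have h5 : (1 / 3 : ℝ) - 4 / 81 + 4 / (81 * (1 + 9 * c)) =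
      (1 / 3) * (1 - (4 * c / 3) / (1 + 9 * c)) := by
    field_simp
    ring
  rw [h5] at hK
  have h6 : 0 ≤ (1 / 3) * (1 - (4 * c / 3) / (1 + 9 * c)) := by
    rw [← h5]
    have : 0 ≤ 4 / (81 * (1 + 9 * c)) := by positivity
    linarith
  have h7 := (ENNReal.toReal_le_toReal (ne_top_of_le_ne_top ENNReal.ofReal_ne_top hK)
    ENNReal.ofReal_ne_top).2 hK
  rwa [ENNReal.toReal_ofReal h6] at h7

end Pool.Agent.H349R2.Tet
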