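import Pool.Agent.H349R2.Tet.Final1
import Pool.Agent.H349R2.Tet.Vol
import Pool.Agent.H349R2.Tet.TLow
import Pool.Agent.H349R2.Tet.Dens1
import Pool.Agent.H349R2.Tet.Pack
import Pool.Agent.H349R2.Tet.Aff

/-!
# The lattice packing densities of the tetrahedron and of the truncated body
-/

namespace Pool.Agent.H349R2.Tet

open MeasureTheory ENNReal

theorem T_compact : IsCompact T := by
  rw [T_eq_hull]
  exact Set.Finite.isCompact_convexHull ℝ (Set.finite_range _)

theorem vol_lt_top {A : Set V} (hA : IsCompact A) : volume A ≠ ∞ := hA.measure_lt_top.ne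

theorem vol_T_ofReal : volume T = ENNReal.ofReal (1 / 3) := by
  rw [← vol_T, ENNReal.ofReal_toReal (vol_lt_top T_compact)]

/-- an upper bound for `deltaL` from a lower bound for the determinants -/
theorem deltaL_le {A : Set V} (hA : IsCompact A) {v d : ℝ} (hv : 0 ≤ v)
    (hvol : (volume A).toReal ≤ v) (hd : 0 < d)
    (h : ∀ b : Fin 3 → V, dt b ≠ 0 → (∀ u ∈ lat b, u ≠ 0 → ¬ Ov A u) → d ≤ |dt b|) :
    deltaL A ≤ ENNReal.ofReal (v / d) := by
  unfold deltaL
  refine iSup₂_le fun b hb => ?_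
  obtain ⟨h1, h2⟩ := (packs_iff A b).mp hb
  rw [dens_eq b hb.1 A hA]
  have hda := h b h1 h2
  have hpos : 0 < |dt b| := abs_pos.mpr h1
  rw [← ENNReal.ofReal_toReal (vol_lt_top hA), ← ENNReal.ofReal_div_of_pos hpos]
  apply ENNReal.ofReal_le_ofReal
  exact div_le_div₀ hv hvol hd hda

theorem adm_of_T {b : Fin 3 → V} (h : ∀ u ∈ lat b, u ≠ 0 → ¬ Ov T u) : Adm b := by
  intro u hu hne h1
  by_contra hlt
  push Not at hlt
  exact h u hu hne ((T_ov u).mpr ⟨h1, hlt⟩)

theorem deltaL_T : deltaL T = 18 / 49 := by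
  apply le_antisymm
  · have := deltaL_le (A := T) (v := 1 / 3) (d := 49 / 54) T_compact (by norm_num)
      (by rw [vol_T]) (by norm_num) (fun b hb h => hoylman (adm_of_T h) hb)
    refine this.trans (le_of_eq ?_)
    have e : (1 / 3 : ℝ) / (49 / 54) = 18 / 49 := by norm_num
    rw [e, ENNReal.ofReal_div_of_pos (by norm_num)]
    norm_num
  · obtain ⟨b, hb, hp⟩ := groemer
    have hb0 : dt b ≠ 0 := by
      intro h0
      rw [h0, abs_zero] at hb
      norm_num at hb
    have hP : Packs T b := (packs_iff T b).mpr ⟨hb0, hp⟩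
    have : dens T b ≤ deltaL T := le_iSup₂ (f := fun b (_ : Packs T b) => dens T b) b hP
    refine le_trans (le_of_eq ?_) this
    rw [dens_eq b hP.1 T T_compact, vol_T_ofReal, hb, ← ENNReal.ofReal_div_of_pos (by norm_num)]
    have e : (1 / 3 : ℝ) / (49 / 54) = 18 / 49 := by norm_num
    rw [e, ENNReal.ofReal_div_of_pos (by norm_num)]
    norm_num

theorem deltaL_image_le {A : Set V} (hA : IsCompact A) (L : V ≃ₗ[ℝ] V) (t : V) :
    deltaL A ≤ deltaL ((fun x => L x + t) '' A) := by
  unfold deltaL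
  refine iSup₂_le fun b hb => ?_
  have hP := (packs_image A L t b).mpr hb
  have hcont : Continuous (fun x : V => L x + t) :=
    (LinearMap.continuous_of_finiteDimensional (L : V →ₗ[ℝ] V)).add continuous_const
  refine le_trans (le_of_eq ?_)
    (le_iSup₂ (f := fun b (_ : Packs ((fun x => L x + t) '' A) b) =>
      dens ((fun x => L x + t) '' A) b) (fun i => L (b i)) hP)
  rw [dens_eq _ hP.1 _ (hA.image hcont), dens_eq _ hb.1 _ hA,
    ratio_image A L t b ((dt_ne_zero_iff b).mpr hb.1)]

theorem deltaL_image {A : Set V} (hA : IsCompact A) (L : V ≃ₗ[ℝ] V) (t : V) :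
    deltaL ((fun x => L x + t) '' A) = deltaL A := by
  apply le_antisymm _ (deltaL_image_le hA L t)
  have hcont : Continuous (fun x : V => L x + t) :=
    (LinearMap.continuous_of_finiteDimensional (L : V →ₗ[ℝ] V)).add continuous_const
  have := deltaL_image_le (hA.image hcont) L.symm (-(L.symm t))
  have e : (fun x => L.symm x + -(L.symm t)) '' ((fun x => L x + t) '' A) = A := by
    rw [Set.image_image]
    have : (fun x => L.symm (L x + t) + -(L.symm t)) = id := by
      ext1 x
      simp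
    rw [this, Set.image_id]
  rwa [e] at this

theorem deltaL_tetra (p : Fin 4 → V) (hp : AffineIndependent ℝ p) :
    deltaL (convexHull ℝ (Set.range p)) = 18 / 49 := by
  obtain ⟨L, t, h⟩ := tetra_affine p hp
  rw [h, deltaL_image T_compact, deltaL_T]

/-- the quantitative statement for the truncated bodies -/
theorem deltaL_K (c : ℝ) (hc : 0 < c) (hc1 : c ≤ 1 / 10 ^ 15) : deltaL (K c) < 18 / 49 := by
  have hc2 : c ≤ 1 / 100 := by refine hc1.trans ?_; norm_num
  obtain ⟨k, hk⟩ : ∃ k, k = 4 * c / (1 + 9 * c) := ⟨_, rfl⟩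
  have hc9 : 0 < 1 + 9 * c := by linarith
  have hk0 : 0 < k := by rw [hk]; positivity
  have hkc : k * (1 + 9 * c) = 4 * c := by rw [hk]; field_simp
  have hk4 : k ≤ 4 * c := by nlinarith
  have hk5 : k ≤ 1 / 10 := by linarith
  have hvol : (volume (K c)).toReal ≤ 1 / 3 * (1 - k / 3) := by
    have := vol_K c hc hc2
    have e : 4 * c / 3 / (1 + 9 * c) = k / 3 := by rw [hk]; ring
    rwa [e] at this
  have hle := deltaL_le (A := K c) (v := 1 / 3 * (1 - k / 3))
    (d := 49 / 54 - (7 / 24 + 1 / 1000) * k) (K_compact c)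
    (by nlinarith) hvol (by nlinarith) (fun b hb h => final_lower hc hc1 hk hb h)
  refine lt_of_le_of_lt hle ?_
  have e : (18 / 49 : ℝ≥0∞) = ENNReal.ofReal (18 / 49) := by
    rw [ENNReal.ofReal_div_of_pos (by norm_num)]
    norm_num
  rw [e]
  apply (ENNReal.ofReal_lt_ofReal_iff (by norm_num)).mpr
  rw [div_lt_iff₀ (by nlinarith)]
  nlinarith

theorem main : ∃ A : Set V, IsCompact A ∧ Convex ℝ A ∧ (interior A).Nonempty ∧
    ∀ p : Fin 4 → V, AffineIndependent ℝ p → deltaL A < deltaL (convexHull ℝ (Set.range p)) := by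
  refine ⟨K (1 / 10 ^ 15), K_compact _, K_convex _ (by positivity),
    K_interior _ (by positivity) (by norm_num), ?_⟩
  intro p hp
  rw [deltaL_tetra p hp]
  exact deltaL_K _ (by positivity) le_rfl

end Pool.Agent.H349R2.Tet
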