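import Pool.Agent.H349R2.Tet.Final2

/-!
# Convex bodies close to a tetrahedron with a smaller lattice packing density
-/

namespace Pool.Agent.H349R2.Tet

open MeasureTheory ENNReal

theorem K_subset_T (c : ℝ) : K c ⊆ T := fun _ h => h.1

theorem shrink_T (c k : ℝ) (hc : 0 < c) (hk : k = 4 * c / (1 + 9 * c)) (hk1 : k ≤ 1) {x : V}
    (hx : x ∈ T) : (1 - k) • x ∈ K c := by
  have hc9 : 0 < 1 + 9 * c := by linarith
  have hkc : k * (1 + 9 * c) = 4 * c := by rw [hk]; field_simp
  have hk0 : 0 < k := by rw [hk]; positivity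
  have e : ∀ i, lam i ((1 - k) • x) = (1 - k) * lam i x + k / 4 := by
    intro i
    simp only [lam, Fin.sum_univ_three, Pi.smul_apply, smul_eq_mul]
    ring
  have hs : lam 0 x + lam 1 x + lam 2 x + lam 3 x = 1 := by
    simp [lam, nv, Fin.sum_univ_three]
    ring
  have h0 := hx 0
  have h1 := hx 1
  have h2 := hx 2
  have h3 := hx 3
  have hle : ∀ i, lam i x ≤ 1 := by
    intro i
    fin_cases i
    · show lam 0 x ≤ 1
      linarith
    · show lam 1 x ≤ 1
      linarith
    · show lam 2 x ≤ 1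
      linarith
    · show lam 3 x ≤ 1
      linarith
  have h1k : 0 ≤ 1 - k := by linarith
  refine ⟨?_, ?_⟩
  · intro i
    rw [e]
    have := mul_nonneg h1k (hx i)
    linarith
  · intro i j _
    rw [e, e]
    have a1 := mul_nonneg h1k (hx j)
    have a2 := mul_le_mul_of_nonneg_left (hle i) h1k
    have a3 : c * (3 * ((1 - k) * lam i x + k / 4) - 2) ≤ c * (3 * ((1 - k) * 1 + k / 4) - 2) := by
      apply mul_le_mul_of_nonneg_left _ hc.le
      linarith
    have a4 : c * (3 * ((1 - k) * 1 + k / 4) - 2) = k / 4 := by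
      linear_combination (1 / 4 : ℝ) * (- hkc)
    linarith

/-- the quantitative statement for the truncated bodies -/
theorem deltaL_K' (c k : ℝ) (hc : 0 < c) (hc1 : c ≤ 1 / 10 ^ 15)
    (hk : k = 4 * c / (1 + 9 * c)) :
    deltaL (K c) ≤ ENNReal.ofReal (18 / 49 * (1 - k / 100)) := by
  have hc2 : c ≤ 1 / 100 := by refine hc1.trans ?_; norm_num
  have hc9 : 0 < 1 + 9 * c := by linarith
  have hk0 : 0 < k := by rw [hk]; positivity
  have hkc : k * (1 + 9 * c) = 4 * c := by rw [hk]; field_simp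
  have hk4 : k ≤ 4 * c := by nlinarith
  have hk5 : k ≤ 1 / 10 := by linarith
  have hvol : (volume (K c)).toReal ≤ 1 / 3 * (1 - k / 3) := by
    have := vol_K c hc hc2
    have e : 4 * c / 3 / (1 + 9 * c) = k / 3 := by rw [hk]; ring
    rwa [e] at this
  have hle := deltaL_le (A := K c) (v := 1 / 3 * (1 - k / 3))
    (d := 49 / 54 - (7 / 24 + 1 / 1000) * k) (K_compact c)
    (by nlinarith) hvol (by nlinarith) (fun b hb h => final_lower hc hc1 hk hb h)
  refine hle.trans (ENNReal.ofReal_le_ofReal ?_)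
  rw [div_le_iff₀ (by nlinarith)]
  nlinarith

theorem near_tetra (p : Fin 4 → V) (hp : AffineIndependent ℝ p) (η : ℝ) (h0 : 0 < η)
    (h1 : η ≤ 1 / 10 ^ 15) : ∃ A : Set V, IsCompact A ∧ Convex ℝ A ∧ (interior A).Nonempty ∧
      A ⊆ convexHull ℝ (Set.range p) ∧
      (∃ g : V, ∀ x ∈ convexHull ℝ (Set.range p), g + (1 - η) • (x - g) ∈ A) ∧
      deltaL A ≤ ENNReal.ofReal (18 / 49 * (1 - η / 100)) := by
  obtain ⟨L, t, h⟩ := tetra_affine p hp
  have hη : η ≤ 1 / 100 := h1.trans (by norm_num)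
  obtain ⟨c, hc⟩ : ∃ c, c = η / (4 - 9 * η) := ⟨_, rfl⟩
  have h4 : 0 < 4 - 9 * η := by linarith
  have hc0 : 0 < c := by rw [hc]; positivity
  have hcη : c ≤ η := by
    rw [hc, div_le_iff₀ h4]
    nlinarith
  have hc1 : c ≤ 1 / 10 ^ 15 := hcη.trans h1
  have hc2 : c ≤ 1 / 100 := hcη.trans hη
  have hk : η = 4 * c / (1 + 9 * c) := by
    have h5 : c * (4 - 9 * η) = η := by
      rw [hc]
      exact div_mul_cancel₀ _ h4.ne'
    rw [_root_.eq_div_iff (by linarith)]
    linarith
  have hcont : Continuous (fun x : V => L x + t) :=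
    (LinearMap.continuous_of_finiteDimensional (L : V →ₗ[ℝ] V)).add continuous_const
  have hconv : Convex ℝ ((fun x : V => L x + t) '' K c) := by
    have e : (fun x : V => L x + t) '' K c = (fun y => y + t) '' ((L : V →ₗ[ℝ] V) '' K c) := by
      rw [Set.image_image]
      rfl
    rw [e]
    have := ((K_convex c hc0.le).linear_image (L : V →ₗ[ℝ] V)).translate t
    have e2 : (fun y => y + t) '' ((L : V →ₗ[ℝ] V) '' K c)
        = (fun y => t + y) '' ((L : V →ₗ[ℝ] V) '' K c) := by
      congr 1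
      ext1 y
      exact add_comm _ _
    rw [e2]
    exact this
  have hmem : ∀ x ∈ convexHull ℝ (Set.range p),
      t + (1 - η) • (x - t) ∈ (fun x : V => L x + t) '' K c := by
    rw [h]
    rintro _ ⟨x, hx, rfl⟩
    refine ⟨(1 - η) • x, shrink_T c η hc0 hk (by linarith) hx, ?_⟩
    simp [add_comm]
  have hint : (interior ((fun x : V => L x + t) '' K c)).Nonempty := by
    obtain ⟨x, hx⟩ := K_interior c hc0 hc2
    let e : V ≃ₜ V := (L.toContinuousLinearEquiv.toHomeomorph).trans (Homeomorph.addRight t)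
    have he : (fun x : V => L x + t) = e := by
      ext1 x
      rfl
    rw [he, ← e.image_interior]
    exact ⟨e x, x, hx, rfl⟩
  refine ⟨(fun x : V => L x + t) '' K c, (K_compact c).image hcont, hconv, hint, ?_, ⟨t, hmem⟩, ?_⟩
  · rw [h]
    exact Set.image_mono (K_subset_T c)
  · rw [deltaL_image (K_compact c)]
    exact deltaL_K' c η hc0 hc1 hk

end Pool.Agent.H349R2.Tet
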