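import Pool.Agent.H349R2.Tet.Defs

/-! Stubs (sorry) of the independent modules; never import this file in a hand-in. -/

namespace Pool.Agent.H349R2.Tet

open MeasureTheory

/-! BONF -/
theorem bonf (b : Fin 3 → V) (hb : dt b ≠ 0) (P : Finset V)
    (hP : ∀ x ∈ lat b, x ≠ 0 → (∀ i, |x i| < 1) → x ∈ P)
    (hP1 : ∀ x ∈ P, ∀ i, |x i| ≤ 1) :
    1 ≤ |dt b| + (1 / 2) * ∑ x ∈ P, (1 - |x 0|) * (1 - |x 1|) * (1 - |x 2|) := by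
  sorry

/-! VOL -/
theorem vol_T : (volume T).toReal = 1 / 3 := by
  sorry

theorem vol_K (c : ℝ) (hc : 0 < c) (hc1 : c ≤ 1 / 100) :
    (volume (K c)).toReal ≤ (1 / 3) * (1 - (4 * c / 3) / (1 + 9 * c)) := by
  sorry

/-! INDEX -/
theorem index_lemma (b p : Fin 3 → V) (hp : ∀ i, p i ∈ lat b) :
    ∃ m : ℤ, dt p = m * dt b ∧
      ∀ q : ℕ, q.Prime → (q : ℤ) ∣ m →
        ∃ θ : Fin 3 → ℤ, (∃ i, ¬ (q : ℤ) ∣ θ i) ∧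
          (∑ i, ((θ i : ℝ) / (q : ℝ)) • p i) ∈ lat b := by
  sorry

/-! OVER -/
theorem ov_base (c : ℝ) (hc : 0 < c) (hc1 : c ≤ 1 / 100) (u : V)
    (h1 : ∀ i, |u i| < 1 - 4 * c / (1 + 9 * c))
    (h2 : |u 0| + |u 1| + |u 2| < 2 * (1 - 4 * c / (1 + 9 * c))) : Ov (K c) u := by
  sorry

/-- near the centre `(2/3,2/3,2/3)` of a triangular face -/
theorem ov_tri (c : ℝ) (hc : 0 < c) (hc1 : c ≤ 1 / 100) (u : V)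
    (hu : ∀ i, |u i - 2 / 3| ≤ 1 / 100)
    (h : u 0 + u 1 + u 2 < 2 * (1 - 3 * c / (1 + 9 * c))) : Ov (K c) u := by
  sorry

/-- near the contact point of a square face -/
theorem ov_sq (c r : ℝ) (hc : 0 < c) (hc1 : c ≤ 1 / 100) (hr : 0 < r) (hr1 : r ≤ 1 / 100)
    (i : Fin 3) (u : V) (hi : |u i - 1| ≤ r) (hj : ∀ j, j ≠ i → |u j + 1 / 6| ≤ r)
    (h : u i < 1 - 20 * c * r) : Ov (K c) u := by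
  sorry

theorem ov_refl (c : ℝ) (ε : Fin 3 → ℝ) (hε : ∀ i, ε i = 1 ∨ ε i = -1) (u : V)
    (h : Ov (K c) (fun i => ε i * u i)) : Ov (K c) u := by
  sorry

theorem K_convex (c : ℝ) (hc : 0 ≤ c) : Convex ℝ (K c) := by
  sorry

theorem K_compact (c : ℝ) : IsCompact (K c) := by
  sorry

theorem K_interior (c : ℝ) (hc : 0 < c) (hc1 : c ≤ 1 / 100) : (interior (K c)).Nonempty := by
  sorry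

/-! TLOW: Groemer's lattice -/
theorem groemer : ∃ b : Fin 3 → V, |dt b| = 49 / 54 ∧ ∀ u ∈ lat b, u ≠ 0 → ¬ Ov T u := by
  sorry

theorem T_ov (u : V) : Ov T u ↔ (∀ i, |u i| < 1) ∧ |u 0| + |u 1| + |u 2| < 2 := by
  sorry

/-! LEMA -/
theorem lemA (n1 n2 n3 o12 o13 o21 o23 o31 o32 : ℝ)
    (hn1 : 0 ≤ n1) (hn2 : 0 ≤ n2) (hn3 : 0 ≤ n3) (h12 : 0 ≤ o12) (h13 : 0 ≤ o13)
    (h21 : 0 ≤ o21) (h23 : 0 ≤ o23) (h31 : 0 ≤ o31) (h32 : 0 ≤ o32)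
    (hr1 : n1 + o12 + o13 ≤ 1) (hr2 : n2 + o21 + o23 ≤ 1) (hr3 : n3 + o31 + o32 ≤ 1)
    (hC1 : o21 + o31 ≤ 1) (hC2 : o12 + o32 ≤ 1) (hC3 : o13 + o23 ≤ 1)
    (ha1 : n1 ≤ o21 + o31) (ha2 : n2 ≤ o12 + o32) (ha3 : n3 ≤ o13 + o23)
    (ha : (o21 + o31 - n1) + (o12 + o32 - n2) + (o13 + o23 - n3) ≤ 1)
    (hS : 5 / 54 - 1 / 1000 ≤ n1 * o12 * o13 + n2 * o21 * o23 + n3 * o31 * o32
      + (o21 + o31 - n1) * (o12 + o32 - n2) * (o13 + o23 - n3)) :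
    1 ≤ D0 n1 n2 n3 o12 o13 o21 o23 o31 o32 := by
  sorry

/-! LEMB -/
theorem lemB (n1 n2 n3 o12 o13 o21 o23 o31 o32 : ℝ)
    (hn1 : 0 ≤ n1) (hn2 : 0 ≤ n2) (hn3 : 0 ≤ n3) (h12 : 0 ≤ o12) (h13 : 0 ≤ o13)
    (h21 : 0 ≤ o21) (h23 : 0 ≤ o23) (h31 : 0 ≤ o31) (h32 : 0 ≤ o32)
    (hr1 : n1 + o12 + o13 ≤ 1) (hr2 : n2 + o21 + o23 ≤ 1) (hr3 : n3 + o31 + o32 ≤ 1)
    (hd : o21 + o31 ≤ n1)
    (hS : 5 / 54 - 1 / 1000 ≤ n1 * o12 * o13 + n2 * o21 * o23 + n3 * o31 * o32) :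
    23 / 25 ≤ D0 n1 n2 n3 o12 o13 o21 o23 o31 o32 := by
  sorry

/-! LEMF -/
theorem lemF (n1 n2 n3 o12 o13 o21 o23 o31 o32 r : ℝ) (hr0 : 0 < r) (hr5 : r ≤ 1 / 5)
    (hn1 : 0 ≤ n1) (hn2 : 0 ≤ n2) (hn3 : 0 ≤ n3) (h12 : 0 ≤ o12) (h13 : 0 ≤ o13)
    (h21 : 0 ≤ o21) (h23 : 0 ≤ o23) (h31 : 0 ≤ o31) (h32 : 0 ≤ o32)
    (hr1 : n1 + o12 + o13 ≤ 1) (hr2 : n2 + o21 + o23 ≤ 1) (hr3 : n3 + o31 + o32 ≤ 1)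
    (hc1 : n1 + o21 + o31 ≤ 1) (hc2 : n2 + o12 + o32 ≤ 1) (hc3 : n3 + o13 + o23 ≤ 1)
    (hs : 1 + (o12 + o13 + o21 + o23 + o31 + o32) ≤ n1 + n2 + n3)
    (hS : 1 / 18 - r ^ 2 / 400 ≤ n1 * o12 * o13 + n2 * o21 * o23 + n3 * o31 * o32) :
    |n1 - 2 / 3| ≤ r ∧ |n2 - 2 / 3| ≤ r ∧ |n3 - 2 / 3| ≤ r ∧
    |o12 - 1 / 6| ≤ r ∧ |o13 - 1 / 6| ≤ r ∧ |o21 - 1 / 6| ≤ r ∧
    |o23 - 1 / 6| ≤ r ∧ |o31 - 1 / 6| ≤ r ∧ |o32 - 1 / 6| ≤ r := by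
  sorry

/-! LEML -/
theorem lemL (n1 n2 n3 o12 o13 o21 o23 o31 o32 k r : ℝ) (hk : 0 < k) (hkr : k ≤ r)
    (hr : r ≤ 1 / 1000)
    (gn1 : |n1 - 2 / 3| ≤ r) (gn2 : |n2 - 2 / 3| ≤ r) (gn3 : |n3 - 2 / 3| ≤ r)
    (g12 : |o12 - 1 / 6| ≤ r) (g13 : |o13 - 1 / 6| ≤ r) (g21 : |o21 - 1 / 6| ≤ r)
    (g23 : |o23 - 1 / 6| ≤ r) (g31 : |o31 - 1 / 6| ≤ r) (g32 : |o32 - 1 / 6| ≤ r)
    (hr1 : n1 + o12 + o13 ≤ 1 + 2 * k) (hr2 : n2 + o21 + o23 ≤ 1 + 2 * k)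
    (hr3 : n3 + o31 + o32 ≤ 1 + 2 * k)
    (hc1 : n1 + o21 + o31 ≤ 1 + 12 * r * k) (hc2 : n2 + o12 + o32 ≤ 1 + 12 * r * k)
    (hc3 : n3 + o13 + o23 ≤ 1 + 12 * r * k)
    (hs : 1 - 3 * k + (o12 + o13 + o21 + o23 + o31 + o32) ≤ n1 + n2 + n3) :
    2 * (49 / 54 - 7 / 24 * k - 100 * r * k) ≤ D0 n1 n2 n3 o12 o13 o21 o23 o31 o32 := by
  sorry

end Pool.Agent.H349R2.Tet
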