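import Pool.Agent.H349R2.Tet.Dens

/-! Stubs (sorry) of the tasks DENS and AFF; never import this file in a hand-in. -/

namespace Pool.Agent.H349R2.Tet

open MeasureTheory ENNReal

/-! DENS -/
theorem dens_eq (b : Fin 3 → V) (hb : LinearIndependent ℝ b) (A : Set V) (hA : IsCompact A) :
    dens A b = volume A / ENNReal.ofReal |dt b| := by
  sorry

theorem dt_ne_zero_iff (b : Fin 3 → V) : dt b ≠ 0 ↔ LinearIndependent ℝ b := by
  sorry

theorem packs_iff (A : Set V) (b : Fin 3 → V) :
    Packs A b ↔ dt b ≠ 0 ∧ ∀ u ∈ lat b, u ≠ 0 → ¬ Ov A u := by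
  sorry

/-! AFF -/
theorem T_eq_hull : T = convexHull ℝ (Set.range fun i : Fin 4 => (1 / 2 : ℝ) • nv i) := by
  sorry

/-- all tetrahedra have the same lattice packing density; `φ A = volume A / det` version -/
theorem tetra_affine (p : Fin 4 → V) (hp : AffineIndependent ℝ p) :
    ∃ (L : V ≃ₗ[ℝ] V) (t : V), convexHull ℝ (Set.range p) = (fun x => L x + t) '' T := by
  sorry

theorem packs_image (A : Set V) (L : V ≃ₗ[ℝ] V) (t : V) (b : Fin 3 → V) :
    Packs ((fun x => L x + t) '' A) (fun i => L (b i)) ↔ Packs A b := by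
  sorry

theorem ratio_image (A : Set V) (L : V ≃ₗ[ℝ] V) (t : V) (b : Fin 3 → V) (hb : dt b ≠ 0) :
    volume ((fun x => L x + t) '' A) / ENNReal.ofReal |dt (fun i => L (b i))|
      = volume A / ENNReal.ofReal |dt b| := by
  sorry

end Pool.Agent.H349R2.Tet
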